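import Pool.Agent.Q45.TT.MBas

/-!
# The theorem with a marked point
-/

set_option autoImplicit false
set_option linter.all false

open Polynomial IsDedekindDomain WithZero
open scoped Classical

namespace Pool.Agent.Q45.TT

open Pool.Agent.Q45.TW (cst ff ff_monic ff_natDegree ff_map IsGeom)
open Pool.Agent.Y160.SE (IsPw)
open Pool.Agent.Q45.GP (Regular TateOver)
open Pool.Agent.Y160.SQ
open Pool.Agent.TH115.GD (Sep)
open Pool.Agent.Y160.RK (ptCl spanD mem_spanD gen_iter rank_lin sum_pts)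

section fin

variable {k : Type} [Field k] {g : k[X]} {K' K : Type} [Field K'] [Field K] [Algebra k[X] K']
  [Algebra k[X] K] [Algebra K' K] [IsScalarTower k[X] K' K] {c : k} {s : K}
  {A₀ : Type} [CommRing A₀] [Algebra k[X] A₀] [Algebra A₀ K'] [IsScalarTower k[X] A₀ K']
  [IsIntegralClosure A₀ k[X] K']

/-- **The Tate-Shafarevich group and the Mordell-Weil group with a marked point.** -/
theorem sha_mark (h2 : (2 : k) ≠ 0) (hg : g.Monic) (hodd : Odd g.natDegree)
    (hd : derivative g ≠ 0) (hq : IsQuad (algebraMap k[X] K' (X + C c)) s) {m' : ℕ} {s' : ℕ → K'}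
    (htw : IsTower k K' m' s') (hram : Ram g A₀) (hs : (g - C c).Separable)
    (hc : Prime (algebraMap k[X] A₀ (X + C c))) (hres : ResIrr g c A₀)
    {A : Type} [CommRing A] [IsDedekindDomain A] [Algebra A K] [IsFractionRing A K]
    [Algebra k[X] A] [IsScalarTower k[X] A K] [IsIntegralClosure A k[X] K]
    {n : ℕ} {Q : Fin n → k[X]} {G0 : k[X]} (hQ : IsFacs g c Q G0) :
    Pool.Agent.Y160.SH.ShaTriv 2 2 A (ff g K) ∧
      Pool.Agent.Y160.SL.IsBasisAt (M := Jac 2 (ff g K) K) 2
        (fun i => ptCl 2 (ff g K) ((Q i).map (cst k K), C s)) := by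
  have hfs' : FS k K' := htw.fs h2
  have hramK : RamK g K' := RamK.of hfs' hram
  have htw1 := htw.snoc hq
  have hfs : FS k K := htw1.fs h2
  have hirr : Irreducible (ff g K) := htw1.irr h2 hg hodd
  have hs2 : s ^ 2 = algebraMap k[X] K (X + C c) := by
    rw [hq.sq, ← IsScalarTower.algebraMap_apply k[X] K' K]
  have hreg : Regular K (ff g A) := regular_of_der (htw1.hasDer h2) fun v b hb hbv =>
    ⟨b, Ideal.pow_le_self two_ne_zero hbv, ram_mark h2 hq hfs' hramK hs v b hb hbv⟩
  have hirrG : ∀ G ∈ facs (g - C c), Irreducible (G.map (cst k K)) := by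
    intro G hG
    obtain ⟨hi, hm, hdv⟩ := (mem_facs hs.ne_zero).1 hG
    exact irr_mark (A' := A₀) hq hfs' hc hm (hres G hm hi hdv)
  have hP := mpts_ok hg hodd.pos hfs.inj hs2 hs hirrG
  obtain ⟨hgd, h1, hgen⟩ := sha_of h2 hg hodd hd hfs hirr (A := A) hreg (MPts g c s) hP
    (mark_descends h2 hg hodd hd hq htw hramK hs hc hres)
  refine ⟨h1, ?_⟩
  -- the basis
  obtain ⟨L, R, i1, i2, i3, i4, i5, i6, i7, i8, θ, i9, i10, i11, i12, hint, hcomp, hθ, htop, hfsL⟩ :=
    exists_field hg hodd.pos hirr hd hfs A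
  set D : Fin n → Jac 2 (ff g K) K := fun i => ptCl 2 (ff g K) ((Q i).map (cst k K), C s) with hD
  have hspan : spanD hgd D ≤ AddSubgroup.closure (Set.range D) := by
    unfold spanD
    rw [AddSubgroup.closure_le]
    rintro _ ⟨⟨i, j⟩, rfl⟩
    have hj : (j : ℕ) = 0 := by
      have := j.2
      omega
    show ((sg hgd K) ^ (j : ℕ)) (D i) ∈ _
    rw [hj, pow_zero]
    exact AddSubgroup.subset_closure ⟨i, rfl⟩
  have hspan' : AddSubgroup.closure (Set.range D) ≤ spanD hgd D := by
    rw [AddSubgroup.closure_le]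
    rintro _ ⟨i, rfl⟩
    exact mem_spanD hgd D i
  have hmem : ∀ i, Q i ∈ facs (g - C c) := fun i =>
    (mem_facs hs.ne_zero).2 ⟨(hQ.mem i).2.1, (hQ.mem i).1, (hQ.mem i).2.2.1⟩
  refine ⟨?_, fun N x => ?_⟩
  · -- independence
    obtain ⟨i⟩ := Pool.Agent.Q45.GP.exists_emb hgd hθ htop
    letI : Algebra L (Sep K) := i.toRingHom.toAlgebra
    haveI : IsScalarTower K L (Sep K) := IsScalarTower.of_algebraMap_eq fun x => (i.commutes x).symm
    haveI : Algebra.IsSeparable K (Sep K) := IsSepClosure.separable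
    haveI : IsSepClosed (Sep K) := IsSepClosure.sep_closed K
    haveI : IsGalois K (Sep K) := inferInstance
    have haR : Rt (ff g K) (algebraMap L (Sep K) θ) := by
      have h1 : aeval (algebraMap L (Sep K) θ) (ff g K) = 0 := by
        rw [aeval_algebraMap_apply, hθ, map_zero]
      exact h1
    have h := rank_lin (p := 2) (s := 0) (N := L) (Ω := Sep K) hyps hgd Pool.Agent.Y160.FT.inj_all
      Pool.Agent.Y627.FT.stLin Nat.prime_two (by norm_num) hirr haR rfl
      (fun j => ((Q j).map (cst k K), C s)) (fun j => hP _ ⟨Q j, hmem j, rfl⟩) (by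
        intro e w hw0 hw j
        rw [ff_natDegree hg hodd.pos] at hw
        exact mark_ind h2 hg hodd hd hq htw hs hc hres hQ hθ htop e w hw0 hw j)
    have hc := h.comp (fun i : Fin n => ((i, ⟨0, by norm_num⟩) : Fin n × Fin (2 - 1)))
      (fun a b hab => (Prod.ext_iff.1 hab).1)
    have e1 : D = ((fun i : Fin n × Fin (2 - 1) => ((sg hgd K) ^ (i.2 : ℕ))
        (ptCl 2 (ff g K) ((Q i.1).map (cst k K), C s))) ∘
        (fun i : Fin n => ((i, ⟨0, by norm_num⟩) : Fin n × Fin (2 - 1)))) := by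
      funext i
      show D i = ((sg hgd K) ^ 0) (D i)
      rw [pow_zero]
      rfl
    rw [e1]
    exact hc
  · -- generation
    obtain ⟨v, hv⟩ := gen_iter (m := 1) hyps hgd Nat.prime_two (by norm_num) D (fun x => by
      obtain ⟨T, v, hT, hx⟩ := hgen x
      refine ⟨v, ?_⟩
      rw [hx, add_sub_cancel_right]
      refine AddSubgroup.multiset_sum_mem _ _ fun z hz => ?_
      obtain ⟨P, hPT, rfl⟩ := Multiset.mem_map.1 hz
      exact hspan' (gen_list' hg hodd.pos hs hs2 hirrG hgd hQ P (hT P hPT)))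
      N x
    exact ⟨v, hspan hv⟩

/-- **The Tate conjecture with a marked point.** -/
theorem tate_mark {k' F : Type} [Field k'] [Algebra k k'] [IsGalois k k'] [Field F]
    [Algebra k'[X] F] [Algebra K F] (h2 : (2 : k) ≠ 0) (hg : g.Monic) (hodd : Odd g.natDegree)
    (hd : derivative g ≠ 0) (hq : IsQuad (algebraMap k[X] K' (X + C c)) s) {m' : ℕ} {s' : ℕ → K'}
    (htw : IsTower k K' m' s') (hram : Ram g A₀) (hs : (g - C c).Separable)
    (hc : Prime (algebraMap k[X] A₀ (X + C c))) (hres : ResIrr g c A₀)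
    {A : Type} [CommRing A] [IsDedekindDomain A] [Algebra A K] [IsFractionRing A K]
    [Algebra k[X] A] [IsScalarTower k[X] A K] [IsIntegralClosure A k[X] K]
    (hF : IsGeom k k' K F) {A' : Type} [CommRing A'] [IsDedekindDomain A'] [Algebra A' F]
    [IsFractionRing A' F] [Algebra k'[X] A'] [IsScalarTower k'[X] A' F]
    [IsIntegralClosure A' k'[X] F] : TateOver (F := F) 2 2 A' (ff g K) := by
  have hfs' : FS k K' := htw.fs h2
  have hramK : RamK g K' := RamK.of hfs' hram
  have htw1 := htw.snoc hq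
  have hfs : FS k K := htw1.fs h2
  have hirr : Irreducible (ff g K) := htw1.irr h2 hg hodd
  have hs2 : s ^ 2 = algebraMap k[X] K (X + C c) := by
    rw [hq.sq, ← IsScalarTower.algebraMap_apply k[X] K' K]
  have hirrG : ∀ G ∈ facs (g - C c), Irreducible (G.map (cst k K)) := by
    intro G hG
    obtain ⟨hi, hm, hdv⟩ := (mem_facs hs.ne_zero).1 hG
    exact irr_mark (A' := A₀) hq hfs' hc hm (hres G hm hi hdv)
  have h2' : (2 : k') ≠ 0 := by
    have h3 : (2 : k') = algebraMap k k' 2 := by rw [map_ofNat]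
    rw [h3]
    exact (_root_.map_ne_zero _).2 h2
  have hF' := htw1.up hF
  have hirrF : Irreducible (ff (g.map (algebraMap k k')) F) := hF'.irr h2' (hg.map _)
    (by rwa [hg.natDegree_map])
  exact tate_of (A := A) h2 hg hodd hd hfs hirr hirrF hF (reg_up (A := A) hF hfs (hF'.hasDer h2')
    fun w b hb hbw => ram_mark h2 hq hfs' hramK hs w b hb hbw) (MPts g c s)
    (mpts_ok hg hodd.pos hfs.inj hs2 hs hirrG)
    (mark_descends h2 hg hodd hd hq htw hramK hs hc hres)

end fin

end Pool.Agent.Q45.TT
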