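import Pool.Agent.Q45.TD.Irc
import Pool.Agent.Q45.Tate.Dens

/-!
# Irreducibility of `b(-g(x))` for almost all `g`
-/

set_option autoImplicit false
set_option linter.all false

open Polynomial Filter Topology IntermediateField
open scoped Classical

namespace Pool.Agent.Q45.TT

open Q45.Tate (Zd vs mem_vs res)
open Pool.Agent.Y160.T2 (sieve embed_ex)
open Pool.Agent.Y160.T3 (mF bF mF_eq mF_inj mF_monic mF_natDegree mF_of)
open Pool.Agent.Q45.TD (nn nn_shift nn_eq)

theorem mF_map {A B : Type} [CommRing A] [CommRing B] (φ : A →+* B) {n : ℕ} (a : Fin n → A) :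
    (mF a).map φ = mF fun i => φ (a i) := by
  rw [mF_eq, mF_eq, Polynomial.map_add, Polynomial.map_pow, map_X]
  congr 1
  unfold bF
  rw [Polynomial.map_sum]
  refine Finset.sum_congr rfl fun i _ => ?_
  rw [Polynomial.map_mul, map_C, Polynomial.map_pow, map_X]

/-- **Capelli's lemma.** -/
theorem capelli {k E : Type} [Field k] [Field E] [Algebra k E] {b g : k[X]} (hb : Irreducible b)
    {β : E} (hβ : aeval β b = 0) (hg : g.Monic) (hg0 : 0 < g.natDegree)
    (hirr : Irreducible (g.map (algebraMap k E) + C β)) : Irreducible (b.comp (-g)) := by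
  set f : E[X] := g.map (algebraMap k E) + C β with hf
  have hfm : f.Monic := by
    refine (hg.map _).add_of_left ?_
    refine lt_of_le_of_lt degree_C_le ?_
    rw [degree_map]
    exact natDegree_pos_iff_degree_pos.1 hg0
  have hfd : f.natDegree = g.natDegree := by rw [hf, natDegree_add_C, natDegree_map]
  haveI : Fact (Irreducible f) := ⟨hirr⟩
  haveI : FiniteDimensional E (AdjoinRoot f) := (AdjoinRoot.powerBasis hirr.ne_zero).finite
  set θ : AdjoinRoot f := AdjoinRoot.root f with hθ
  have hθf : aeval θ f = 0 := by rw [hθ, AdjoinRoot.aeval_eq, AdjoinRoot.mk_self]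
  -- `-g(θ) = β`
  have hgβ : aeval θ (-g) = algebraMap E (AdjoinRoot f) β := by
    have h3 : aeval θ (g.map (algebraMap k E) + C β) = 0 := hθf
    rw [map_add, aeval_C, aeval_map_algebraMap] at h3
    rw [map_neg]
    linear_combination -h3
  have hβint : IsIntegral k β := by
    rw [← isAlgebraic_iff_isIntegral]
    exact ⟨b, hb.ne_zero, hβ⟩
  have hroot : aeval θ (b.comp (-g)) = 0 := by
    rw [aeval_comp, hgβ, aeval_algebraMap_apply, hβ, map_zero]
  have hne : b.comp (-g) ≠ 0 := by
    intro h0
    rcases comp_eq_zero_iff.1 h0 with h1 | ⟨-, h1⟩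
    · exact hb.ne_zero h1
    · have h3 := congrArg natDegree h1
      rw [natDegree_neg, natDegree_C] at h3
      omega
  have hθint : IsIntegral k θ := by
    rw [← isAlgebraic_iff_isIntegral]
    exact ⟨_, hne, hroot⟩
  have hbd : (minpoly k β).natDegree = b.natDegree := by
    have h4 : Associated (minpoly k β) b :=
      (minpoly.irreducible hβint).associated_of_dvd hb (minpoly.dvd k β hβ)
    exact natDegree_eq_of_degree_eq (degree_eq_degree_of_associated h4)
  -- the tower of fields
  set F0 := k⟮β⟯ with hF0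
  haveI : FiniteDimensional k F0 := adjoin.finiteDimensional hβint
  have hθint0 : IsIntegral F0 θ := hθint.tower_top
  have h1 : g.natDegree ≤ (minpoly F0 θ).natDegree := by
    have h3 : minpoly E θ ∣ (minpoly F0 θ).map (algebraMap F0 E) := minpoly.dvd _ _ (by
      rw [aeval_map_algebraMap, minpoly.aeval])
    have h4 : minpoly E θ = f := (minpoly.eq_of_irreducible_of_monic hirr hθf hfm).symm
    have h5 := natDegree_le_of_dvd h3 (by
      rw [Ne, Polynomial.map_eq_zero]
      exact minpoly.ne_zero hθint0)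
    rwa [h4, hfd, natDegree_map] at h5
  haveI : FiniteDimensional F0 F0⟮θ⟯ := adjoin.finiteDimensional hθint0
  have h3 : Module.finrank k F0⟮θ⟯ = b.natDegree * (minpoly F0 θ).natDegree := by
    rw [← Module.finrank_mul_finrank k F0 F0⟮θ⟯, adjoin.finrank hβint, adjoin.finrank hθint0, hbd]
  have h4 : (F0⟮θ⟯).restrictScalars k = k⟮θ⟯ := by
    apply le_antisymm
    · have hK : ∀ x : F0, algebraMap F0 (AdjoinRoot f) x ∈ k⟮θ⟯ := by
        intro x
        have hx : (x : E) ∈ k⟮β⟯ := x.2
        have h5 : (k⟮β⟯).map (IsScalarTower.toAlgHom k E (AdjoinRoot f)) ≤ k⟮θ⟯ := by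
          rw [adjoin_map, Set.image_singleton, adjoin_simple_le_iff]
          show algebraMap E (AdjoinRoot f) β ∈ k⟮θ⟯
          rw [← hgβ]
          exact algebra_adjoin_le_adjoin _ _ (aeval_mem_adjoin_singleton _ _)
        exact h5 ⟨(x : E), hx, rfl⟩
      intro x hx
      have hx' : x ∈ F0⟮θ⟯ := hx
      refine adjoin_induction F0 (p := fun x _ => x ∈ k⟮θ⟯) ?_ ?_ ?_ ?_ ?_ hx'
      · intro y hy
        rw [Set.mem_singleton_iff] at hy
        rw [hy]
        exact mem_adjoin_simple_self k θ
      · exact hK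
      · intro x y _ _ hx hy
        exact add_mem hx hy
      · intro x _ hx
        exact inv_mem hx
      · intro x y _ _ hx hy
        exact mul_mem hx hy
    · rw [adjoin_simple_le_iff]
      exact mem_adjoin_simple_self F0 θ
  have h5 : Module.finrank k k⟮θ⟯ = b.natDegree * (minpoly F0 θ).natDegree := by
    rw [← h4, ← h3]
    rfl
  rw [adjoin.finrank hθint] at h5
  have h6 : minpoly k θ ∣ b.comp (-g) := minpoly.dvd _ _ hroot
  have h7 : Associated (minpoly k θ) (b.comp (-g)) := by
    refine associated_of_dvd_of_natDegree_le h6 hne ?_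
    rw [h5, natDegree_comp, natDegree_neg]
    exact Nat.mul_le_mul le_rfl h1
  exact h7.irreducible (minpoly.irreducible hθint)

/-- **Almost all `g`.** -/
theorem zd_comp {k : Type} [Field k] [NumberField k] {b : k[X]} (hb : Irreducible b) {n : ℕ}
    (hn : 0 < n) :
    Zd {v : Fin n → ℤ | ¬ Irreducible (b.comp (-(mF fun i => ((v i : ℤ) : k))))} := by
  haveI : Fact (Irreducible b) := ⟨hb⟩
  haveI : FiniteDimensional k (AdjoinRoot b) := (AdjoinRoot.powerBasis hb.ne_zero).finite
  haveI : NumberField (AdjoinRoot b) := NumberField.of_module_finite k (AdjoinRoot b)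
  set β : AdjoinRoot b := AdjoinRoot.root b with hβ
  have hβb : aeval β b = 0 := by rw [hβ, AdjoinRoot.aeval_eq, AdjoinRoot.mk_self]
  obtain ⟨y, hy0, hy⟩ : ∃ y : ℤ, y ≠ 0 ∧ IsIntegral ℤ (y • β) := by
    have h1 : IsAlgebraic ℤ β := by
      have h3 : IsAlgebraic ℚ β := Algebra.IsAlgebraic.isAlgebraic β
      exact (IsFractionRing.isAlgebraic_iff ℤ ℚ (AdjoinRoot b)).2 h3
    exact h1.exists_integral_multiple
  refine sieve (D := 2 * n) (by omega) _ fun N => ?_
  obtain ⟨P, hP, hPB, ⟨σ⟩⟩ := embed_ex (AdjoinRoot b) (N + y.natAbs + (2 * n + 2))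
  haveI : Fintype (ZMod P) := ZMod.fintype P
  have hcard : Fintype.card (ZMod P) = P := ZMod.card P
  have hβv : β ∈ vs σ := by
    have h1 : y • β ∈ vs σ := by
      have h3 : IsIntegral (vs σ) (y • β) := hy.tower_top
      obtain ⟨z, hz⟩ := (IsIntegrallyClosed.isIntegral_iff (R := vs σ)).1 h3
      rw [← hz]
      exact z.2
    rw [mem_vs, zsmul_eq_mul, map_mul, norm_mul, map_intCast] at h1
    have h3 : ‖((y : ℤ) : ℚ_[P])‖ = 1 := by
      by_contra hne
      have h4 : ‖((y : ℤ) : ℚ_[P])‖ < 1 := lt_of_le_of_ne (Padic.norm_int_le_one y) hne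
      have h4' : ‖((y : ℤ) : ℤ_[P])‖ < 1 := by
        rw [← PadicInt.padic_norm_e_of_padicInt]
        push_cast
        exact h4
      rw [PadicInt.norm_int_lt_one_iff_dvd] at h4'
      have h5 := Int.natAbs_dvd_natAbs.2 h4'
      rw [Int.natAbs_natCast] at h5
      have h6 := Nat.le_of_dvd (Int.natAbs_pos.2 hy0) h5
      omega
    rw [h3, one_mul] at h1
    exact h1
  set β' : vs σ := ⟨β, hβv⟩ with hβ'
  set c : ZMod P := res σ β' with hc
  have h1 := nn_shift (F := ZMod P) hn (by rw [hcard]; omega) (-c)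
  rw [hcard, nn_eq] at h1
  refine ⟨P, by omega, hP.out, _, h1, fun v hv hmem => hv ?_⟩
  have hT : Irreducible (mF (fun i => ((v i : ℤ) : ZMod P)) + C c) := by
    have h3 := (Finset.mem_filter.1 hmem).2
    rwa [C_neg, sub_neg_eq_add] at h3
  -- the polynomial over the valuation ring
  set h : (vs σ)[X] := (mF fun i => ((v i : ℤ) : vs σ)) + C β' with hh
  have hm : h.Monic := by
    refine (mF_monic _).add_of_left ?_
    refine lt_of_le_of_lt degree_C_le ?_
    rw [degree_eq_natDegree (mF_monic _).ne_zero, mF_natDegree]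
    exact_mod_cast hn
  have hirr : Irreducible h := by
    refine hm.irreducible_of_irreducible_map (res σ) _ ?_
    rw [hh, Polynomial.map_add, map_C, mF_map]
    simp only [map_intCast]
    exact hT
  have h3 := (hm.irreducible_iff_irreducible_map_fraction_map (K := AdjoinRoot b)).1 hirr
  have h4 : h.map (algebraMap (vs σ) (AdjoinRoot b)) =
      (mF fun i => ((v i : ℤ) : k)).map (algebraMap k (AdjoinRoot b)) + C β := by
    rw [hh, Polynomial.map_add, map_C, mF_map, mF_map]
    simp only [map_intCast]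
    rfl
  rw [h4] at h3
  exact capelli hb hβb (mF_monic _) (by rw [mF_natDegree]; exact hn) h3

end Pool.Agent.Q45.TT
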