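import Pool.Agent.Q45.TT.Main

/-!
# The theorem over towers of quadratic extensions
-/

set_option autoImplicit false
set_option linter.all false

open Polynomial IsDedekindDomain WithZero
open scoped Classical

namespace Pool.Agent.Q45.TT

open Pool.Agent.Q45.TW (cst ff ff_monic ff_natDegree ff_map IsGeom)
open Pool.Agent.Y160.SE (IsPw)
open Pool.Agent.Q45.GP (Regular TateOver)
open Pool.Agent.Y160.SQ
open Pool.Agent.Y160.RK (ptCl spanD gen_iter no_tor_base)

/-- The conclusion of the descent with the divisors in `PP`. -/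
def Descends {k : Type} [Field k] (g : k[X]) (K : Type) [Field K] [Algebra k[X] K]
    (PP : Set (K[X] × K[X])) : Prop :=
  ∀ (L : Type) [Field L] [Algebra k[X] L] [Algebra K L] [IsScalarTower k[X] K L] (θ : L),
    aeval θ (ff g K) = 0 → IntermediateField.adjoin K {θ} = ⊤ →
    ∀ (R : Type) [CommRing R] [IsDedekindDomain R] [Algebra k[X] R] [Algebra R L]
      [IsScalarTower k[X] R L] [IsFractionRing R L] [IsIntegralClosure R k[X] L] (z : L),
      z ≠ 0 → (∀ w : HeightOneSpectrum R, IsPw 2 (w.valuation L z)) →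
      (∃ u : K, Algebra.norm K z = u ^ 2) →
      ∃ (u : K) (w : L) (S : Multiset (K[X] × K[X])), u ≠ 0 ∧ w ≠ 0 ∧ (∀ P ∈ S, P ∈ PP) ∧
        z = algebraMap K L u * w ^ 2 * aeval θ (dvP S)

section geom

variable {k k' : Type} [Field k] [Field k'] [Algebra k k'] {g : k[X]} {K F : Type} [Field K]
  [Algebra k[X] K] [Field F] [Algebra k'[X] F] [Algebra K F]

theorem ff_geom (hF : IsGeom k k' K F) :
    ff (g.map (algebraMap k k')) F = (ff g K).map (algebraMap K F) := by
  unfold ff
  rw [Polynomial.map_add, map_C, hF.comp, map_X, Polynomial.map_map, Polynomial.map_map]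
  congr 2
  refine RingHom.ext fun x => ?_
  show algebraMap k'[X] F (C (algebraMap k k' x)) = algebraMap K F (algebraMap k[X] K (C x))
  rw [hF.comp, map_C]

/-- The Tate conjecture from the descent. -/
theorem tate_of [IsGalois k k'] (h2 : (2 : k) ≠ 0) (hg : g.Monic) (hodd : Odd g.natDegree)
    (hd : derivative g ≠ 0) (hfs : FS k K) (hirr : Irreducible (ff g K))
    (hirrF : Irreducible (ff (g.map (algebraMap k k')) F)) (hF : IsGeom k k' K F)
    {A A' : Type} [CommRing A] [IsDedekindDomain A] [Algebra A K] [IsFractionRing A K]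
    [Algebra k[X] A] [IsScalarTower k[X] A K] [IsIntegralClosure A k[X] K]
    [CommRing A'] [IsDedekindDomain A'] [Algebra A' F] [IsFractionRing A' F]
    [Algebra k'[X] A'] [IsScalarTower k'[X] A' F] [IsIntegralClosure A' k'[X] F]
    (hS : Regular F (ff (g.map (algebraMap k k')) A')) (PP : Set (K[X] × K[X]))
    (hPP : ∀ P ∈ PP, Irreducible P.1 ∧ P.1.Monic ∧ ¬ P.1 ∣ ff g K ∧ P.1 ∣ ff g K - P.2 ^ 2)
    (hpts : Descends g K PP) : TateOver (F := F) 2 2 A' (ff g K) := by
  obtain ⟨L, R, i1, i2, i3, i4, i5, i6, i7, i8, θ, i9, i10, i11, i12, hint, hcomp, hθ, htop, hfsL⟩ :=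
    exists_field hg hodd.pos hirr hd hfs A
  have hgd : Good 2 (-1) (ff g K) := TW.good h2 hg hodd hfs.inj (sep_ff hirr hd)
  haveI := hint
  set j := algebraMap k k' with hj
  have hg' : (g.map j).Monic := hg.map _
  have hodd' : Odd (g.map j).natDegree := by rwa [hg.natDegree_map]
  obtain ⟨ψ, hψ1, hψ2⟩ := exists_algG hF A A'
  letI : Algebra A A' := ψ.toAlgebra
  haveI : Algebra.IsIntegral A A' := by
    have h1 : (algebraMap k'[X] A').IsIntegral := fun x => IsIntegralClosure.isIntegral k'[X] F x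
    have h3 : ((algebraMap k'[X] A').comp (mapRingHom j)).IsIntegral :=
      RingHom.IsIntegral.trans _ _ Pool.Agent.TH115.GD.poly_integral h1
    have h4 : (algebraMap k'[X] A').comp (mapRingHom j) =
        ψ.comp (algebraMap k[X] A) := RingHom.ext fun p => (hψ2 p).symm
    rw [h4] at h3
    exact ⟨RingHom.IsIntegral.tower_top _ _ h3⟩
  letI : Algebra k K := ((algebraMap k[X] K).comp C).toAlgebra
  letI : Algebra k' F := ((algebraMap k'[X] F).comp C).toAlgebra
  letI : Algebra k F := ((algebraMap k' F).comp j).toAlgebra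
  haveI : IsScalarTower k k' F := IsScalarTower.of_algebraMap_eq fun x => rfl
  haveI : IsScalarTower k K F := IsScalarTower.of_algebraMap_eq fun x => by
    show algebraMap k'[X] F (C (j x)) = algebraMap K F (algebraMap k[X] K (C x))
    rw [hF.comp, map_C]
  letI : Algebra k' A' := ((algebraMap k'[X] A').comp C).toAlgebra
  haveI : IsScalarTower k' A' F := IsScalarTower.of_algebraMap_eq fun x =>
    IsScalarTower.algebraMap_apply k'[X] A' F (C x)
  have hfA : (ff (g.map j) A').map (algebraMap A' F) = (ff g K).map (algebraMap K F) := by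
    rw [ff_map (algebraMap A' F) (fun p => (IsScalarTower.algebraMap_apply k'[X] A' F p).symm)]
    exact ff_geom hF
  exact Pool.Agent.Q45.GP.tateC k (R := R) (A := A) (p := 2) (m := 1) (ℓ := 2) Nat.prime_two
    (by norm_num) hF.gen hψ1 hcomp hfA hgd (ff_monic hg' hodd'.pos) hS hirr (by
      rw [← ff_geom hF]
      exact hirrF) hθ htop PP hPP (fun z hz hev hno => hpts L θ hθ htop R z hz hev hno)

/-- Regularity over the larger field of constants. -/
theorem reg_up [IsGalois k k'] (hF : IsGeom k k' K F) {A A' : Type} [CommRing A]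
    [IsDedekindDomain A] [CommRing A'] [IsDedekindDomain A'] [Algebra k[X] A] [Algebra A K]
    [IsScalarTower k[X] A K] [IsIntegralClosure A k[X] K] [IsFractionRing A K]
    [Algebra k'[X] A'] [Algebra A' F] [IsScalarTower k'[X] A' F] [IsIntegralClosure A' k'[X] F]
    [IsFractionRing A' F] (hfs : FS k K) (hder : HasDer k' F)
    (hsep : ∀ (w : HeightOneSpectrum A) (b : k[X]), Irreducible b →
      algebraMap k[X] A b ∈ w.asIdeal ^ 2 → (b.comp (-g)).Separable) :
    Regular F (ff (g.map (algebraMap k k')) A') := by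
  refine regular_of_der hder fun v b' hb' hbv => ?_
  obtain ⟨b, w, hb, hbw, hbv'⟩ := ram_up (A := A) hF hfs v b' hb' hbv
  refine ⟨b.map (algebraMap k k'), hbv', ?_⟩
  have h1 := (hsep w b hb hbw).map (f := algebraMap k k')
  rwa [map_comp, Polynomial.map_neg] at h1

end geom

section fin

variable {k : Type} [Field k] {g : k[X]} {K : Type} [Field K] [Algebra k[X] K]
  {A : Type} [CommRing A] [IsDedekindDomain A] [Algebra A K] [IsFractionRing A K]
  [Algebra k[X] A] [IsScalarTower k[X] A K] [IsIntegralClosure A k[X] K]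

/-- There is no `2`-torsion. -/
theorem no_two (hgd : Good 2 (-1) (ff g K)) (hirr : Irreducible (ff g K)) {x : Jac 2 (ff g K) K}
    (hx : 2 • x = 0) : x = 0 := by
  refine no_tor_base hyps hgd Pool.Agent.Y160.FT.inj_all hirr ?_
  have h := pe_nrm hyps hgd x
  have h1 : nrm 2 = 1 + X := by
    unfold nrm
    rw [Finset.sum_range_succ, Finset.sum_range_one, pow_zero, pow_one]
  rw [h1, pe_add, pe_one, pe_X] at h
  have h3 : sg hgd K x = -x := eq_neg_of_add_eq_zero_right h
  rw [h3, sub_neg_eq_add, ← two_nsmul]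
  exact hx

/-- **The Tate-Shafarevich group over the tower.** -/
theorem sha_tower (h2 : (2 : k) ≠ 0) (hg : g.Monic) (hodd : Odd g.natDegree)
    (hd : derivative g ≠ 0) {m : ℕ} {s : ℕ → K} (h : IsTower k K m s) (hram : Ram g A) :
    Pool.Agent.Y160.SH.ShaTriv 2 2 A (ff g K) ∧ ∀ x : Jac 2 (ff g K) K, ∃! y, 2 • y = x := by
  have hfs : FS k K := h.fs h2
  have hirr : Irreducible (ff g K) := h.irr h2 hg hodd
  have hreg : Regular K (ff g A) := regular_of_der (h.hasDer h2) fun v b hb hbv => by
    refine ⟨b, ?_, (hram v b hb hbv).2⟩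
    exact Ideal.pow_le_self two_ne_zero hbv
  have htriv : Triv g K := h.triv h2 hg hodd hd (RamK.of hfs hram)
  obtain ⟨hgd, h1, h3⟩ := sha_of h2 hg hodd hd hfs hirr (A := A) hreg ∅ (fun P hP => absurd hP
    (Set.notMem_empty P)) (fun L _ _ _ _ θ hθ htop R _ _ _ _ _ _ _ z hz hev hno => by
      obtain ⟨c, hc⟩ := htriv L θ hθ htop R z hz hev hno
      have hc0 : c ≠ 0 := by
        rintro rfl
        rw [zero_pow two_ne_zero] at hc
        exact hz hc
      refine ⟨1, c, 0, one_ne_zero, hc0, fun P hP => absurd hP (Multiset.notMem_zero P), ?_⟩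
      rw [hc, map_one, one_mul]
      have h5 : dvP (0 : Multiset (K[X] × K[X])) = 1 := rfl
      rw [h5, map_one, mul_one])
  refine ⟨h1, fun x => ?_⟩
  let D : Fin 0 → Jac 2 (ff g K) K := fun i => i.elim0
  obtain ⟨y, hy⟩ := gen_iter (p := 2) (m := 1) hyps hgd Nat.prime_two (by norm_num) D (fun x => by
    obtain ⟨T, v, hT, hx⟩ := h3 x
    have hT0 : T = 0 := by
      rw [Multiset.eq_zero_iff_forall_notMem]
      exact fun P hP => Set.notMem_empty P (hT P hP)
    refine ⟨v, ?_⟩
    rw [hx, add_sub_cancel_right, hT0, Multiset.map_zero, Multiset.sum_zero]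
    exact AddSubgroup.zero_mem _) 1 x
  have h5 : spanD hgd D = ⊥ := by
    unfold spanD
    rw [eq_bot_iff, AddSubgroup.closure_le]
    rintro _ ⟨⟨i, _⟩, rfl⟩
    exact i.elim0
  rw [h5, AddSubgroup.mem_bot, pow_one, sub_eq_zero] at hy
  refine ⟨y, hy.symm, fun y' hy' => ?_⟩
  have h6 : 2 • (y' - y) = 0 := by
    rw [smul_sub, hy', ← hy, sub_self]
  exact sub_eq_zero.1 (no_two hgd hirr h6)

/-- **The Tate conjecture over the tower.** -/
theorem tate_tower {k' F : Type} [Field k'] [Algebra k k'] [IsGalois k k'] [Field F]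
    [Algebra k'[X] F] [Algebra K F] (h2 : (2 : k) ≠ 0) (hg : g.Monic) (hodd : Odd g.natDegree)
    (hd : derivative g ≠ 0) {m : ℕ} {s : ℕ → K} (h : IsTower k K m s) (hram : Ram g A)
    (hF : IsGeom k k' K F) {A' : Type} [CommRing A'] [IsDedekindDomain A'] [Algebra A' F]
    [IsFractionRing A' F] [Algebra k'[X] A'] [IsScalarTower k'[X] A' F]
    [IsIntegralClosure A' k'[X] F] : TateOver (F := F) 2 2 A' (ff g K) := by
  have hfs : FS k K := h.fs h2
  have hirr : Irreducible (ff g K) := h.irr h2 hg hodd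
  have htriv : Triv g K := h.triv h2 hg hodd hd (RamK.of hfs hram)
  have h2' : (2 : k') ≠ 0 := by
    have h3 : (2 : k') = algebraMap k k' 2 := by rw [map_ofNat]
    rw [h3]
    exact (_root_.map_ne_zero _).2 h2
  have hF' : IsTower k' F m (fun i => algebraMap K F (s i)) := h.up hF
  have hirrF : Irreducible (ff (g.map (algebraMap k k')) F) := hF'.irr h2' (hg.map _)
    (by rwa [hg.natDegree_map])
  refine tate_of (A := A) h2 hg hodd hd hfs hirr hirrF hF (reg_up (A := A) hF hfs (hF'.hasDer h2')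
    fun w b hb hbw => (hram w b hb hbw).2) ∅ (fun P hP => absurd hP (Set.notMem_empty P)) ?_
  intro L _ _ _ _ θ hθ htop R _ _ _ _ _ _ _ z hz hev hno
  obtain ⟨c, hc⟩ := htriv L θ hθ htop R z hz hev hno
  have hc0 : c ≠ 0 := by
    rintro rfl
    rw [zero_pow two_ne_zero] at hc
    exact hz hc
  refine ⟨1, c, 0, one_ne_zero, hc0, fun P hP => absurd hP (Multiset.notMem_zero P), ?_⟩
  rw [hc, map_one, one_mul]
  have h5 : dvP (0 : Multiset (K[X] × K[X])) = 1 := rfl
  rw [h5, map_one, mul_one]

end fin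

end Pool.Agent.Q45.TT
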