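import Pool.Agent.Q45.TT.Base
import Mathlib.RingTheory.Etale.Kaehler
import Mathlib.RingTheory.Etale.Field

/-!
# Integral derivations at the unramified places
-/

set_option autoImplicit false
set_option linter.all false

open Polynomial IsDedekindDomain WithZero
open scoped Classical TensorProduct

namespace Pool.Agent.Q45.TT

open Pool.Agent.Q45.TW (cst ff ff_monic ff_natDegree ff_map)
open Pool.Agent.Y160.SE (IsPw)

/-- Derivations extend to formally étale extensions. -/
theorem exists_ext {S T : Type} [CommRing S] [CommRing T] [Algebra S T] [Algebra.FormallyEtale S T]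
    (D' : Derivation ℤ S T) : ∃ D : Derivation ℤ T T, ∀ x, D (algebraMap S T x) = D' x := by
  let f : T ⊗[S] Ω[S⁄ℤ] →ₗ[T] T := LinearMap.liftBaseChange T D'.liftKaehlerDifferential
  let e := KaehlerDifferential.tensorKaehlerEquivOfFormallyEtale ℤ S T
  let h : Ω[T⁄ℤ] →ₗ[T] T := f.comp e.symm.toLinearMap
  refine ⟨h.compDer (KaehlerDifferential.D ℤ T), fun x => ?_⟩
  show f (e.symm (KaehlerDifferential.D ℤ T (algebraMap S T x))) = _
  rw [KaehlerDifferential.tensorKaehlerEquivOfFormallyEtale_symm_D_algebraMap]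
  show LinearMap.liftBaseChange T D'.liftKaehlerDifferential (1 ⊗ₜ KaehlerDifferential.D ℤ S x) = _
  rw [LinearMap.liftBaseChange_tmul, one_smul, Derivation.liftKaehlerDifferential_comp_D]

/-- Integrality of a derivation. -/
theorem int_of_ring {A F : Type} [CommRing A] [IsDedekindDomain A] [Field F] [Algebra A F]
    [IsFractionRing A F] (v : HeightOneSpectrum A) (D : Derivation ℤ F F)
    (h : ∀ a : A, v.valuation F (D (algebraMap A F a)) ≤ 1) (x : F) (hx : v.valuation F x ≤ 1) :
    v.valuation F (D x) ≤ 1 := by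
  obtain ⟨r, e, hre⟩ := v.exists_primeCompl_mul_eq_of_integer x hx
  have he : v.valuation F (algebraMap A F (e : A)) = 1 := by
    rw [v.valuation_of_algebraMap]
    exact (v.intValuation_eq_one_iff_mem_primeCompl _).2 e.2
  have h1 : algebraMap A F (e : A) * D x = D (algebraMap A F r) - x * D (algebraMap A F (e : A)) := by
    rw [← hre, Derivation.leibniz, smul_eq_mul, smul_eq_mul]
    ring
  have h3 : v.valuation F (algebraMap A F (e : A) * D x) = v.valuation F (D x) := by
    rw [map_mul, he, one_mul]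
  rw [← h3, h1]
  refine (Valuation.map_sub _ _ _).trans (max_le (h r) ?_)
  rw [map_mul]
  exact mul_le_one' hx (h _)

/-- Integral derivations at the unramified places. -/
def HasDer (k : Type) [Field k] (F : Type) [Field F] [Algebra k[X] F] : Prop :=
  ∀ (A : Type) [CommRing A] [IsDedekindDomain A] [Algebra k[X] A] [Algebra A F]
    [IsScalarTower k[X] A F] [IsFractionRing A F] [IsIntegralClosure A k[X] F]
    (v : HeightOneSpectrum A),
    (∀ b : k[X], Irreducible b → algebraMap k[X] A b ∉ v.asIdeal ^ 2) →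
    ∃ D : Derivation ℤ F F, (∀ p : k[X], D (algebraMap k[X] F p) =
      algebraMap k[X] F (derivative p)) ∧
      ∀ x : F, v.valuation F x ≤ 1 → v.valuation F (D x) ≤ 1

section der

variable {k : Type} [Field k]

theorem hasDer_base {F : Type} [Field F] [Algebra k[X] F] (hF : IsFractionRing k[X] F) :
    HasDer k F := by
  intro A _ _ _ _ _ _ _ v _
  haveI : Algebra.FormallyEtale k[X] F := Algebra.FormallyEtale.of_isLocalization
    (nonZeroDivisors k[X])
  let D' : Derivation ℤ k[X] F :=
    (Algebra.linearMap k[X] F).compDer ((Polynomial.derivative' (R := k)).restrictScalars ℤ)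
  obtain ⟨D, hD⟩ := exists_ext D'
  have hD1 : ∀ p : k[X], D (algebraMap k[X] F p) = algebraMap k[X] F (derivative p) := fun p => by
    rw [hD]
    rfl
  refine ⟨D, hD1, int_of_ring v D fun a => ?_⟩
  obtain ⟨p, hp⟩ : ∃ p : k[X], algebraMap k[X] F p = algebraMap A F a := by
    apply (IsIntegrallyClosed.isIntegral_iff (K := F)).1
    have h1 : IsIntegral k[X] a := IsIntegralClosure.isIntegral k[X] F a
    exact h1.algebraMap
  rw [← hp, hD1, IsScalarTower.algebraMap_apply k[X] A F]
  exact v.valuation_le_one _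

theorem hasDer_step (h2 : (2 : k) ≠ 0) {K' K : Type} [Field K'] [Field K] [Algebra k[X] K']
    [Algebra k[X] K] [Algebra K' K] [IsScalarTower k[X] K' K] {D₀ : K'} {s : K} (hq : IsQuad D₀ s)
    (hfs' : FS k K') (ih : HasDer k K') : HasDer k K := by
  intro A _ _ _ _ _ _ _ v hunr
  have hfs : FS k K := hfs'.trans hq.fin hq.separable
  obtain ⟨A', a1, a2, a3, a4, a5⟩ := exists_ic (k := k) K'
  obtain ⟨φ, hφ1, hφ2⟩ := exists_alg (k := k) (K' := K') (K := K) A' A
  letI : Algebra A' A := φ.toAlgebra
  haveI : IsScalarTower k[X] A' A := IsScalarTower.of_algebraMap_eq fun p => (hφ2 p).symm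
  haveI := hfs.finite A
  haveI := hfs'.ded A'
  haveI := hfs'.frac A'
  haveI := hfs'.finite A'
  haveI : Module.Finite A' A := Module.Finite.of_restrictScalars_finite k[X] A' A
  haveI : Algebra.IsIntegral A' A := Algebra.IsIntegral.of_finite A' A
  haveI : Algebra.IsIntegral k[X] A' := Algebra.IsIntegral.of_finite k[X] A'
  haveI : Module.IsTorsionFree A' A := by
    rw [Module.isTorsionFree_iff_algebraMap_injective]
    exact tf_of (K' := K') (K := K) (IsFractionRing.injective A' K') hφ1
  letI : Algebra A' K := ((algebraMap K' K).comp (algebraMap A' K')).toAlgebra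
  haveI : IsScalarTower A' K' K := IsScalarTower.of_algebraMap_eq fun _ => rfl
  haveI : IsScalarTower A' A K := IsScalarTower.of_algebraMap_eq fun a => (hφ1 a).symm
  set v' := v.under A' with hv'
  have hle : v'.asIdeal.map (algebraMap A' A) ≤ v.asIdeal := by
    rw [Ideal.map_le_iff_le_comap]
    exact le_rfl
  have hunr' : ∀ b : k[X], Irreducible b → algebraMap k[X] A' b ∉ v'.asIdeal ^ 2 := by
    intro b hb hbv
    refine hunr b hb ?_
    rw [IsScalarTower.algebraMap_apply k[X] A' A]
    have h3 := Ideal.mem_map_of_mem (algebraMap A' A) hbv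
    rw [Ideal.map_pow] at h3
    exact Ideal.pow_right_mono hle 2 h3
  have hev : IsPw 2 (v'.valuation K' D₀) := by
    by_contra hodd
    obtain ⟨b, -, hb, hbv⟩ := exists_irr (hfs'.injB A') v'
    refine hunr b hb ?_
    rw [IsScalarTower.algebraMap_apply k[X] A' A]
    exact ram_of_odd (K := K') (L := K) hq v hodd (Ideal.mem_map_of_mem _ hbv)
  obtain ⟨D', hD'1, hD'2⟩ := ih A' v' hunr'
  haveI := hq.fin
  haveI := hq.separable
  haveI : Algebra.FormallyEtale K' K := Algebra.FormallyEtale.of_isSeparable K' K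
  obtain ⟨D, hD⟩ := exists_ext ((Algebra.linearMap K' K).compDer D')
  have hD1 : ∀ x : K', D (algebraMap K' K x) = algebraMap K' K (D' x) := fun x => by
    rw [hD]
    rfl
  refine ⟨D, fun p => ?_, int_of_ring v D fun r => ?_⟩
  · rw [IsScalarTower.algebraMap_apply k[X] K' K, hD1, hD'1,
      ← IsScalarTower.algebraMap_apply k[X] K' K]
  -- a unit square root
  obtain ⟨d, c, hc, hcd, hdv⟩ := unit_rep v' hq.ne_zero hev
  obtain ⟨s₁, hs₁⟩ : ∃ s₁ : K, s₁ = algebraMap K' K c * s := ⟨_, rfl⟩
  have hs₁2 : s₁ ^ 2 = algebraMap K' K (algebraMap A' K' d) := by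
    rw [hs₁, mul_pow, hq.sq, ← map_pow, ← map_mul, mul_comm, hcd]
  have hval : ∀ x : K', v'.valuation K' x ≤ 1 → v.valuation K (algebraMap K' K x) ≤ 1 := by
    intro x hx
    rw [val_under (A := A'), ← hv']
    exact pow_le_one' hx _
  have hdK : v'.valuation K' (algebraMap A' K' d) = 1 := by
    rw [v'.valuation_of_algebraMap, hdv]
  have hs₁v : v.valuation K s₁ = 1 := by
    have h1 : v.valuation K s₁ ^ 2 = 1 := by
      rw [← map_pow, hs₁2, val_under (A := A'), ← hv', hdK, one_pow]
    exact (pow_eq_one_iff.1 h1).resolve_right (by norm_num)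
  have h2A : v.valuation K (2 : K) = 1 := by
    have h3 : (2 : K) = algebraMap A K (algebraMap k[X] A (C 2)) := by
      rw [show (C 2 : k[X]) = 2 by rw [map_ofNat], map_ofNat, map_ofNat]
    rw [h3, v.valuation_of_algebraMap, v.intValuation_eq_one_iff]
    intro h4
    refine v.isPrime.ne_top (Ideal.eq_top_of_isUnit_mem _ h4 ?_)
    exact (isUnit_C.2 (IsUnit.mk0 _ h2)).map _
  have h2A' : v'.valuation K' (2 : K') = 1 := by
    have h3 : (2 : K') = algebraMap A' K' (algebraMap k[X] A' (C 2)) := by
      rw [show (C 2 : k[X]) = 2 by rw [map_ofNat], map_ofNat, map_ofNat]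
    rw [h3, v'.valuation_of_algebraMap, v'.intValuation_eq_one_iff]
    intro h4
    refine v'.isPrime.ne_top (Ideal.eq_top_of_isUnit_mem _ h4 ?_)
    exact (isUnit_C.2 (IsUnit.mk0 _ h2)).map _
  have hDs : v.valuation K (D s₁) ≤ 1 := by
    have h1 : 2 * s₁ * D s₁ = algebraMap K' K (D' (algebraMap A' K' d)) := by
      rw [← hD1, ← hs₁2, pow_two, Derivation.leibniz, smul_eq_mul]
      ring
    have h3 := congrArg (v.valuation K) h1
    rw [map_mul, map_mul, h2A, hs₁v, one_mul, one_mul] at h3
    rw [h3]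
    exact hval _ (hD'2 _ hdK.le)
  -- the coordinates
  obtain ⟨a, b₀, hr⟩ := hq.rep (algebraMap A K r)
  have hint : IsIntegral k[X] (algebraMap A K r) :=
    (IsIntegralClosure.isIntegral k[X] K r).algebraMap
  have hv'int : ∀ x : K', IsIntegral k[X] x → v'.valuation K' x ≤ 1 := by
    intro x hx
    obtain ⟨y, rfl⟩ := (IsIntegralClosure.isIntegral_iff (A := A') (R := k[X])).1 hx
    exact v'.valuation_le_one y
  have htr : v'.valuation K' a ≤ 1 := by
    have h1 := hv'int _ (Algebra.isIntegral_trace (L := K') hint)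
    rw [hr, hq.trace, map_mul, h2A', one_mul] at h1
    exact h1
  have hno := hv'int _ (Algebra.isIntegral_norm K' hint)
  rw [hr, hq.norm] at hno
  have hb : v'.valuation K' (b₀ / c) ≤ 1 := by
    have h1 : (b₀ / c) ^ 2 * algebraMap A' K' d = a ^ 2 - (a ^ 2 - b₀ ^ 2 * D₀) := by
      rw [← hcd]
      field_simp
      ring
    have h3 : v'.valuation K' (b₀ / c) ^ 2 ≤ 1 := by
      have h4 : v'.valuation K' ((b₀ / c) ^ 2 * algebraMap A' K' d) =
          v'.valuation K' (b₀ / c) ^ 2 := by
        rw [map_mul, hdK, mul_one, map_pow]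
      rw [← h4, h1]
      refine (Valuation.map_sub _ _ _).trans (max_le ?_ hno)
      rw [map_pow]
      exact pow_le_one' htr 2
    exact (pow_le_one_iff (by norm_num)).1 h3
  have hr' : algebraMap A K r = algebraMap K' K a + algebraMap K' K (b₀ / c) * s₁ := by
    have hcK : algebraMap K' K c ≠ 0 := (_root_.map_ne_zero _).2 hc
    rw [hr, hs₁, map_div₀]
    field_simp
  rw [hr', map_add, hD1, Derivation.leibniz, hD1, smul_eq_mul, smul_eq_mul]
  refine (Valuation.map_add _ _ _).trans (max_le (hval _ (hD'2 _ htr))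
    ((Valuation.map_add _ _ _).trans (max_le ?_ ?_)))
  · rw [map_mul]
    exact mul_le_one' (hval _ hb) hDs
  · rw [map_mul, hs₁v, one_mul]
    exact hval _ (hD'2 _ hb)

theorem IsTower.hasDer (h2 : (2 : k) ≠ 0) {K : Type} [Field K] [Algebra k[X] K] {m : ℕ} {s : ℕ → K}
    (h : IsTower k K m s) : HasDer k K := by
  refine IsTower.ind h2 (M := fun K _ _ => HasDer k K) (fun K _ _ hK => hasDer_base hK) ?_ m K s h
  intro K' K _ _ _ _ _ _ D s hq _ htw ih
  obtain ⟨m', s', htw⟩ := htw
  exact hasDer_step h2 hq (htw.fs h2) ih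

end der

end Pool.Agent.Q45.TT
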