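import Pool.Agent.Q45.TT.TStep
import Pool.Agent.Q45.TW.Bas

/-!
# The base case
-/

set_option autoImplicit false
set_option linter.all false

open Polynomial IsDedekindDomain WithZero
open scoped Classical

namespace Pool.Agent.Q45.TT

open Pool.Agent.Q45.TW (cst ff ff_monic ff_natDegree ff_map)
open Pool.Agent.Y160.SE (IsPw)

/-- Elements with even valuations in the field of fractions of a polynomial ring. -/
theorem even_rat {k R L : Type} [Field k] [CommRing R] [IsDedekindDomain R] [Field L] [Algebra R L]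
    [IsFractionRing R L] (e : k[X] ≃+* R) {z : L} (hz : z ≠ 0)
    (hev : ∀ v : HeightOneSpectrum R, IsPw 2 (v.valuation L z)) :
    ∃ (c : k) (w : L), c ≠ 0 ∧ w ≠ 0 ∧ z = algebraMap R L (e (C c)) * w ^ 2 := by
  haveI : IsPrincipalIdealRing R := IsPrincipalIdealRing.of_surjective e.toRingHom e.surjective
  obtain ⟨a, b, hb, rfl⟩ := IsFractionRing.div_surjective (A := R) z
  have hb0 : b ≠ 0 := nonZeroDivisors.ne_zero hb
  have ha0 : a ≠ 0 := by
    rintro rfl
    rw [map_zero, zero_div] at hz
    exact hz rfl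
  have hbL : algebraMap R L b ≠ 0 := fun h =>
    hb0 (IsFractionRing.injective R L (by rw [h, map_zero]))
  have he : algebraMap R L (a * b) =
      algebraMap R L a / algebraMap R L b * algebraMap R L b ^ 2 := by
    rw [map_mul]
    field_simp
  have hab : a * b ≠ 0 := mul_ne_zero ha0 hb0
  obtain ⟨J, hJ⟩ := TW.ideal_sq hab fun v => by
    have h1 : v.valuation L (algebraMap R L (a * b)) = v.intValuation (a * b) :=
      v.valuation_of_algebraMap _
    rw [← h1, he, map_mul, map_pow]
    exact (hev v).mul (IsPw.self _)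
  obtain ⟨j, hj⟩ := (IsPrincipalIdealRing.principal J).principal
  have hj' : J = Ideal.span {j} := hj
  rw [hj', Ideal.span_singleton_pow, Ideal.span_singleton_eq_span_singleton] at hJ
  obtain ⟨ε, hε⟩ := hJ.symm
  obtain ⟨c, hc, hc1⟩ := Polynomial.isUnit_iff.1 (ε.isUnit.map e.symm)
  have hj0 : j ≠ 0 := by
    rintro rfl
    rw [zero_pow two_ne_zero, zero_mul] at hε
    exact hab hε.symm
  refine ⟨c, algebraMap R L j / algebraMap R L b, hc.ne_zero, div_ne_zero (fun h => hj0
    (IsFractionRing.injective R L (by rw [h, map_zero]))) hbL, ?_⟩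
  have h3 : e (C c) = (ε : R) := by
    rw [hc1]
    exact e.apply_symm_apply _
  rw [h3, div_pow]
  rw [← hε, map_mul, map_pow] at he
  field_simp
  field_simp at he
  linear_combination -he

section base

variable {k : Type} [Field k] {g : k[X]}

/-- The ring of integers of `k(t)(θ)` is a polynomial ring. -/
theorem ring_base (hg : g.Monic) (hg0 : 0 < g.natDegree) {K : Type} [Field K] [Algebra k[X] K]
    (hK : IsFractionRing k[X] K) {L : Type} [Field L] [Algebra k[X] L] [Algebra K L]
    [IsScalarTower k[X] K L] {θ : L} (hθ : aeval θ (ff g K) = 0)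
    (htop : IntermediateField.adjoin K {θ} = ⊤) (R : Type) [CommRing R] [Algebra k[X] R]
    [Algebra R L] [IsScalarTower k[X] R L] [IsIntegralClosure R k[X] L] :
    ∃ e : k[X] ≃+* R, ∀ c : k, e (C c) = algebraMap k[X] R (C c) := by
  obtain ⟨α, e₀, h1, -, h3, h4⟩ := TW.pair (g := g) (cs := []) (A := k[X]) (R := k[X])
    (TW.IsTw.nil _ fun _ => 0) (TW.IsTw.nil _ fun _ => 0)
  set S := AdjoinRoot (ff g k[X]) with hS
  haveI : IsDomain S := e₀.toMulEquiv.isDomain_iff.2 inferInstance
  haveI : IsIntegrallyClosed S := IsIntegrallyClosed.of_equiv e₀.symm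
  have hroot : eval₂ (algebraMap k[X] L) θ (ff g k[X]) = 0 := by
    have h5 : eval₂ (algebraMap k[X] L) θ (ff g k[X]) = aeval θ (ff g K) := by
      rw [aeval_def, ← ff_map (g := g) (algebraMap k[X] K) (fun p => rfl), eval₂_map]
      congr 1
      exact IsScalarTower.algebraMap_eq k[X] K L
    rw [h5, hθ]
  let φ : S →+* L := AdjoinRoot.lift (algebraMap k[X] L) θ hroot
  letI : Algebra S L := φ.toAlgebra
  have hφ : ∀ p : k[X], algebraMap S L (algebraMap k[X] S p) = algebraMap k[X] L p := fun p =>
    AdjoinRoot.lift_of hroot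
  haveI : IsScalarTower k[X] S L := IsScalarTower.of_algebraMap_eq fun p => (hφ p).symm
  haveI : Module.Finite k[X] S := (ff_monic hg hg0).finite_adjoinRoot
  haveI : Algebra.IsIntegral k[X] S := Algebra.IsIntegral.of_finite k[X] S
  have hinjL : Function.Injective (algebraMap k[X] L) := by
    rw [IsScalarTower.algebraMap_eq k[X] K L]
    exact (algebraMap K L).injective.comp (IsFractionRing.injective k[X] K)
  have hinj : Function.Injective (algebraMap S L) := by
    refine TW.inj_of_integral (S := k[X]) (algebraMap S L) ?_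
    have h5 : (algebraMap S L).comp (algebraMap k[X] S) = algebraMap k[X] L := RingHom.ext hφ
    rw [h5]
    exact hinjL
  haveI : IsFractionRing S L := by
    let ψ : FractionRing S →+* L := IsFractionRing.lift hinj
    have hψ : ∀ a, ψ (algebraMap S (FractionRing S) a) = algebraMap S L a := fun a =>
      IsFractionRing.lift_algebraMap hinj a
    have hpol : ∀ p : k[X], algebraMap k[X] L p ∈ ψ.fieldRange := fun p =>
      ⟨algebraMap S _ (algebraMap k[X] S p), by rw [hψ, hφ]⟩
    have hKr : ∀ x : K, algebraMap K L x ∈ ψ.fieldRange := by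
      intro x
      obtain ⟨a, b, -, rfl⟩ := IsFractionRing.div_surjective (A := k[X]) x
      rw [map_div₀, ← IsScalarTower.algebraMap_apply k[X] K L,
        ← IsScalarTower.algebraMap_apply k[X] K L]
      exact div_mem (hpol a) (hpol b)
    let T : IntermediateField K L := ψ.fieldRange.toIntermediateField hKr
    have hT : T = ⊤ := by
      rw [eq_top_iff, ← htop, IntermediateField.adjoin_simple_le_iff]
      exact ⟨algebraMap S _ (AdjoinRoot.root _), by rw [hψ]; exact AdjoinRoot.lift_root hroot⟩
    have hsurj : Function.Surjective ψ := by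
      intro x
      have h6 : x ∈ T := by rw [hT]; trivial
      exact h6
    let e : FractionRing S ≃ₐ[S] L :=
      AlgEquiv.ofBijective ({ ψ with commutes' := fun a => hψ a } : FractionRing S →ₐ[S] L)
        ⟨ψ.injective, hsurj⟩
    exact IsLocalization.isLocalization_of_algEquiv (nonZeroDivisors S) e
  haveI : IsIntegralClosure S k[X] L := IsIntegralClosure.of_isIntegrallyClosed S k[X] L
  refine ⟨e₀.symm.trans (IsIntegralClosure.equiv k[X] S L R).toRingEquiv, fun c => ?_⟩
  have h5 : e₀.symm (C c) = algebraMap k[X] S (C c) := by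
    rw [RingEquiv.symm_apply_eq]
    have h6 : e₀ (algebraMap k[X] S (C c)) = α (C c) := h3 (C c)
    rw [h6]
    have h7 := h1 (C c)
    rw [C_comp] at h7
    exact h7.symm
  show (IsIntegralClosure.equiv k[X] S L R) (e₀.symm (C c)) = _
  rw [h5]
  exact (IsIntegralClosure.equiv k[X] S L R).commutes _

/-- The base case. -/
theorem Triv.base (hg : g.Monic) (hodd : Odd g.natDegree) {K : Type} [Field K] [Algebra k[X] K]
    (hK : IsFractionRing k[X] K) : Triv g K := by
  intro L _ _ _ _ θ hθ htop R _ _ _ _ _ _ _ z hz hev hno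
  have hg0 := hodd.pos
  have hirr : Irreducible (ff g K) := irr_base hg hg0 hK
  haveI : FiniteDimensional K L := TW.fin_of (ff_monic hg hg0) hθ htop
  obtain ⟨e, he1⟩ := ring_base hg hg0 hK hθ htop R
  obtain ⟨c, w, hc, hw, rfl⟩ := even_rat e hz hev
  obtain ⟨u, hu⟩ := hno
  have h1 : algebraMap R L (e (C c)) = algebraMap K L (algebraMap k[X] K (C c)) := by
    rw [he1, ← IsScalarTower.algebraMap_apply k[X] R L, ← IsScalarTower.algebraMap_apply k[X] K L]
  have hcK : algebraMap k[X] K (C c) ≠ 0 := by
    intro h0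
    rw [h0, map_zero] at h1
    rw [h1, zero_mul] at hz
    exact hz rfl
  have h3 : Module.finrank K L = g.natDegree := by
    rw [TW.finrank_of hirr (ff_monic hg hg0) hθ htop, ff_natDegree hg hg0]
  rw [h1, map_mul, Algebra.norm_algebraMap, h3, map_pow] at hu
  obtain ⟨m, hm⟩ := hodd
  set κ := algebraMap k[X] K (C c) with hκ
  have hNw : Algebra.norm K w ≠ 0 := (Algebra.norm_ne_zero_iff).2 hw
  have h4 : κ = (u / (Algebra.norm K w * κ ^ m)) ^ 2 := by
    rw [div_pow, ← hu, hm]
    field_simp
    ring
  refine ⟨algebraMap K L (u / (Algebra.norm K w * κ ^ m)) * w, ?_⟩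
  rw [h1, mul_pow, ← map_pow, ← h4]

/-- **Elements with even valuations and a square norm are squares.** -/
theorem IsTower.triv (h2 : (2 : k) ≠ 0) (hg : g.Monic) (hodd : Odd g.natDegree)
    (hd : derivative g ≠ 0) {K : Type} [Field K] [Algebra k[X] K] {m : ℕ} {s : ℕ → K}
    (h : IsTower k K m s) (hram : RamK g K) : Triv g K := by
  refine IsTower.ind h2 (M := fun K _ _ => RamK g K → Triv g K)
    (fun K _ _ hK _ => Triv.base hg hodd hK) ?_ m K s h hram
  intro K' K _ _ _ _ _ _ D s hq _ htw ih hram
  obtain ⟨m', s', htw⟩ := htw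
  have hfs' : FS k K' := htw.fs h2
  exact Triv.step h2 hg hodd hd hq htw hram (ih (hram.down hfs' (hfs'.trans hq.fin hq.separable)))

end base

end Pool.Agent.Q45.TT
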