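import Pool.Agent.Q45.TT.Step
import Pool.Agent.Q45.TW.Nm

/-!
# Elements with even valuations whose norm is a square
-/

set_option autoImplicit false
set_option linter.all false

open Polynomial IsDedekindDomain WithZero
open scoped Classical

namespace Pool.Agent.Q45.TT

open Pool.Agent.Q45.TW (cst ff ff_monic ff_natDegree ff_map)
open Pool.Agent.Y160.SE (IsPw)

/-- Elements of `K(θ)`, `g(θ) + t = 0`, with even valuations and with a square norm are squares. -/
def Triv {k : Type} [Field k] (g : k[X]) (K : Type) [Field K] [Algebra k[X] K] : Prop :=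
  ∀ (L : Type) [Field L] [Algebra k[X] L] [Algebra K L] [IsScalarTower k[X] K L] (θ : L),
    aeval θ (ff g K) = 0 → IntermediateField.adjoin K {θ} = ⊤ →
    ∀ (R : Type) [CommRing R] [IsDedekindDomain R] [Algebra k[X] R] [Algebra R L]
      [IsScalarTower k[X] R L] [IsFractionRing R L] [IsIntegralClosure R k[X] L] (z : L),
      z ≠ 0 → (∀ w : HeightOneSpectrum R, IsPw 2 (w.valuation L z)) →
      (∃ u : K, Algebra.norm K z = u ^ 2) → ∃ c : L, z = c ^ 2

/-- The ramification condition for the ring of integers. -/
def RamK {k : Type} [Field k] (g : k[X]) (K : Type) [Field K] [Algebra k[X] K] : Prop :=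
  ∀ (A : Type) [CommRing A] [Algebra k[X] A] [Algebra A K] [IsScalarTower k[X] A K]
    [IsIntegralClosure A k[X] K], Ram g A

section rama

variable {k : Type} [Field k]

theorem RamK.down {g : k[X]} {K' K : Type} [Field K'] [Field K] [Algebra k[X] K']
    [Algebra k[X] K] [Algebra K' K] [IsScalarTower k[X] K' K] (h : RamK g K) (hfs' : FS k K')
    (hfs : FS k K) : RamK g K' := by
  intro A' _ _ _ _ _
  obtain ⟨A, a1, a2, a3, a4, a5⟩ := exists_ic (k := k) K
  obtain ⟨φ, hφ1, hφ2⟩ := exists_alg (k := k) (K' := K') (K := K) A' A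
  letI : Algebra A' A := φ.toAlgebra
  haveI : IsScalarTower k[X] A' A := IsScalarTower.of_algebraMap_eq fun p => (hφ2 p).symm
  haveI := hfs.ded A
  haveI := hfs.finite A
  haveI := hfs'.ded A'
  haveI := hfs'.frac A'
  haveI : Module.Finite A' A := Module.Finite.of_restrictScalars_finite k[X] A' A
  haveI : Algebra.IsIntegral A' A := Algebra.IsIntegral.of_finite A' A
  haveI : Module.IsTorsionFree A' A := by
    rw [Module.isTorsionFree_iff_algebraMap_injective]
    exact tf_of (K' := K') (K := K) (IsFractionRing.injective A' K') hφ1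
  exact (h A).down

/-- The condition does not depend on the choice of the ring of integers. -/
theorem RamK.of {g : k[X]} {K : Type} [Field K] [Algebra k[X] K] (hfs : FS k K) {A : Type}
    [CommRing A] [Algebra k[X] A] [Algebra A K] [IsScalarTower k[X] A K] [IsIntegralClosure A k[X] K]
    (h : Ram g A) : RamK g K := by
  intro A' _ _ _ _ _
  obtain ⟨φ, hφ1, hφ2⟩ := exists_alg (k := k) (K' := K) (K := K) A' A
  letI : Algebra A' A := φ.toAlgebra
  haveI : IsScalarTower k[X] A' A := IsScalarTower.of_algebraMap_eq fun p => (hφ2 p).symm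
  haveI := hfs.ded A
  haveI := hfs.finite A
  haveI := hfs.ded A'
  haveI := hfs.frac A'
  haveI : Module.Finite A' A := Module.Finite.of_restrictScalars_finite k[X] A' A
  haveI : Algebra.IsIntegral A' A := Algebra.IsIntegral.of_finite A' A
  haveI : Module.IsTorsionFree A' A := by
    rw [Module.isTorsionFree_iff_algebraMap_injective]
    exact tf_of (K' := K) (K := K) (IsFractionRing.injective A' K) hφ1
  exact h.down

end rama

section step

variable {k : Type} [Field k] {g : k[X]}

/-- The even valuations of the element of the smaller field. -/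
theorem even_all (h2 : (2 : k) ≠ 0) (hg : g.Monic) (hodd : Odd g.natDegree)
    {K' K L' L : Type} [Field K'] [Field K] [Field L'] [Field L]
    [Algebra k[X] K'] [Algebra k[X] K] [Algebra k[X] L'] [Algebra k[X] L]
    [Algebra K' K] [Algebra K' L'] [Algebra K L] [Algebra L' L] [Algebra K' L]
    [IsScalarTower K' K L] [IsScalarTower K' L' L] [IsScalarTower k[X] K' K]
    [IsScalarTower k[X] K' L'] [IsScalarTower k[X] L' L] [IsScalarTower k[X] K L]
    {D : K'} {s : K} (hq : IsQuad D s) {θ' : L'} (hθ' : aeval θ' (ff g K') = 0)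
    (htop' : IntermediateField.adjoin K' {θ'} = ⊤)
    (htop : IntermediateField.adjoin K {algebraMap L' L θ'} = ⊤)
    (hirr' : Irreducible (ff g K')) (hirr : Irreducible (ff g K)) {m' : ℕ} {s' : ℕ → K'}
    (htw : IsTower k K' m' s') (hfsL' : FS k L') (hfsL : FS k L) (hram : RamK g K)
    {R' R : Type} [CommRing R'] [CommRing R] [IsDedekindDomain R'] [IsDedekindDomain R]
    [Algebra k[X] R'] [Algebra k[X] R] [Algebra R' L'] [Algebra R L] [IsScalarTower k[X] R' L']
    [IsScalarTower k[X] R L] [IsIntegralClosure R' k[X] L'] [IsIntegralClosure R k[X] L]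
    [IsFractionRing R' L'] [IsFractionRing R L]
    {x : L'} (hx0 : x ≠ 0) {y : K'} (hy : Algebra.norm K' x = y ^ 2)
    (hev : ∀ w : HeightOneSpectrum R, IsPw 2 (w.valuation L (algebraMap L' L x)))
    (q : HeightOneSpectrum R') : IsPw 2 (q.valuation L' x) := by
  have hqL : IsQuad (algebraMap K' L' D) (algebraMap K L s) := by
    refine quad_up hq htop' htop (ff_monic hg hodd.pos) ?_ hirr' ?_ hθ'
    · rw [ff_natDegree hg hodd.pos]
      exact hodd.pos
    · rwa [ff_alg]
  -- the rings
  obtain ⟨φR, hφR1, hφR2⟩ := exists_alg (k := k) (K' := L') (K := L) R' R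
  letI : Algebra R' R := φR.toAlgebra
  haveI : IsScalarTower k[X] R' R := IsScalarTower.of_algebraMap_eq fun p => (hφR2 p).symm
  haveI := hfsL.finite R
  haveI := hfsL'.finite R'
  haveI : Module.Finite R' R := Module.Finite.of_restrictScalars_finite k[X] R' R
  haveI : Algebra.IsIntegral R' R := Algebra.IsIntegral.of_finite R' R
  haveI : Module.IsTorsionFree R' R := by
    rw [Module.isTorsionFree_iff_algebraMap_injective]
    exact tf_of (K' := L') (K := L) (IsFractionRing.injective R' L') hφR1
  letI : Algebra R' L := ((algebraMap L' L).comp (algebraMap R' L')).toAlgebra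
  haveI : IsScalarTower R' L' L := IsScalarTower.of_algebraMap_eq fun _ => rfl
  haveI : IsScalarTower R' R L := IsScalarTower.of_algebraMap_eq fun a => (hφR1 a).symm
  by_cases hD : IsPw 2 (q.valuation L' (algebraMap K' L' D))
  · refine even_down (B := R) hqL ?_ q hD hev
    have h3 : (2 : R') = algebraMap k[X] R' (C 2) := by
      rw [show (C 2 : k[X]) = 2 by rw [map_ofNat], map_ofNat]
    rw [h3]
    exact (isUnit_C.2 (IsUnit.mk0 _ h2)).map _
  · -- the rings of integers of `K'` and `K`
    have hfs' : FS k K' := htw.fs h2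
    have hfs : FS k K := hfs'.trans hq.fin hq.separable
    obtain ⟨A', a1, a2, a3, a4, a5⟩ := exists_ic (k := k) K'
    obtain ⟨A, b1, b2, b3, b4, b5⟩ := exists_ic (k := k) K
    obtain ⟨φ, hφ1, hφ2⟩ := exists_alg (k := k) (K' := K') (K := K) A' A
    obtain ⟨ψ, hψ1, hψ2⟩ := exists_alg (k := k) (K' := K') (K := L') A' R'
    letI : Algebra A' A := φ.toAlgebra
    letI : Algebra A' R' := ψ.toAlgebra
    haveI : IsScalarTower k[X] A' A := IsScalarTower.of_algebraMap_eq fun p => (hφ2 p).symm
    haveI : IsScalarTower k[X] A' R' := IsScalarTower.of_algebraMap_eq fun p => (hψ2 p).symm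
    haveI := hfs.ded A
    haveI := hfs.frac A
    haveI := hfs.finite A
    haveI := hfs'.ded A'
    haveI := hfs'.frac A'
    haveI := hfs'.finite A'
    haveI : Module.Finite A' A := Module.Finite.of_restrictScalars_finite k[X] A' A
    haveI : Module.Finite A' R' := Module.Finite.of_restrictScalars_finite k[X] A' R'
    haveI : Algebra.IsIntegral A' A := Algebra.IsIntegral.of_finite A' A
    haveI : Algebra.IsIntegral A' R' := Algebra.IsIntegral.of_finite A' R'
    haveI : Algebra.IsIntegral k[X] A' := Algebra.IsIntegral.of_finite k[X] A'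
    haveI : Module.IsTorsionFree A' A := by
      rw [Module.isTorsionFree_iff_algebraMap_injective]
      exact tf_of (K' := K') (K := K) (IsFractionRing.injective A' K') hφ1
    haveI : Module.IsTorsionFree A' R' := by
      rw [Module.isTorsionFree_iff_algebraMap_injective]
      exact tf_of (K' := K') (K := L') (IsFractionRing.injective A' K') hψ1
    haveI : Module.IsTorsionFree k[X] R' := by
      rw [Module.isTorsionFree_iff_algebraMap_injective]
      exact hfsL'.injB R'
    letI : Algebra A' K := ((algebraMap K' K).comp (algebraMap A' K')).toAlgebra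
    haveI : IsScalarTower A' K' K := IsScalarTower.of_algebraMap_eq fun _ => rfl
    haveI : IsScalarTower A' A K := IsScalarTower.of_algebraMap_eq fun a => (hφ1 a).symm
    letI : Algebra A' L' := ((algebraMap K' L').comp (algebraMap A' K')).toAlgebra
    haveI : IsScalarTower A' K' L' := IsScalarTower.of_algebraMap_eq fun _ => rfl
    haveI : IsScalarTower A' R' L' := IsScalarTower.of_algebraMap_eq fun a => (hψ1 a).symm
    set p := q.under A' with hp
    have hDp : ¬ IsPw 2 (p.valuation K' D) := by
      rintro ⟨δ, hδ⟩
      apply hD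
      rw [val_under (A := A'), ← hp, hδ]
      exact ⟨δ ^ p.asIdeal.ramificationIdx' q.asIdeal, by rw [← pow_mul, ← pow_mul, mul_comm]⟩
    obtain ⟨V, hV⟩ := exists_above (B := A) p
    have h1 : p.asIdeal.map (algebraMap A' A) ≤ V.asIdeal ^ 2 := by
      rw [← hV] at hDp ⊢
      exact ram_of_odd (K := K') (L := K) hq V hDp
    obtain ⟨b, -, hb, hbp⟩ := exists_irr (hfs'.injB A') p
    have hbV : algebraMap k[X] A b ∈ V.asIdeal ^ 2 := by
      rw [IsScalarTower.algebraMap_apply k[X] A' A]
      exact h1 (Ideal.mem_map_of_mem _ hbp)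
    obtain ⟨hbi, -⟩ := hram A V b hb hbV
    -- the root
    have hroot : algebraMap k[X] L' X = -(eval₂ ((algebraMap K' L').comp (cst k K')) θ' g) := by
      have h3 := hθ'
      rw [aeval_def, TW.eval₂_ff, ← IsScalarTower.algebraMap_apply k[X] K' L'] at h3
      linear_combination h3
    have hcc : (algebraMap K' L').comp (cst k K') = (algebraMap R' L').comp (cst k R') := by
      refine RingHom.ext fun x => ?_
      show algebraMap K' L' (algebraMap k[X] K' (C x)) = algebraMap R' L' (algebraMap k[X] R' (C x))
      rw [← IsScalarTower.algebraMap_apply, ← IsScalarTower.algebraMap_apply]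
    obtain ⟨θR, hθR⟩ : ∃ θR : R', algebraMap R' L' θR = θ' := by
      apply (IsIntegralClosure.isIntegral_iff (A := R') (R := k[X])).1
      refine ⟨g.map C + C X, ?_, ?_⟩
      · refine (hg.map C).add_of_left ?_
        refine lt_of_le_of_lt degree_C_le ?_
        rw [degree_map_eq_of_injective C_injective]
        exact natDegree_pos_iff_degree_pos.1 hodd.pos
      · rw [eval₂_add, eval₂_map, eval₂_C, hroot]
        have h3 : (algebraMap k[X] L').comp C = (algebraMap K' L').comp (cst k K') := by
          refine RingHom.ext fun x => ?_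
          show algebraMap k[X] L' (C x) = algebraMap K' L' (algebraMap k[X] K' (C x))
          rw [← IsScalarTower.algebraMap_apply]
        rw [h3, add_neg_cancel]
    have hθR2 : eval₂ (cst k R') θR g = -algebraMap k[X] R' X := by
      apply IsFractionRing.injective R' L'
      rw [hom_eval₂, hθR, ← hcc, map_neg, ← IsScalarTower.algebraMap_apply k[X] R' L', hroot,
        neg_neg]
    have hfr : Module.finrank K' L' = g.natDegree := by
      rw [TW.finrank_of hirr' (ff_monic hg hodd.pos) hθ' htop', ff_natDegree hg hodd.pos]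
    have hn : Module.finrank A' R' = g.natDegree := by
      rw [← IsFractionRing.finrank_eq A' K' R' L', hfr]
    obtain ⟨j, hj⟩ := htw.pow h2 A' p
    have hmap := inert_q q hb (show algebraMap k[X] R' b ∈ q.asIdeal by
      rw [IsScalarTower.algebraMap_apply k[X] A' R']
      exact hbp) θR hθR2 hbi hodd hn hj
    haveI : FiniteDimensional K' L' := TW.fin_of (ff_monic hg hodd.pos) hθ' htop'
    exact even_inert p q hmap (by rw [hfr]; exact hodd) hx0 hy

end step

end Pool.Agent.Q45.TT
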