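import Pool.Agent.Q45.TT.MIrr

/-!
# The Mordell-Weil group over the quadratic extension by `√(t + c)`
-/

set_option autoImplicit false
set_option linter.all false

open Polynomial IsDedekindDomain WithZero
open scoped Classical

namespace Pool.Agent.Q45.TT

open Pool.Agent.Q45.TW (cst ff ff_monic ff_natDegree ff_map)
open Pool.Agent.Y160.SE (IsPw)
open Pool.Agent.Q45.GP (Regular TateOver)
open Pool.Agent.Y160.SQ
open Pool.Agent.TH115.GD (Sep)
open Pool.Agent.Y160.RK (ptCl spanD mem_spanD gen_iter rank_lin sum_pts)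

/-- `Q` lists the monic irreducible factors of `g - c`, without the factor `G0`. -/
structure IsFacs {k : Type} [Field k] (g : k[X]) (c : k) {n : ℕ} (Q : Fin n → k[X]) (G0 : k[X]) :
    Prop where
  mem : ∀ i, (Q i).Monic ∧ Irreducible (Q i) ∧ Q i ∣ g - C c ∧ Q i ≠ G0
  inj : Function.Injective Q
  base : G0.Monic ∧ Irreducible G0 ∧ G0 ∣ g - C c
  all : ∀ G : k[X], G.Monic → Irreducible G → G ∣ g - C c → G ≠ G0 → ∃ i, Q i = G

section gen

variable {k : Type} [Field k] {g : k[X]} {K : Type} [Field K] [Algebra k[X] K] {c : k} {s : K}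

theorem ff_sub' (hs2 : s ^ 2 = algebraMap k[X] K (X + C c)) :
    ff g K - C s ^ 2 = (g - C c).map (cst k K) := by
  rw [← C_pow, hs2, map_add, C_add, ff, Polynomial.map_sub, map_C]
  show g.map (cst k K) + C (algebraMap k[X] K X) - (C (algebraMap k[X] K X) +
    C (algebraMap k[X] K (C c))) = g.map (cst k K) - C (algebraMap k[X] K (C c))
  ring

/-- The sum of the classes over the factors of `g - c`. -/
theorem sum_fac' (hg : g.Monic) (hg0 : 0 < g.natDegree) (hs : (g - C c).Separable)
    (hs2 : s ^ 2 = algebraMap k[X] K (X + C c))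
    (hirr : ∀ G ∈ facs (g - C c), Irreducible (G.map (cst k K)))
    (hgd : Good 2 (-1) (ff g K)) :
    ∑ G ∈ facs (g - C c), ptCl 2 (ff g K) (G.map (cst k K), C s) = 0 := by
  set S := facs (g - C c) with hS
  have hprod : ∏ G ∈ S, G = g - C c := prod_facs (sub_monic hg hg0 c) hs
  let e : Fin S.card ≃ S := (S.equivFin).symm
  have h := sum_pts hyps hgd (fun j : Fin S.card => ((e j : k[X])).map (cst k K)) (C s)
    (fun j => ⟨hirr _ (e j).2, ((mem_facs hs.ne_zero).1 (e j).2).2.1.map _⟩)
    (fun i j hij => by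
      have h1 := Polynomial.map_injective _ (cst k K).injective hij
      exact e.injective (Subtype.ext h1))
    (by
      rw [ff_sub' hs2, ← hprod, Polynomial.map_prod]
      rw [← Finset.prod_coe_sort S]
      exact Equiv.prod_comp e (fun G : S => (G : k[X]).map (cst k K)))
    (by
      rw [ff_sub' hs2]
      exact (Polynomial.map_ne_zero_iff (cst k K).injective).2 hs.ne_zero)
  rw [← Finset.sum_coe_sort S]
  rw [← h]
  exact (Equiv.sum_comp e (fun G : S => ptCl 2 (ff g K) ((G : k[X]).map (cst k K), C s))).symm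

theorem gen_list' (hg : g.Monic) (hg0 : 0 < g.natDegree) (hs : (g - C c).Separable)
    (hs2 : s ^ 2 = algebraMap k[X] K (X + C c))
    (hirr : ∀ G ∈ facs (g - C c), Irreducible (G.map (cst k K)))
    (hgd : Good 2 (-1) (ff g K)) {n : ℕ} {Q : Fin n → k[X]} {G0 : k[X]} (hQ : IsFacs g c Q G0) :
    ∀ P ∈ MPts g c s, ptCl 2 (ff g K) P ∈ AddSubgroup.closure
      (Set.range fun i => ptCl 2 (ff g K) ((Q i).map (cst k K), C s)) := by
  have key : ∀ G ∈ facs (g - C c), G ≠ G0 →
      ptCl 2 (ff g K) (G.map (cst k K), C s) ∈ AddSubgroup.closure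
      (Set.range fun i => ptCl 2 (ff g K) ((Q i).map (cst k K), C s)) := by
    intro G hG hne
    obtain ⟨hi, hm, hd⟩ := (mem_facs hs.ne_zero).1 hG
    obtain ⟨i, hi'⟩ := hQ.all G hm hi hd hne
    rw [← hi']
    exact AddSubgroup.subset_closure ⟨i, rfl⟩
  rintro _ ⟨G, hG, rfl⟩
  by_cases h : G = G0
  · subst h
    have h1 := sum_fac' hg hg0 hs hs2 hirr hgd
    rw [← Finset.add_sum_erase _ _ hG] at h1
    rw [eq_neg_of_add_eq_zero_left h1]
    refine AddSubgroup.neg_mem _ (AddSubgroup.sum_mem _ fun G' hG' => ?_)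
    obtain ⟨h5, h6⟩ := Finset.mem_erase.1 hG'
    exact key G' h6 h5
  · exact key G hG h

end gen

section bas

variable {k : Type} [Field k] {g : k[X]}

/-- The squares in the field of the curve. -/
theorem mark_ind (h2 : (2 : k) ≠ 0) (hg : g.Monic) (hodd : Odd g.natDegree)
    (hd : derivative g ≠ 0) {K' K : Type} [Field K'] [Field K] [Algebra k[X] K'] [Algebra k[X] K]
    [Algebra K' K] [IsScalarTower k[X] K' K] {c : k} {s : K}
    (hq : IsQuad (algebraMap k[X] K' (X + C c)) s) {m' : ℕ} {s' : ℕ → K'}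
    (htw : IsTower k K' m' s') (hs : (g - C c).Separable)
    {A' : Type} [CommRing A'] [Algebra k[X] A'] [Algebra A' K'] [IsScalarTower k[X] A' K']
    [IsIntegralClosure A' k[X] K'] (hc : Prime (algebraMap k[X] A' (X + C c)))
    (hres : ResIrr g c A') {n : ℕ} {Q : Fin n → k[X]} {G0 : k[X]} (hQ : IsFacs g c Q G0)
    {L : Type} [Field L] [Algebra k[X] L] [Algebra K L] [IsScalarTower k[X] K L] {θ : L}
    (hθ : aeval θ (ff g K) = 0) (htop : IntermediateField.adjoin K {θ} = ⊤)
    (e : Fin n → ℕ) (w : L) (hw0 : w ≠ 0)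
    (hw : (∏ j, aeval θ ((Q j).map (cst k K)) ^ e j) ^ g.natDegree = w ^ 2 ∨
      (∏ j, aeval θ ((Q j).map (cst k K)) ^ e j) ^ g.natDegree = -w ^ 2) (j : Fin n) : 2 ∣ e j := by
  have hirr' : Irreducible (ff g K') := htw.irr h2 hg hodd
  haveI := hq.fin
  have hirr : Irreducible (ff g K) := by
    rw [← ff_alg (K' := K') (K := K)]
    exact irr_quad hq.finrank (ff_monic hg hodd.pos) (by rwa [ff_natDegree hg hodd.pos]) hirr'
  have hsep' : (ff g K').Separable := sep_ff hirr' hd
  have hm' : (ff g K').Monic := ff_monic hg hodd.pos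
  letI : Algebra K' L := ((algebraMap K L).comp (algebraMap K' K)).toAlgebra
  haveI : IsScalarTower K' K L := IsScalarTower.of_algebraMap_eq fun _ => rfl
  haveI : IsScalarTower k[X] K' L := IsScalarTower.of_algebraMap_eq fun p => by
    show algebraMap k[X] L p = algebraMap K L (algebraMap K' K (algebraMap k[X] K' p))
    rw [← IsScalarTower.algebraMap_apply k[X] K' K, ← IsScalarTower.algebraMap_apply k[X] K L]
  obtain ⟨L', l1, l2, l3, l4, θ', l5, l6, l7, rfl, htop'⟩ := exists_sub (k := k) (K' := K') θ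
  have hθ' : aeval θ' (ff g K') = 0 := by
    apply (algebraMap L' L).injective
    rw [← aeval_algebraMap_apply, ← aeval_map_algebraMap K, ff_alg, hθ, map_zero]
  have hfs' : FS k K' := htw.fs h2
  haveI : FiniteDimensional K' L' := TW.fin_of hm' hθ' htop'
  have hfsL' : FS k L' := hfs'.trans (TW.fin_of hm' hθ' htop') (TW.sep_of hsep' hθ' htop')
  have hqL : IsQuad (algebraMap K' L' (algebraMap k[X] K' (X + C c))) (algebraMap K L s) := by
    refine quad_up hq htop' htop hm' ?_ hirr' ?_ hθ'
    · rw [ff_natDegree hg hodd.pos]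
      exact hodd.pos
    · rwa [ff_alg]
  obtain ⟨R', r1, r2, r3, r4, r5⟩ := exists_ic (k := k) L'
  haveI := hfsL'.ded R'
  haveI := hfsL'.frac R'
  haveI := hfsL'.finite R'
  haveI := hfs'.ded A'
  haveI := hfs'.frac A'
  haveI := hfs'.finite A'
  obtain ⟨ψ, hψ1, hψ2⟩ := exists_alg (k := k) (K' := K') (K := L') A' R'
  letI : Algebra A' R' := ψ.toAlgebra
  haveI : IsScalarTower k[X] A' R' := IsScalarTower.of_algebraMap_eq fun p => (hψ2 p).symm
  haveI : Module.Finite A' R' := Module.Finite.of_restrictScalars_finite k[X] A' R'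
  haveI : Module.IsTorsionFree A' R' := by
    rw [Module.isTorsionFree_iff_algebraMap_injective]
    exact tf_of (K' := K') (K := L') (IsFractionRing.injective A' K') hψ1
  have hroot : algebraMap k[X] L' X = -(eval₂ ((algebraMap K' L').comp (cst k K')) θ' g) := by
    have h3 := hθ'
    rw [aeval_def, TW.eval₂_ff, ← IsScalarTower.algebraMap_apply k[X] K' L'] at h3
    linear_combination h3
  have hcc : (algebraMap K' L').comp (cst k K') = (algebraMap R' L').comp (cst k R') := by
    refine RingHom.ext fun x => ?_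
    show algebraMap K' L' (algebraMap k[X] K' (C x)) = algebraMap R' L' (algebraMap k[X] R' (C x))
    rw [← IsScalarTower.algebraMap_apply, ← IsScalarTower.algebraMap_apply]
  obtain ⟨θR, rfl⟩ : ∃ θR : R', algebraMap R' L' θR = θ' := by
    apply (IsIntegralClosure.isIntegral_iff (A := R') (R := k[X])).1
    refine ⟨g.map C + C X, ?_, ?_⟩
    · refine (hg.map C).add_of_left ?_
      refine lt_of_le_of_lt degree_C_le ?_
      rw [degree_map_eq_of_injective C_injective]
      exact natDegree_pos_iff_degree_pos.1 hodd.pos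
    · rw [eval₂_add, eval₂_map, eval₂_C, hroot]
      have h3 : (algebraMap k[X] L').comp C = (algebraMap K' L').comp (cst k K') := by
        refine RingHom.ext fun x => ?_
        show algebraMap k[X] L' (C x) = algebraMap K' L' (algebraMap k[X] K' (C x))
        rw [← IsScalarTower.algebraMap_apply]
      rw [h3, add_neg_cancel]
  obtain ⟨q, hq1, hq2, hq3, hq4⟩ := mark_places (A := A') (R := R') (K := K') (L := L') hg hodd.pos
    hirr' hsep' hθ' htop' (fun a => hψ1 a ▸ rfl) hs hc hres
  set γ : k[X] → L' := fun G => algebraMap R' L' (eval₂ (cst k R') θR G) with hγ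
  have hγL : ∀ G : k[X], aeval (algebraMap L' L (algebraMap R' L' θR)) (G.map (cst k K)) =
      algebraMap L' L (γ G) := by
    intro G
    have h6 : G.map (cst k K) = (G.map (cst k K')).map (algebraMap K' K) := by
      rw [Polynomial.map_map]
      congr 1
      refine RingHom.ext fun x => ?_
      exact IsScalarTower.algebraMap_apply k[X] K' K (C x)
    rw [h6, aeval_map_algebraMap, aeval_algebraMap_apply, hγ]
    show _ = algebraMap L' L (algebraMap R' L' (eval₂ (cst k R') θR G))
    rw [hom_eval₂ _ _ (algebraMap R' L'), ← hcc, aeval_def, eval₂_map]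
  have hmem : ∀ i, Q i ∈ facs (g - C c) := fun i =>
    (mem_facs hs.ne_zero).2 ⟨(hQ.mem i).2.1, (hQ.mem i).1, (hQ.mem i).2.2.1⟩
  have hG0 : G0 ∈ facs (g - C c) := (mem_facs hs.ne_zero).2 ⟨hQ.base.2.1, hQ.base.1, hQ.base.2.2⟩
  set Y : L' := (∏ i, γ (Q i) ^ e i) ^ g.natDegree with hY
  have hYL : (∏ j, aeval (algebraMap L' L (algebraMap R' L' θR)) ((Q j).map (cst k K)) ^ e j) ^
      g.natDegree = algebraMap L' L Y := by
    rw [hY, map_pow, map_prod]
    congr 1
    refine Finset.prod_congr rfl fun i _ => ?_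
    rw [hγL, map_pow]
  rw [hYL] at hw
  have hval : ∀ (G : k[X]), G ∈ facs (g - C c) → (q G).valuation L' Y =
      (∏ i, (if Q i = G then exp (-1 : ℤ) else 1) ^ e i) ^ g.natDegree := by
    intro G hG
    rw [hY, map_pow, map_prod]
    congr 1
    refine Finset.prod_congr rfl fun i _ => ?_
    rw [map_pow]
    congr 1
    exact hq1 G hG (Q i) (hmem i)
  have hval0 : (q G0).valuation L' Y = 1 := by
    rw [hval G0 hG0, Finset.prod_eq_one, one_pow]
    intro i _
    rw [if_neg (hQ.mem i).2.2.2, one_pow]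
  have hvalj : (q (Q j)).valuation L' Y = exp (-1 : ℤ) ^ (g.natDegree * e j) := by
    rw [hval (Q j) (hmem j), Finset.prod_eq_single j, if_pos rfl, ← pow_mul, mul_comm]
    · intro i _ hne
      rw [if_neg (fun h => hne (hQ.inj h)), one_pow]
    · intro h
      exact absurd (Finset.mem_univ j) h
  -- the two cases
  obtain ⟨Z, κ, hZ, hZv⟩ : ∃ (Z : L') (κ : L), κ ^ 2 = algebraMap L' L Z ∧
      ∀ v : HeightOneSpectrum R', v.valuation L' Z = v.valuation L' Y := by
    rcases hw with h | h
    · exact ⟨Y, w, h.symm, fun v => rfl⟩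
    · exact ⟨-Y, w, by rw [map_neg, h, neg_neg], fun v => Valuation.map_neg _ _⟩
  obtain ⟨d, hd' | hd'⟩ := hqL.sq_base hZ
  · have h1 := congrArg ((q (Q j)).valuation L') hd'
    rw [hZv, hvalj, map_pow] at h1
    have h3 : IsPw 2 (exp (-1 : ℤ) ^ (g.natDegree * e j)) := by
      rw [h1]
      exact IsPw.self _
    have h4 := even_exp h3
    have h5 : Even (e j) := by
      rcases Nat.even_mul.1 h4 with h6 | h6
      · exact absurd h6 (Nat.not_even_iff_odd.2 hodd)
      · exact h6
    exact h5.two_dvd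
  · exfalso
    have h1 := congrArg ((q G0).valuation L') hd'
    rw [hZv, hval0, map_mul, map_pow, ← IsScalarTower.algebraMap_apply k[X] K' L', hq2 G0 hG0] at h1
    have hd0 : (q G0).valuation L' d ≠ 0 := by
      intro h0
      rw [h0, zero_pow two_ne_zero, zero_mul] at h1
      exact one_ne_zero h1
    have h3 : IsPw 2 (exp (-1 : ℤ) ^ 1) := by
      refine ⟨((q G0).valuation L' d)⁻¹, ?_⟩
      rw [inv_pow, pow_one]
      field_simp
      rw [mul_comm]
      exact h1.symm
    have h4 := even_exp h3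
    exact absurd h4 (by decide)

/-- The tower with one more square root. -/
theorem IsTower.snoc {K' K : Type} [Field K'] [Field K] [Algebra k[X] K'] [Algebra k[X] K]
    [Algebra K' K] [IsScalarTower k[X] K' K] {D : K'} {s : K} (hq : IsQuad D s) {m : ℕ}
    {s' : ℕ → K'} (h : IsTower k K' m s') :
    IsTower k K (m + 1) (fun j => if j = m then s else algebraMap K' K (s' j)) := by
  set u : ℕ → K := fun j => if j = m then s else algebraMap K' K (s' j) with hu
  have hul : ∀ j < m, u j = algebraMap K' K (s' j) := fun j hj => if_neg hj.ne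
  have hum : u m = s := if_pos rfl
  have himg : ∀ i ≤ m, algebraMap K' K '' (Set.range (algebraMap k[X] K') ∪ s' '' {j | j < i}) =
      Set.range (algebraMap k[X] K) ∪ u '' {j | j < i} := by
    intro i hi
    rw [Set.image_union]
    congr 1
    · rw [← Set.range_comp]
      congr 1
      funext p
      exact (IsScalarTower.algebraMap_apply k[X] K' K p).symm
    · rw [Set.image_image]
      ext x
      constructor
      · rintro ⟨j, hj, rfl⟩
        exact ⟨j, hj, hul j (lt_of_lt_of_le hj hi)⟩
      · rintro ⟨j, hj, rfl⟩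
        exact ⟨j, hj, (hul j (lt_of_lt_of_le hj hi)).symm⟩
  have hcl : ∀ i ≤ m, ∀ x : K', x ∈ Subfield.closure (Set.range (algebraMap k[X] K') ∪
      s' '' {j | j < i}) → algebraMap K' K x ∈
      Subfield.closure (Set.range (algebraMap k[X] K) ∪ u '' {j | j < i}) := by
    intro i hi x hx
    rw [← himg i hi, ← RingHom.map_field_closure]
    exact Subfield.mem_map.2 ⟨x, hx, rfl⟩
  have hall : ∀ x : K', algebraMap K' K x ∈
      Subfield.closure (Set.range (algebraMap k[X] K) ∪ u '' {j | j < m}) := fun x =>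
    hcl m le_rfl x (by rw [h.gen]; trivial)
  refine ⟨?_, fun i hi => ?_, ?_⟩
  · rw [IsScalarTower.algebraMap_eq k[X] K' K]
    exact (algebraMap K' K).injective.comp h.inj
  · rcases Nat.lt_succ_iff_lt_or_eq.1 hi with h1 | rfl
    · rw [hul i h1, ← map_pow]
      exact hcl i h1.le _ (h.sq i h1)
    · rw [hum, hq.sq]
      exact hall D
  · rw [eq_top_iff]
    rintro x -
    have hle : Subfield.closure (Set.range (algebraMap k[X] K) ∪ u '' {j | j < m}) ≤
        Subfield.closure (Set.range (algebraMap k[X] K) ∪ u '' {j | j < m + 1}) := by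
      refine Subfield.closure_mono (Set.union_subset_union_right _ (Set.image_mono ?_))
      intro j hj
      exact Nat.lt_succ_of_lt hj
    obtain ⟨a, b, rfl⟩ := hq.rep x
    refine add_mem (hle (hall a)) (mul_mem (hle (hall b)) ?_)
    exact Subfield.subset_closure (Or.inr ⟨m, Nat.lt_succ_self m, hum⟩)

end bas

end Pool.Agent.Q45.TT
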