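import Pool.Agent.Q45.TT.Reg

/-!
# Regularity over towers of quadratic extensions
-/

set_option autoImplicit false
set_option linter.all false

open Polynomial IsDedekindDomain WithZero
open scoped Classical

namespace Pool.Agent.Q45.TT

open Pool.Agent.Q45.TW (cst ff ff_monic ff_natDegree ff_map)
open Pool.Agent.Y160.SE (IsPw)
open Pool.Agent.Q45.GP (Regular)

section reg

variable {k : Type} [Field k] {g : k[X]}

/-- The polynomial `g(x) + τ` divides `B(-g(x))` if `B(τ) = 0`. -/
theorem dvd_comp {κ : Type} [Field κ] (σ : k[X] →+* κ) {B : k[X]} (hB : σ B = 0) :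
    g.map (σ.comp C) + C (σ X) ∣ (B.comp (-g)).map (σ.comp C) := by
  set b := B.map (σ.comp C) with hb
  set γ := g.map (σ.comp C) with hγ
  have h1 : (B.comp (-g)).map (σ.comp C) = b.comp (-γ) := by
    rw [map_comp, Polynomial.map_neg]
  have h3 : b.eval (σ X) = 0 := by
    rw [hb, eval_map]
    have h4 : eval₂RingHom (σ.comp C) (σ X) = σ := by
      apply Polynomial.ringHom_ext
      · intro a
        rw [coe_eval₂RingHom, eval₂_C]
        rfl
      · rw [coe_eval₂RingHom, eval₂_X]
    have h5 := congrArg (fun f : k[X] →+* κ => f B) h4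
    simp only [coe_eval₂RingHom] at h5
    rw [h5, hB]
  have h6 := sub_dvd_eval_sub (-γ) (C (σ X)) (b.map C)
  have h7 : (b.map C).eval (-γ) = b.comp (-γ) := by
    rw [eval_map]
    rfl
  have h8 : (b.map C).eval (C (σ X)) = 0 := by
    rw [eval_map, eval₂_at_apply, h3, C_0]
  rw [h7, h8, sub_zero] at h6
  rw [h1]
  have h9 : γ + C (σ X) = -(-γ - C (σ X)) := by ring
  rw [h9, neg_dvd]
  exact h6

variable {F : Type} [Field F] [Algebra k[X] F] {A : Type} [CommRing A] [IsDedekindDomain A]
  [Algebra k[X] A] [Algebra A F] [IsScalarTower k[X] A F] [IsFractionRing A F]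
  [IsIntegralClosure A k[X] F]

/-- **Regularity.** -/
theorem regular_of_der (hder : HasDer k F) (hsep : ∀ (v : HeightOneSpectrum A) (b : k[X]),
      Irreducible b → algebraMap k[X] A b ∈ v.asIdeal ^ 2 →
      ∃ B : k[X], algebraMap k[X] A B ∈ v.asIdeal ∧ (B.comp (-g)).Separable) :
    Regular F (ff g A) := by
  intro v a ha hirr
  by_cases hunr : ∀ b : k[X], Irreducible b → algebraMap k[X] A b ∉ v.asIdeal ^ 2
  · obtain ⟨D, hD1, hD2⟩ := hder A v hunr
    let δ : A → v.adicCompletionIntegers F := fun x =>
      ⟨algebraMap F (v.adicCompletion F) (D (algebraMap A F x)), by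
        change Valued.v ((D (algebraMap A F x) : F) : v.adicCompletion F) ≤ 1
        rw [HeightOneSpectrum.valuedAdicCompletion_eq_valuation']
        exact hD2 _ (v.valuation_le_one x)⟩
    have hval : ∀ x : A, ((algebraMap A (v.adicCompletionIntegers F) x :
        v.adicCompletionIntegers F) : v.adicCompletion F) =
        algebraMap F (v.adicCompletion F) (algebraMap A F x) := fun x => rfl
    have hδ : ∀ x : A, ((δ x : v.adicCompletionIntegers F) : v.adicCompletion F) =
        algebraMap F (v.adicCompletion F) (D (algebraMap A F x)) := fun x => rfl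
    have h0 : δ 0 = 0 := by
      apply Subtype.ext
      rw [hδ, map_zero, map_zero, map_zero]
      rfl
    refine reg_der v (δ := δ) h0 ?_ ?_ _ ?_ a ha hirr
    · intro x y
      apply Subtype.ext
      show ((δ (x + y) : v.adicCompletionIntegers F) : v.adicCompletion F) =
        (δ x : v.adicCompletion F) + (δ y : v.adicCompletion F)
      rw [hδ, hδ, hδ, map_add, map_add, map_add]
    · intro x y
      apply Subtype.ext
      show ((δ (x * y) : v.adicCompletionIntegers F) : v.adicCompletion F) =
        (δ x : v.adicCompletion F) * ((algebraMap A (v.adicCompletionIntegers F) y :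
          v.adicCompletionIntegers F) : v.adicCompletion F) +
          ((algebraMap A (v.adicCompletionIntegers F) x :
            v.adicCompletionIntegers F) : v.adicCompletion F) * (δ y : v.adicCompletion F)
      rw [hδ, hδ, hδ, hval, hval, map_mul, Derivation.leibniz, smul_eq_mul, smul_eq_mul, map_add,
        map_mul, map_mul]
      ring
    · refine Polynomial.ext fun n => ?_
      rw [coeff_dq h0, coeff_one]
      have h1 : ∀ c : k, D (algebraMap A F (cst k A c)) = 0 := by
        intro c
        have h3 : algebraMap A F (cst k A c) = algebraMap k[X] F (C c) :=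
          (IsScalarTower.algebraMap_apply k[X] A F (C c)).symm
        rw [h3, hD1, derivative_C, map_zero]
      have h3 : D (algebraMap A F (algebraMap k[X] A X)) = 1 := by
        rw [← IsScalarTower.algebraMap_apply k[X] A F, hD1, derivative_X, map_one]
      unfold ff
      rw [coeff_add, coeff_map, coeff_C]
      apply Subtype.ext
      rw [hδ]
      split_ifs with hn
      · rw [map_add, map_add, h1, h3, zero_add, map_one]
        rfl
      · rw [add_zero, h1, map_zero]
        rfl
  · push Not at hunr
    obtain ⟨b, hb, hbv⟩ := hunr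
    obtain ⟨B, hBv, hBs⟩ := hsep v b hb hbv
    refine reg_sep v _ ?_ a ha hirr
    set ρ := (IsLocalRing.residue (v.adicCompletionIntegers F)).comp
      (algebraMap A (v.adicCompletionIntegers F)) with hρ
    have hρB : (ρ.comp (algebraMap k[X] A)) B = 0 := by
      show IsLocalRing.residue (v.adicCompletionIntegers F)
        (algebraMap A (v.adicCompletionIntegers F) (algebraMap k[X] A B)) = 0
      rw [IsLocalRing.residue_eq_zero_iff, IsLocalRing.mem_maximalIdeal, mem_nonunits_iff,
        HeightOneSpectrum.adicCompletionIntegers.isUnit_iff_valued_eq_one]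
      change ¬ Valued.v ((algebraMap A F (algebraMap k[X] A B) : F) : v.adicCompletion F) = 1
      rw [HeightOneSpectrum.valuedAdicCompletion_eq_valuation']
      exact ((v.valuation_lt_one_iff_mem _).2 hBv).ne
    have h1 := dvd_comp (g := g) (ρ.comp (algebraMap k[X] A)) hρB
    have h3 : (ff g A).map ρ = g.map ((ρ.comp (algebraMap k[X] A)).comp C) +
        C ((ρ.comp (algebraMap k[X] A)) X) := by
      unfold ff
      rw [Polynomial.map_add, map_C, Polynomial.map_map]
      rfl
    rw [h3]
    exact hBs.map.of_dvd h1

end reg

end Pool.Agent.Q45.TT
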