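import Pool.Agent.Q45.TT.Tow

/-!
# Finite separable extensions of `k(t)` and the rings of integers
-/

set_option autoImplicit false
set_option linter.all false

open Polynomial IsDedekindDomain WithZero
open scoped Classical

namespace Pool.Agent.Q45.TT

open Pool.Agent.Q45.TW (cst ff)
open Pool.Agent.Y160.SE (IsPw)

/-- The field `E` is a finite separable extension of the field of fractions of `k[X]`. -/
def FS (k : Type) [Field k] (E : Type) [Field E] [Algebra k[X] E] : Prop :=
  ∃ (_ : Algebra (FractionRing k[X]) E), IsScalarTower k[X] (FractionRing k[X]) E ∧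
    FiniteDimensional (FractionRing k[X]) E ∧ Algebra.IsSeparable (FractionRing k[X]) E

section fs

variable {k : Type} [Field k]

theorem FS.base {K : Type} [Field K] [Algebra k[X] K] (h : IsFractionRing k[X] K) : FS k K := by
  let e := FractionRing.algEquiv k[X] K
  letI : Algebra (FractionRing k[X]) K := (e : FractionRing k[X] →+* K).toAlgebra
  have hs : Function.Surjective (algebraMap (FractionRing k[X]) K) := e.surjective
  refine ⟨inferInstance, IsScalarTower.of_algebraMap_eq fun p => (e.commutes p).symm, ?_, ?_⟩
  · exact Module.Finite.of_surjective (Algebra.linearMap (FractionRing k[X]) K) hs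
  · refine ⟨fun x => ?_⟩
    obtain ⟨y, rfl⟩ := hs x
    exact isSeparable_algebraMap y

theorem FS.trans {K L : Type} [Field K] [Field L] [Algebra k[X] K] [Algebra k[X] L] [Algebra K L]
    [IsScalarTower k[X] K L] (h : FS k K) (hf : FiniteDimensional K L)
    (hs : Algebra.IsSeparable K L) : FS k L := by
  obtain ⟨i, i1, i2, i3⟩ := h
  letI : Algebra (FractionRing k[X]) L := ((algebraMap K L).comp (algebraMap _ K)).toAlgebra
  haveI : IsScalarTower (FractionRing k[X]) K L := IsScalarTower.of_algebraMap_eq fun _ => rfl
  refine ⟨inferInstance, IsScalarTower.of_algebraMap_eq fun p => ?_, ?_, ?_⟩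
  · show algebraMap k[X] L p = algebraMap K L (algebraMap (FractionRing k[X]) K
      (algebraMap k[X] (FractionRing k[X]) p))
    rw [← IsScalarTower.algebraMap_apply k[X] (FractionRing k[X]) K,
      ← IsScalarTower.algebraMap_apply k[X] K L]
  · exact Module.Finite.trans K L
  · exact Algebra.IsSeparable.trans (FractionRing k[X]) K L

theorem IsTower.fs (h2 : (2 : k) ≠ 0) {K : Type} [Field K] [Algebra k[X] K] {m : ℕ} {s : ℕ → K}
    (h : IsTower k K m s) : FS k K := by
  refine IsTower.ind h2 (M := fun K _ _ => FS k K) (fun K _ _ hK => FS.base hK) ?_ m K s h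
  intro K' K _ _ _ _ _ _ D s hq _ _ ih
  exact ih.trans hq.fin hq.separable

section ring

variable {E B : Type} [Field E] [Algebra k[X] E] [CommRing B] [Algebra k[X] B] [Algebra B E]
  [IsScalarTower k[X] B E] [IsIntegralClosure B k[X] E]

theorem FS.inj (h : FS k E) : Function.Injective (algebraMap k[X] E) := by
  obtain ⟨i, i1, i2, i3⟩ := h
  rw [IsScalarTower.algebraMap_eq k[X] (FractionRing k[X]) E]
  exact (algebraMap (FractionRing k[X]) E).injective.comp (IsFractionRing.injective k[X] _)

theorem FS.finite (h : FS k E) (B : Type) [CommRing B] [Algebra k[X] B] [Algebra B E]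
    [IsScalarTower k[X] B E] [IsIntegralClosure B k[X] E] : Module.Finite k[X] B := by
  obtain ⟨i, i1, i2, i3⟩ := h
  exact IsIntegralClosure.finite k[X] (FractionRing k[X]) E B

theorem FS.frac (h : FS k E) (B : Type) [CommRing B] [Algebra k[X] B] [Algebra B E]
    [IsScalarTower k[X] B E] [IsIntegralClosure B k[X] E] : IsFractionRing B E := by
  obtain ⟨i, i1, i2, i3⟩ := h
  haveI : IsDomain B := (IsIntegralClosure.algebraMap_injective B k[X] E).isDomain (algebraMap B E)
  exact IsIntegralClosure.isFractionRing_of_finite_extension k[X] (FractionRing k[X]) E B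

theorem FS.ded (h : FS k E) (B : Type) [CommRing B] [Algebra k[X] B] [Algebra B E]
    [IsScalarTower k[X] B E] [IsIntegralClosure B k[X] E] : IsDedekindDomain B := by
  obtain ⟨i, i1, i2, i3⟩ := h
  haveI : IsDomain B := (IsIntegralClosure.algebraMap_injective B k[X] E).isDomain (algebraMap B E)
  exact IsIntegralClosure.isDedekindDomain k[X] (FractionRing k[X]) E B

theorem FS.injB (h : FS k E) (B : Type) [CommRing B] [Algebra k[X] B] [Algebra B E]
    [IsScalarTower k[X] B E] : Function.Injective (algebraMap k[X] B) := by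
  intro p q hpq
  apply h.inj
  rw [IsScalarTower.algebraMap_apply k[X] B E, hpq, ← IsScalarTower.algebraMap_apply]

end ring

/-- The rings of integers in an extension. -/
theorem exists_alg {K' K : Type} [Field K'] [Field K] [Algebra k[X] K'] [Algebra k[X] K]
    [Algebra K' K] [IsScalarTower k[X] K' K] (A' A : Type) [CommRing A'] [CommRing A]
    [Algebra k[X] A'] [Algebra k[X] A] [Algebra A' K'] [Algebra A K] [IsScalarTower k[X] A' K']
    [IsScalarTower k[X] A K] [IsIntegralClosure A' k[X] K'] [IsIntegralClosure A k[X] K] :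
    ∃ φ : A' →+* A, (∀ a, algebraMap A K (φ a) = algebraMap K' K (algebraMap A' K' a)) ∧
      ∀ p, φ (algebraMap k[X] A' p) = algebraMap k[X] A p := by
  haveI := IsIntegralClosure.isIntegral_algebra k[X] (A := A') K'
  letI : Algebra A' K := ((algebraMap K' K).comp (algebraMap A' K')).toAlgebra
  haveI : IsScalarTower k[X] A' K := IsScalarTower.of_algebraMap_eq fun p => by
    show algebraMap k[X] K p = algebraMap K' K (algebraMap A' K' (algebraMap k[X] A' p))
    rw [← IsScalarTower.algebraMap_apply k[X] A' K', ← IsScalarTower.algebraMap_apply k[X] K' K]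
  refine ⟨(IsIntegralClosure.lift k[X] A K (S := A')).toRingHom, fun a => ?_, fun p => ?_⟩
  · exact IsIntegralClosure.algebraMap_lift k[X] A K a
  · exact (IsIntegralClosure.lift k[X] A K (S := A')).commutes p

/-- The integral closure. -/
theorem exists_ic (E : Type) [Field E] [Algebra k[X] E] :
    ∃ (B : Type) (_ : CommRing B) (_ : Algebra k[X] B) (_ : Algebra B E),
      IsScalarTower k[X] B E ∧ IsIntegralClosure B k[X] E :=
  ⟨integralClosure k[X] E, inferInstance, inferInstance, inferInstance, inferInstance,
    inferInstance⟩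

/-- There is a prime above. -/
theorem exists_above {A B : Type} [CommRing A] [IsDedekindDomain A] [CommRing B]
    [IsDedekindDomain B] [Algebra A B] [Algebra.IsIntegral A B] [Module.IsTorsionFree A B]
    (v : HeightOneSpectrum A) : ∃ w : HeightOneSpectrum B, w.under A = v := by
  haveI := v.isMaximal
  haveI : FaithfulSMul A B := inferInstance
  obtain ⟨Q, hQ, hQv⟩ := Ideal.exists_maximal_ideal_liesOver_of_isIntegral (S := B) v.asIdeal
  have hQ0 : Q ≠ ⊥ := by
    rintro rfl
    have h1 : v.asIdeal = (⊥ : Ideal B).under A := hQv.over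
    rw [Ideal.under_bot] at h1
    exact v.ne_bot h1
  refine ⟨⟨Q, hQ.isPrime, hQ0⟩, ?_⟩
  apply HeightOneSpectrum.ext
  exact hQv.over.symm

end fs

end Pool.Agent.Q45.TT
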