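import Pool.Agent.Q45.TT.Val
import Pool.Agent.Q45.TW.Ded

/-!
# A criterion for inert primes
-/

set_option autoImplicit false
set_option linter.all false

open Polynomial IsDedekindDomain WithZero
open scoped Classical

namespace Pool.Agent.Q45.TT

open Pool.Agent.Q45.TW (cst ff)

section inert

variable {A B : Type} [CommRing A] [IsDedekindDomain A] [CommRing B] [IsDedekindDomain B]
  [Algebra A B] [Module.IsTorsionFree A B] [Module.Finite A B]

theorem sum_ef (v : HeightOneSpectrum A) [Fintype (v.asIdeal.primesOver B)] :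
    ∑ q : v.asIdeal.primesOver B, q.1.ramificationIdx A * q.1.inertiaDeg A = Module.finrank A B := by
  haveI := v.isPrime
  exact Ideal.sum_ramification_inertia_eq_finrank v.asIdeal B

/-- A prime whose residue degree is divisible by the degree is generated by the prime below. -/
theorem inert_of [Algebra.IsIntegral A B] (w : HeightOneSpectrum B)
    (h : Module.finrank A B ∣ w.asIdeal.inertiaDeg A) :
    (w.under A).asIdeal.map (algebraMap A B) = w.asIdeal := by
  set v := w.under A with hv
  haveI : v.asIdeal.IsMaximal := v.isMaximal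
  haveI hlo : w.asIdeal.LiesOver v.asIdeal := ⟨rfl⟩
  haveI := w.isPrime
  have hsum := sum_ef (B := B) v
  have hpos : 0 < w.asIdeal.inertiaDeg A := Ideal.inertiaDeg_pos w.asIdeal A
  have hle : Module.finrank A B ≤ w.asIdeal.inertiaDeg A := Nat.le_of_dvd hpos h
  have hwm : w.asIdeal ∈ v.asIdeal.primesOver B := ⟨w.isPrime, hlo⟩
  rw [Fintype.sum_eq_add_sum_compl (⟨w.asIdeal, hwm⟩ : v.asIdeal.primesOver B)] at hsum
  have hw1 : 0 < w.asIdeal.ramificationIdx A := Ideal.ramificationIdx_pos w.asIdeal A
  set S := ∑ i ∈ ({⟨w.asIdeal, hwm⟩}ᶜ : Finset (v.asIdeal.primesOver B)),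
    i.1.ramificationIdx A * i.1.inertiaDeg A with hS
  have h1 : w.asIdeal.ramificationIdx A * w.asIdeal.inertiaDeg A + S = Module.finrank A B := hsum
  have he : w.asIdeal.ramificationIdx A = 1 := by
    by_contra hne
    have h3 : 2 ≤ w.asIdeal.ramificationIdx A := by omega
    have h4 : 2 * w.asIdeal.inertiaDeg A ≤ w.asIdeal.ramificationIdx A * w.asIdeal.inertiaDeg A :=
      Nat.mul_le_mul_right _ h3
    omega
  have hS0 : S = 0 := by
    rw [he, one_mul] at h1
    omega
  have huniq : ∀ q : v.asIdeal.primesOver B, q = ⟨w.asIdeal, hwm⟩ := by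
    intro q
    by_contra hq
    have h3 : q ∈ ({⟨w.asIdeal, hwm⟩}ᶜ : Finset (v.asIdeal.primesOver B)) := by
      rw [Finset.mem_compl, Finset.mem_singleton]
      exact hq
    have h4 := (Finset.sum_eq_zero_iff.1 hS0) q h3
    haveI := q.2.1
    have h5 : 0 < q.1.inertiaDeg A := Ideal.inertiaDeg_pos q.1 A
    have h6 : 0 < q.1.ramificationIdx A := Ideal.ramificationIdx_pos q.1 A
    exact (Nat.mul_pos h6 h5).ne' h4
  have hmap := Ideal.map_algebraMap_eq_finsetProd_pow (R := B) (S := A) (p := v.asIdeal) v.ne_bot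
  rw [hmap, Finset.prod_eq_single w.asIdeal, he, pow_one]
  · intro q hq hne
    rw [Set.mem_toFinset] at hq
    exact absurd (congrArg Subtype.val (huniq ⟨q, hq⟩)) hne
  · intro hq
    exact absurd (Set.mem_toFinset.2 hwm) hq

/-- The residue degree is at most the degree. -/
theorem inertia_le [Algebra.IsIntegral A B] (w : HeightOneSpectrum B) :
    w.asIdeal.inertiaDeg A ≤ Module.finrank A B ∧ w.asIdeal.inertiaDeg A ≠ 0 := by
  set v := w.under A with hv
  haveI : v.asIdeal.IsMaximal := v.isMaximal
  haveI hlo : w.asIdeal.LiesOver v.asIdeal := ⟨rfl⟩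
  haveI := w.isPrime
  have hsum := sum_ef (B := B) v
  have hpos : 0 < w.asIdeal.inertiaDeg A := Ideal.inertiaDeg_pos w.asIdeal A
  have hwm : w.asIdeal ∈ v.asIdeal.primesOver B := ⟨w.isPrime, hlo⟩
  refine ⟨?_, hpos.ne'⟩
  rw [← hsum]
  have hw1 : 0 < w.asIdeal.ramificationIdx A := Ideal.ramificationIdx_pos w.asIdeal A
  calc w.asIdeal.inertiaDeg A ≤ w.asIdeal.ramificationIdx A * w.asIdeal.inertiaDeg A :=
      Nat.le_mul_of_pos_left _ hw1
    _ ≤ _ := Finset.single_le_sum
      (f := fun q : v.asIdeal.primesOver B => q.1.ramificationIdx A * q.1.inertiaDeg A)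
      (fun _ _ => Nat.zero_le _) (Finset.mem_univ (⟨w.asIdeal, hwm⟩ : v.asIdeal.primesOver B))

end inert

section res

variable {k : Type} [Field k] {B : Type} [CommRing B] [IsDedekindDomain B] [Algebra k[X] B]
  [Module.Finite k[X] B] [Module.IsTorsionFree k[X] B]

/-- The residue degree is divisible by the degree of `g`, if `b(-g)` is irreducible. -/
theorem dvd_inertia (w : HeightOneSpectrum B) {b g : k[X]} (hb : Irreducible b)
    (hbw : algebraMap k[X] B b ∈ w.asIdeal) (θ : B)
    (hθ : eval₂ (cst k B) θ g = -algebraMap k[X] B X) (hirr : Irreducible (b.comp (-g))) :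
    g.natDegree ∣ w.asIdeal.inertiaDeg k[X] := by
  haveI : Algebra.IsIntegral k[X] B := Algebra.IsIntegral.of_finite k[X] B
  set p := w.under k[X] with hp
  haveI : p.asIdeal.IsMaximal := p.isMaximal
  haveI hlo : w.asIdeal.LiesOver p.asIdeal := ⟨rfl⟩
  haveI := w.isMaximal
  have hbp : b ∈ p.asIdeal := hbw
  have hpb : p.asIdeal = Ideal.span {b} := by
    have h1 : Ideal.span {b} ≤ p.asIdeal := by
      rw [Ideal.span_singleton_le_iff_mem]
      exact hbp
    haveI : (Ideal.span {b}).IsMaximal := PrincipalIdealRing.isMaximal_of_irreducible hb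
    exact (Ideal.IsMaximal.eq_of_le inferInstance p.isPrime.ne_top h1).symm
  rw [Ideal.inertiaDeg_eq_of_isMaximal p.asIdeal w.asIdeal]
  letI : Algebra k B := ((algebraMap k[X] B).comp C).toAlgebra
  haveI : IsScalarTower k k[X] B := IsScalarTower.of_algebraMap_eq fun x => rfl
  letI : Field (k[X] ⧸ p.asIdeal) := Ideal.Quotient.field _
  letI : Field (B ⧸ w.asIdeal) := Ideal.Quotient.field _
  haveI : IsScalarTower k (k[X] ⧸ p.asIdeal) (B ⧸ w.asIdeal) := by
    refine IsScalarTower.of_algebraMap_eq fun x => ?_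
    rfl
  have h1 : Module.finrank k (k[X] ⧸ p.asIdeal) = b.natDegree := by
    rw [hpb]
    exact finrank_quotient_span_eq_natDegree
  have h3 := Module.finrank_mul_finrank k (k[X] ⧸ p.asIdeal) (B ⧸ w.asIdeal)
  -- the root
  set η : B ⧸ w.asIdeal := Ideal.Quotient.mk _ θ with hη
  have hroot : aeval η (b.comp (-g)) = 0 := by
    have h4 : aeval θ (b.comp (-g)) = algebraMap k[X] B b := by
      rw [aeval_comp, map_neg]
      have h5 : aeval θ g = -algebraMap k[X] B X := hθ
      rw [h5, neg_neg]
      have h6 := Polynomial.aeval_algebraMap_apply B (X : k[X]) b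
      rw [h6]
      congr 1
      have h7 := Polynomial.aeval_X_left_apply b
      exact h7
    have h5 : aeval η (b.comp (-g)) = Ideal.Quotient.mk _ (aeval θ (b.comp (-g))) := by
      have h6 := Polynomial.aeval_algebraMap_apply (B ⧸ w.asIdeal) θ (b.comp (-g))
      exact h6
    rw [h5, h4, Ideal.Quotient.eq_zero_iff_mem]
    exact hbw
  have hmin : (minpoly k η).natDegree = b.natDegree * g.natDegree := by
    have h4 : Associated (minpoly k η) (b.comp (-g)) := by
      have hint : IsIntegral k η := by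
        rw [← isAlgebraic_iff_isIntegral]
        exact ⟨_, hirr.ne_zero, hroot⟩
      exact (minpoly.irreducible hint).associated_of_dvd hirr (minpoly.dvd k η hroot)
    rw [natDegree_eq_of_degree_eq (degree_eq_degree_of_associated h4), natDegree_comp, natDegree_neg]
  have hdvd : (minpoly k η).natDegree ∣ Module.finrank k (B ⧸ w.asIdeal) := by
    have hint : IsIntegral k η := by
      rw [← isAlgebraic_iff_isIntegral]
      exact ⟨_, hirr.ne_zero, hroot⟩
    have h4 := IntermediateField.adjoin.finrank hint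
    rw [← h4]
    exact ⟨_, (Module.finrank_mul_finrank k (IntermediateField.adjoin k {η}) (B ⧸ w.asIdeal)).symm⟩
  rw [hmin, ← h3, h1] at hdvd
  exact Nat.dvd_of_mul_dvd_mul_left hb.natDegree_pos hdvd

end res

end Pool.Agent.Q45.TT
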