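import Pool.Agent.Q45.TT.Fs

/-!
# Irreducibility in towers of quadratic extensions
-/

set_option autoImplicit false
set_option linter.all false

open Polynomial IsDedekindDomain WithZero
open scoped Classical

namespace Pool.Agent.Q45.TT

open Pool.Agent.Q45.TW (cst ff ff_monic ff_natDegree ff_map)

/-- An irreducible polynomial of odd degree stays irreducible in a quadratic extension. -/
theorem irr_quad {K' K : Type} [Field K'] [Field K] [Algebra K' K] [FiniteDimensional K' K]
    (h2 : Module.finrank K' K = 2) {f : K'[X]} (hm : f.Monic) (hodd : Odd f.natDegree)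
    (hirr : Irreducible f) : Irreducible (f.map (algebraMap K' K)) := by
  have hne : f.map (algebraMap K' K) ≠ 0 := (hm.map _).ne_zero
  have hnu : ¬ IsUnit (f.map (algebraMap K' K)) := by
    intro h
    have h1 := natDegree_eq_zero_of_isUnit h
    rw [hm.natDegree_map] at h1
    rw [h1] at hodd
    exact absurd hodd (by decide)
  obtain ⟨q, hq, hqd⟩ := WfDvdMonoid.exists_irreducible_factor hnu hne
  haveI : Fact (Irreducible q) := ⟨hq⟩
  have hq0 : q ≠ 0 := hq.ne_zero
  haveI : FiniteDimensional K (AdjoinRoot q) := (AdjoinRoot.powerBasis hq0).finite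
  haveI : FiniteDimensional K' (AdjoinRoot q) := Module.Finite.trans K (AdjoinRoot q)
  have h1 : Module.finrank K (AdjoinRoot q) = q.natDegree := by
    rw [(AdjoinRoot.powerBasis hq0).finrank, AdjoinRoot.powerBasis_dim]
  have h3 : Module.finrank K' (AdjoinRoot q) = 2 * q.natDegree := by
    rw [← Module.finrank_mul_finrank K' K (AdjoinRoot q), h2, h1]
  set η : AdjoinRoot q := AdjoinRoot.root q with hη
  have hroot : aeval η f = 0 := by
    obtain ⟨c, hc⟩ := hqd
    have h4 : aeval η (f.map (algebraMap K' K)) = 0 := by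
      rw [hc, map_mul, AdjoinRoot.aeval_eq, AdjoinRoot.mk_self, zero_mul]
    rwa [aeval_map_algebraMap] at h4
  have hint : IsIntegral K' η := ⟨f, hm, hroot⟩
  have hmin : minpoly K' η = f := (minpoly.eq_of_irreducible_of_monic hirr hroot hm).symm
  have h4 := IntermediateField.adjoin.finrank hint
  rw [hmin] at h4
  have h5 : f.natDegree ∣ 2 * q.natDegree := by
    rw [← h3, ← h4]
    exact ⟨_, (Module.finrank_mul_finrank K' (IntermediateField.adjoin K' {η}) (AdjoinRoot q)).symm⟩
  have h6 : f.natDegree ∣ q.natDegree := (Nat.coprime_two_right.2 hodd).dvd_of_dvd_mul_left h5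
  have h7 : f.natDegree ≤ q.natDegree := Nat.le_of_dvd hq.natDegree_pos h6
  have h8 : Associated q (f.map (algebraMap K' K)) := by
    refine associated_of_dvd_of_natDegree_le hqd hne ?_
    rw [hm.natDegree_map]
    exact h7
  exact h8.irreducible hq

section ff

variable {k : Type} [Field k] {g : k[X]}

theorem ff_alg {K' K : Type} [Field K'] [Field K] [Algebra k[X] K'] [Algebra k[X] K]
    [Algebra K' K] [IsScalarTower k[X] K' K] : (ff g K').map (algebraMap K' K) = ff g K :=
  ff_map _ fun p => (IsScalarTower.algebraMap_apply k[X] K' K p).symm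

theorem irr_base (hg : g.Monic) (hg0 : 0 < g.natDegree) {K : Type} [Field K] [Algebra k[X] K]
    (hK : IsFractionRing k[X] K) : Irreducible (ff g K) := by
  have h1 := TW.irr (g := g) (cs := []) (A := k[X]) (R := k[X]) (K := K) hg hg0
    (TW.IsTw.nil _ fun _ => 0) (TW.IsTw.nil _ fun _ => 0)
  rwa [ff_map (algebraMap k[X] K) fun p => rfl] at h1

/-- The polynomial `g(x) + t` is irreducible over the tower. -/
theorem IsTower.irr (h2 : (2 : k) ≠ 0) (hg : g.Monic) (hodd : Odd g.natDegree) {K : Type} [Field K]
    [Algebra k[X] K] {m : ℕ} {s : ℕ → K} (h : IsTower k K m s) : Irreducible (ff g K) := by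
  refine IsTower.ind h2 (M := fun K _ _ => Irreducible (ff g K))
    (fun K _ _ hK => irr_base hg hodd.pos hK) ?_ m K s h
  intro K' K _ _ _ _ _ _ D s hq _ _ ih
  haveI := hq.fin
  rw [← ff_alg (K' := K') (K := K)]
  exact irr_quad hq.finrank (ff_monic hg hodd.pos) (by rwa [ff_natDegree hg hodd.pos]) ih

theorem sep_ff {K : Type} [Field K] [Algebra k[X] K] (hirr : Irreducible (ff g K))
    (hd : derivative g ≠ 0) : (ff g K).Separable := by
  rw [separable_iff_derivative_ne_zero hirr, ff, derivative_add, derivative_C,
    add_zero, derivative_map]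
  exact (Polynomial.map_ne_zero_iff (cst k K).injective).2 hd

end ff

end Pool.Agent.Q45.TT
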