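import Pool.Agent.Q45.TT.MFin
import Pool.Agent.Q45.TW.PicI

/-!
# The classes of the marked points
-/

set_option autoImplicit false
set_option linter.all false

open Polynomial IsDedekindDomain WithZero
open scoped Classical

namespace Pool.Agent.Q45.TT

open Pool.Agent.Q45.TW (cst ff ff_monic ff_natDegree ff_map IsGeom)
open Pool.Agent.Y160.SQ
open Pool.Agent.Y160.RK (ptCl ptCl_spec)

variable {k : Type} [Field k] {g : k[X]} {K' K : Type} [Field K'] [Field K] [Algebra k[X] K']
  [Algebra k[X] K] [Algebra K' K] [IsScalarTower k[X] K' K] {c : k} {s : K}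
  {A₀ : Type} [CommRing A₀] [Algebra k[X] A₀] [Algebra A₀ K'] [IsScalarTower k[X] A₀ K']
  [IsIntegralClosure A₀ k[X] K']

theorem mark_cls (h2 : (2 : k) ≠ 0) (hg : g.Monic) (hodd : Odd g.natDegree)
    (hd : derivative g ≠ 0) (hq : IsQuad (algebraMap k[X] K' (X + C c)) s) {m' : ℕ} {s' : ℕ → K'}
    (htw : IsTower k K' m' s') (hs : (g - C c).Separable)
    (hc : Prime (algebraMap k[X] A₀ (X + C c))) (hres : ResIrr g c A₀) {G : k[X]} (hm : G.Monic)
    (hi : Irreducible G) (hdv : G ∣ g - C c) :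
    Pool.Agent.Q45.TW.IsIdealClass (R := CR 2 ((ff g K).map (algebraMap K K)))
      (ptCl 2 (ff g K) (G.map (cst k K), C s))
      (prI 2 ((ff g K).map (algebraMap K K)) (G.map (cst k K)) (C s)) := by
  have hfs' : FS k K' := htw.fs h2
  have htw1 := htw.snoc hq
  have hfs : FS k K := htw1.fs h2
  have hirr : Irreducible (ff g K) := htw1.irr h2 hg hodd
  have hgd : Good 2 (-1) (ff g K) := TW.good h2 hg hodd hfs.inj (sep_ff hirr hd)
  have hirrG : Irreducible (G.map (cst k K)) := irr_mark (A' := A₀) hq hfs' hc hm (hres G hm hi hdv)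
  exact Pool.Agent.Q45.TW.cl_class (ptCl_spec hyps hgd (P := (G.map (cst k K), C s)) hirrG)

end Pool.Agent.Q45.TT
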