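import Pool.Agent.Q45.TT.MStep

/-!
# Irreducibility over the quadratic extension by `√(t + c)`
-/

set_option autoImplicit false
set_option linter.all false

open Polynomial IsDedekindDomain WithZero
open scoped Classical

namespace Pool.Agent.Q45.TT

open Pool.Agent.Q45.TW (cst ff ff_monic ff_natDegree ff_map)
open Pool.Agent.Y160.SE (IsPw)
open Pool.Agent.Q45.GP (Regular)

section res

variable {A B : Type} [CommRing A] [IsDedekindDomain A] [CommRing B] [IsDedekindDomain B]
  [Algebra A B] [Module.IsTorsionFree A B] [Module.Finite A B]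

/-- A totally ramified place in a quadratic extension has the residue field of the base. -/
theorem res_bij [Algebra.IsIntegral A B] (w : HeightOneSpectrum B) (h2 : Module.finrank A B ≤ 2)
    (hram : (w.under A).asIdeal.map (algebraMap A B) ≤ w.asIdeal ^ 2) {I : Ideal A}
    (hI : (w.under A).asIdeal = I) :
    ∀ x : B ⧸ w.asIdeal, ∃ a : A, Ideal.Quotient.mk w.asIdeal (algebraMap A B a) = x := by
  subst hI
  set v := w.under A with hv
  haveI : v.asIdeal.IsMaximal := v.isMaximal
  haveI hlo : w.asIdeal.LiesOver v.asIdeal := ⟨rfl⟩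
  haveI := w.isPrime
  haveI := w.isMaximal
  have hsum := sum_ef (B := B) v
  have hpos : 0 < w.asIdeal.inertiaDeg A := Ideal.inertiaDeg_pos w.asIdeal A
  have hwm : w.asIdeal ∈ v.asIdeal.primesOver B := ⟨w.isPrime, hlo⟩
  have hle : v.asIdeal.map (algebraMap A B) ≤ w.asIdeal := by
    rw [Ideal.map_le_iff_le_comap]
    exact le_rfl
  have hw1 : w.asIdeal.ramificationIdx A ≠ 1 := by
    rw [← Ideal.ramificationIdx'_eq_ramificationIdx v.asIdeal w.asIdeal v.ne_bot]
    exact (Ideal.ramificationIdx'_ne_one_iff hle).2 hram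
  have hw2 : 0 < w.asIdeal.ramificationIdx A := Ideal.ramificationIdx_pos w.asIdeal A
  have h1 : w.asIdeal.ramificationIdx A * w.asIdeal.inertiaDeg A ≤ 2 := by
    refine le_trans ?_ h2
    rw [← hsum]
    exact Finset.single_le_sum
      (f := fun q : v.asIdeal.primesOver B => q.1.ramificationIdx A * q.1.inertiaDeg A)
      (fun _ _ => Nat.zero_le _) (Finset.mem_univ (⟨w.asIdeal, hwm⟩ : v.asIdeal.primesOver B))
  have h3 : w.asIdeal.inertiaDeg A = 1 := by
    have h4 : 2 * w.asIdeal.inertiaDeg A ≤ w.asIdeal.ramificationIdx A * w.asIdeal.inertiaDeg A :=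
      Nat.mul_le_mul_right _ (by omega)
    omega
  rw [Ideal.inertiaDeg_eq_of_isMaximal v.asIdeal w.asIdeal] at h3
  letI : Field (A ⧸ v.asIdeal) := Ideal.Quotient.field _
  letI : Field (B ⧸ w.asIdeal) := Ideal.Quotient.field _
  have h5 : Function.Surjective (algebraMap (A ⧸ v.asIdeal) (B ⧸ w.asIdeal)) :=
    (Algebra.finrank_eq_one_iff_bijective_algebraMap.mp h3).2
  intro x
  obtain ⟨y, rfl⟩ := h5 x
  obtain ⟨a, rfl⟩ := Ideal.Quotient.mk_surjective y
  exact ⟨a, rfl⟩

end res

section irr

variable {k : Type} [Field k] {g : k[X]}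

/-- The factors stay irreducible. -/
theorem irr_mark {K' K : Type} [Field K'] [Field K] [Algebra k[X] K'] [Algebra k[X] K]
    [Algebra K' K] [IsScalarTower k[X] K' K] {c : k} {s : K}
    (hq : IsQuad (algebraMap k[X] K' (X + C c)) s) (hfs' : FS k K')
    {A' : Type} [CommRing A'] [Algebra k[X] A'] [Algebra A' K'] [IsScalarTower k[X] A' K']
    [IsIntegralClosure A' k[X] K'] (hc : Prime (algebraMap k[X] A' (X + C c))) {G : k[X]}
    (hGm : G.Monic)
    (hG : Irreducible (G.map ((Ideal.Quotient.mk (Ideal.span {algebraMap k[X] A' (X + C c)})).comp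
      (cst k A')))) : Irreducible (G.map (cst k K)) := by
  haveI := hq.fin
  haveI := hq.separable
  have hfs : FS k K := hfs'.trans hq.fin hq.separable
  obtain ⟨A, b1, b2, b3, b4, b5⟩ := exists_ic (k := k) K
  obtain ⟨φ, hφ1, hφ2⟩ := exists_alg (k := k) (K' := K') (K := K) A' A
  letI : Algebra A' A := φ.toAlgebra
  haveI : IsScalarTower k[X] A' A := IsScalarTower.of_algebraMap_eq fun p => (hφ2 p).symm
  haveI := hfs.ded A
  haveI := hfs.frac A
  haveI := hfs.finite A
  haveI := hfs'.ded A'
  haveI := hfs'.frac A'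
  haveI : Module.Finite A' A := Module.Finite.of_restrictScalars_finite k[X] A' A
  haveI : Algebra.IsIntegral A' A := Algebra.IsIntegral.of_finite A' A
  haveI : Module.IsTorsionFree A' A := by
    rw [Module.isTorsionFree_iff_algebraMap_injective]
    exact tf_of (K' := K') (K := K) (IsFractionRing.injective A' K') hφ1
  letI : Algebra A' K := ((algebraMap K' K).comp (algebraMap A' K')).toAlgebra
  haveI : IsScalarTower A' K' K := IsScalarTower.of_algebraMap_eq fun _ => rfl
  haveI : IsScalarTower A' A K := IsScalarTower.of_algebraMap_eq fun a => (hφ1 a).symm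
  set τ : A' := algebraMap k[X] A' (X + C c) with hτ
  have hI0 : Ideal.span {τ} ≠ ⊥ := fun h => hc.ne_zero (Ideal.span_singleton_eq_bot.1 h)
  have hIp : (Ideal.span {τ}).IsPrime := (Ideal.span_singleton_prime hc.ne_zero).2 hc
  let v : HeightOneSpectrum A' := ⟨Ideal.span {τ}, hIp, hI0⟩
  obtain ⟨w, hw⟩ := exists_above (B := A) v
  obtain ⟨σ, hσ⟩ : ∃ σ : A, algebraMap A K σ = s := by
    apply (IsIntegralClosure.isIntegral_iff (A := A) (R := k[X])).1
    refine IsIntegral.of_pow (n := 2) (by norm_num) ?_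
    rw [hq.sq, ← IsScalarTower.algebraMap_apply k[X] K' K]
    exact isIntegral_algebraMap
  have hσ2 : σ ^ 2 = algebraMap A' A τ := by
    apply IsFractionRing.injective A K
    rw [map_pow, hσ, hq.sq]
    refine Eq.trans ?_ (hφ1 τ).symm
    rw [hτ, ← IsScalarTower.algebraMap_apply k[X] A' K']
  have hτw : algebraMap A' A τ ∈ w.asIdeal := by
    have h1 : τ ∈ (w.under A').asIdeal := by
      rw [hw]
      exact Ideal.mem_span_singleton_self τ
    exact h1
  have hσw : σ ∈ w.asIdeal := by
    rw [← hσ2] at hτw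
    exact w.isPrime.mem_of_pow_mem 2 hτw
  have hram : (w.under A').asIdeal.map (algebraMap A' A) ≤ w.asIdeal ^ 2 := by
    rw [hw, Ideal.map_le_iff_le_comap]
    show Ideal.span {τ} ≤ _
    rw [Ideal.span_singleton_le_iff_mem, Ideal.mem_comap, ← hσ2]
    exact Ideal.pow_mem_pow hσw 2
  have hfr : Module.finrank A' A ≤ 2 := by
    rw [← IsFractionRing.finrank_eq A' K' A K, hq.finrank]
  have hsurj := res_bij w hfr hram (I := Ideal.span {τ}) (congrArg HeightOneSpectrum.asIdeal hw)
  -- the isomorphism of the residue fields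
  haveI : (Ideal.span {τ}).IsMaximal := v.isMaximal
  letI : Field (A' ⧸ Ideal.span {τ}) := Ideal.Quotient.field _
  haveI := w.isMaximal
  letI : Field (A ⧸ w.asIdeal) := Ideal.Quotient.field _
  let ρ : A' ⧸ Ideal.span {τ} →+* A ⧸ w.asIdeal :=
    Ideal.quotientMap w.asIdeal (algebraMap A' A) (by
      rw [Ideal.span_singleton_le_iff_mem, Ideal.mem_comap]
      exact hτw)
  have hρ : ∀ a, ρ (Ideal.Quotient.mk _ a) = Ideal.Quotient.mk _ (algebraMap A' A a) := fun a =>
    Ideal.quotientMap_mk
  let e : A' ⧸ Ideal.span {τ} ≃+* A ⧸ w.asIdeal := RingEquiv.ofBijective ρ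
    ⟨ρ.injective, fun x => by
      obtain ⟨a, ha⟩ := hsurj x
      exact ⟨Ideal.Quotient.mk _ a, (hρ a).trans ha⟩⟩
  have h1 : Irreducible ((G.map ((Ideal.Quotient.mk (Ideal.span {τ})).comp (cst k A'))).map
      (e : A' ⧸ Ideal.span {τ} →+* A ⧸ w.asIdeal)) :=
    (MulEquiv.irreducible_iff (Polynomial.mapEquiv e).toMulEquiv).2 hG
  have h3 : (G.map ((Ideal.Quotient.mk (Ideal.span {τ})).comp (cst k A'))).map
      (e : A' ⧸ Ideal.span {τ} →+* A ⧸ w.asIdeal) =
      (G.map (cst k A)).map (Ideal.Quotient.mk w.asIdeal) := by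
    rw [Polynomial.map_map, Polynomial.map_map]
    congr 1
    refine RingHom.ext fun x => ?_
    show ρ (Ideal.Quotient.mk _ (algebraMap k[X] A' (C x))) =
      Ideal.Quotient.mk _ (algebraMap k[X] A (C x))
    rw [hρ, ← IsScalarTower.algebraMap_apply k[X] A' A]
  rw [h3] at h1
  have h4 := (hGm.map (cst k A)).irreducible_of_irreducible_map _ _ h1
  have h5 := ((hGm.map (cst k A)).irreducible_iff_irreducible_map_fraction_map (K := K)).1 h4
  rw [Polynomial.map_map] at h5
  have h6 : (algebraMap A K).comp (cst k A) = cst k K := RingHom.ext fun x =>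
    (IsScalarTower.algebraMap_apply k[X] A K (C x)).symm
  rwa [h6] at h5

/-- The conditions on the divisors. -/
theorem mpts_ok (hg : g.Monic) (hg0 : 0 < g.natDegree) {K : Type} [Field K] [Algebra k[X] K]
    (hinj : Function.Injective (algebraMap k[X] K)) {c : k} {s : K}
    (hs2 : s ^ 2 = algebraMap k[X] K (X + C c)) (hs : (g - C c).Separable)
    (hirr : ∀ G ∈ facs (g - C c), Irreducible (G.map (cst k K))) :
    ∀ P ∈ MPts g c s, Irreducible P.1 ∧ P.1.Monic ∧ ¬ P.1 ∣ ff g K ∧ P.1 ∣ ff g K - P.2 ^ 2 := by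
  rintro _ ⟨G, hG, rfl⟩
  obtain ⟨hGi, hGm, hGd⟩ := (mem_facs hs.ne_zero).1 hG
  have h1 : ff g K - C s ^ 2 = (g - C c).map (cst k K) := by
    rw [← C_pow, hs2, map_add, C_add, ff, Polynomial.map_sub, map_C]
    show g.map (cst k K) + C (algebraMap k[X] K X) - (C (algebraMap k[X] K X) +
      C (algebraMap k[X] K (C c))) = g.map (cst k K) - C (algebraMap k[X] K (C c))
    ring
  have hd : G.map (cst k K) ∣ ff g K - C s ^ 2 := by
    rw [h1]
    exact Polynomial.map_dvd _ hGd
  have hs0 : s ≠ 0 := by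
    rintro rfl
    rw [zero_pow two_ne_zero] at hs2
    have h3 : (X + C c : k[X]) = 0 := hinj (by rw [← hs2, map_zero])
    exact (monic_X_add_C c).ne_zero h3
  refine ⟨hirr G hG, hGm.map _, fun h => ?_, hd⟩
  have h3 : G.map (cst k K) ∣ C (s ^ 2) := by
    have h4 := dvd_sub h hd
    rw [sub_sub_cancel, ← C_pow] at h4
    exact h4
  have h5 := isUnit_of_dvd_unit h3 (isUnit_C.2 (IsUnit.mk0 _ (pow_ne_zero 2 hs0)))
  exact (hirr G hG).not_isUnit h5

/-- The places with ramification. -/
theorem ram_mark (h2 : (2 : k) ≠ 0) {K' K : Type} [Field K'] [Field K] [Algebra k[X] K']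
    [Algebra k[X] K] [Algebra K' K] [IsScalarTower k[X] K' K] {c : k} {s : K}
    (hq : IsQuad (algebraMap k[X] K' (X + C c)) s) (hfs' : FS k K') (hram : RamK g K')
    (hs : (g - C c).Separable) {A : Type} [CommRing A] [IsDedekindDomain A] [Algebra k[X] A]
    [Algebra A K] [IsScalarTower k[X] A K] [IsFractionRing A K] [IsIntegralClosure A k[X] K]
    (v : HeightOneSpectrum A) (b : k[X]) (hb : Irreducible b)
    (hbv : algebraMap k[X] A b ∈ v.asIdeal ^ 2) : (b.comp (-g)).Separable := by
  haveI := hq.fin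
  haveI := hq.separable
  have hfs : FS k K := hfs'.trans hq.fin hq.separable
  obtain ⟨A', b1, b2, b3, b4, b5⟩ := exists_ic (k := k) K'
  obtain ⟨φ, hφ1, hφ2⟩ := exists_alg (k := k) (K' := K') (K := K) A' A
  letI : Algebra A' A := φ.toAlgebra
  haveI : IsScalarTower k[X] A' A := IsScalarTower.of_algebraMap_eq fun p => (hφ2 p).symm
  haveI := hfs.finite A
  haveI := hfs'.ded A'
  haveI := hfs'.frac A'
  haveI : Module.Finite A' A := Module.Finite.of_restrictScalars_finite k[X] A' A
  haveI : Algebra.IsIntegral A' A := Algebra.IsIntegral.of_finite A' A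
  haveI : Module.IsTorsionFree A' A := by
    rw [Module.isTorsionFree_iff_algebraMap_injective]
    exact tf_of (K' := K') (K := K) (IsFractionRing.injective A' K') hφ1
  letI : Algebra A' K := ((algebraMap K' K).comp (algebraMap A' K')).toAlgebra
  haveI : IsScalarTower A' K' K := IsScalarTower.of_algebraMap_eq fun _ => rfl
  haveI : IsScalarTower A' A K := IsScalarTower.of_algebraMap_eq fun a => (hφ1 a).symm
  set v' := v.under A' with hv'
  by_cases hbv' : algebraMap k[X] A' b ∈ v'.asIdeal ^ 2
  · exact (hram A' v' b hb hbv').2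
  by_cases htc : algebraMap k[X] A' (X + C c) ∈ v'.asIdeal
  · -- `b` is a multiple of `t + c`
    have hbm : algebraMap k[X] A' b ∈ v'.asIdeal := by
      have h1 : algebraMap k[X] A b ∈ v.asIdeal := Ideal.pow_le_self two_ne_zero hbv
      rw [IsScalarTower.algebraMap_apply k[X] A' A] at h1
      exact h1
    have hbc : ¬ IsCoprime b (X + C c) := by
      rintro ⟨x, y, hxy⟩
      have h1 := congrArg (algebraMap k[X] A') hxy
      rw [map_add, map_mul, map_mul, map_one] at h1
      refine v'.isPrime.ne_top ((Ideal.eq_top_iff_one _).2 ?_)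
      rw [← h1]
      exact Ideal.add_mem _ (Ideal.mul_mem_left _ _ hbm) (Ideal.mul_mem_left _ _ htc)
    have hirr : Irreducible (X + C c : k[X]) := by
      rw [show (C c : k[X]) = -C (-c) by rw [C_neg, neg_neg], ← sub_eq_add_neg]
      exact irreducible_X_sub_C _
    have h3 : Associated b (X + C c) := by
      rw [hb.coprime_iff_not_dvd, not_not] at hbc
      exact hb.associated_of_dvd hirr hbc
    obtain ⟨u, hu⟩ := h3.symm
    have h4 : b.comp (-g) = (X + C c).comp (-g) * (u : k[X]).comp (-g) := by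
      rw [← hu, mul_comp]
    have h5 : IsUnit ((u : k[X]).comp (-g)) := u.isUnit.map (compRingHom (-g))
    have h6 : (X + C c : k[X]).comp (-g) = -(g - C c) := by
      rw [add_comp, X_comp, C_comp]
      ring
    rw [h4, h6]
    obtain ⟨x, hx, hxe⟩ := Polynomial.isUnit_iff.1 h5
    rw [← hxe, mul_comm, neg_eq_neg_one_mul, ← mul_assoc]
    have h7 : IsUnit (C x * -1 : k[X]) := (isUnit_C.2 hx).mul isUnit_one.neg
    exact Separable.unit_mul h7 hs
  · -- the place is unramified over `K'`
    exfalso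
    have hval : v'.valuation K' (algebraMap k[X] K' (X + C c)) = 1 := by
      rw [IsScalarTower.algebraMap_apply k[X] A' K', v'.valuation_of_algebraMap,
        v'.intValuation_eq_one_iff]
      exact htc
    have hone := ram_one (A := A') (B := A) (L := K) hq (by
      have h3 : (2 : A') = algebraMap k[X] A' (C 2) := by
        rw [show (C 2 : k[X]) = 2 by rw [map_ofNat], map_ofNat]
      rw [h3]
      exact (isUnit_C.2 (IsUnit.mk0 _ h2)).map _) v (by
        rw [← hv', hval]
        exact ⟨1, (one_pow 2).symm⟩)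
    apply hbv'
    have h6 := (v.intValuation_le_pow_iff_mem _ 2).2 hbv
    have h7 := val_under (A := A') (L := K) v (algebraMap k[X] K' b)
    rw [hone, pow_one, ← IsScalarTower.algebraMap_apply k[X] K' K,
      IsScalarTower.algebraMap_apply k[X] A K, v.valuation_of_algebraMap,
      IsScalarTower.algebraMap_apply k[X] A' K', ← hv', v'.valuation_of_algebraMap] at h7
    rw [← v'.intValuation_le_pow_iff_mem, ← h7]
    exact h6

end irr

end Pool.Agent.Q45.TT
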