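import Pool.Agent.Q45.TT.Mark

/-!
# The descent over the quadratic extension by `√(t + c)`
-/

set_option autoImplicit false
set_option linter.all false

open Polynomial IsDedekindDomain WithZero
open scoped Classical

namespace Pool.Agent.Q45.TT

open Pool.Agent.Q45.TW (cst ff ff_monic ff_natDegree ff_map)
open Pool.Agent.Y160.SE (IsPw)
open Pool.Agent.Y160.SQ

/-- The divisors `G(x) = 0`, `w = s`, for the irreducible factors `G` of `g - c`. -/
def MPts {k : Type} [Field k] (g : k[X]) (c : k) {K : Type} [Field K] [Algebra k[X] K] (s : K) :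
    Set (K[X] × K[X]) :=
  {P | ∃ G ∈ facs (g - C c), P = (G.map (cst k K), C s)}

theorem exp_odd {γ : WithZero (Multiplicative ℤ)} (h0 : γ ≠ 0) (h : ¬ IsPw 2 γ) :
    IsPw 2 (γ * exp (-1 : ℤ)) := by
  obtain ⟨m, hm⟩ : ∃ m : ℤ, γ = exp m := ⟨_, (exp_log h0).symm⟩
  rcases Int.even_or_odd m with ⟨j, hj⟩ | ⟨j, hj⟩
  · exfalso
    apply h
    refine ⟨exp j, ?_⟩
    rw [hm, ← exp_nsmul, hj]
    congr 1
    rw [two_nsmul]
  · refine ⟨exp j, ?_⟩
    rw [hm, ← exp_nsmul, ← exp_add, hj]
    congr 1
    rw [two_nsmul]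
    ring

theorem even_exp {n : ℕ} (h : IsPw 2 (exp (-1 : ℤ) ^ n)) : Even n := by
  obtain ⟨δ, hδ⟩ := h
  have hδ0 : δ ≠ 0 := by
    rintro rfl
    rw [zero_pow two_ne_zero] at hδ
    exact pow_ne_zero n exp_ne_zero hδ
  obtain ⟨m, hm⟩ : ∃ m : ℤ, δ = exp m := ⟨_, (exp_log hδ0).symm⟩
  rw [hm, ← exp_nsmul, ← exp_nsmul] at hδ
  have h3 := exp_injective hδ
  rw [nsmul_eq_mul, nsmul_eq_mul] at h3
  push_cast at h3
  rw [← Int.even_coe_nat]
  exact ⟨-m, by linarith⟩

section desc

variable {k : Type} [Field k] {g : k[X]}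

theorem mark_descends (h2 : (2 : k) ≠ 0) (hg : g.Monic) (hodd : Odd g.natDegree)
    (hd : derivative g ≠ 0) {K' K : Type} [Field K'] [Field K] [Algebra k[X] K'] [Algebra k[X] K]
    [Algebra K' K] [IsScalarTower k[X] K' K] {c : k} {s : K}
    (hq : IsQuad (algebraMap k[X] K' (X + C c)) s) {m' : ℕ} {s' : ℕ → K'}
    (htw : IsTower k K' m' s') (hram : RamK g K') (hs : (g - C c).Separable)
    {A' : Type} [CommRing A'] [Algebra k[X] A'] [Algebra A' K'] [IsScalarTower k[X] A' K']
    [IsIntegralClosure A' k[X] K'] (hc : Prime (algebraMap k[X] A' (X + C c)))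
    (hres : ResIrr g c A') : Descends g K (MPts g c s) := by
  intro L _ _ _ _ θ hθ htop R _ _ _ _ _ _ _ z hz hev hu
  obtain ⟨u, hu⟩ := hu
  have hirr' : Irreducible (ff g K') := htw.irr h2 hg hodd
  haveI := hq.fin
  have hirr : Irreducible (ff g K) := by
    rw [← ff_alg (K' := K') (K := K)]
    exact irr_quad hq.finrank (ff_monic hg hodd.pos) (by rwa [ff_natDegree hg hodd.pos]) hirr'
  have hsep' : (ff g K').Separable := sep_ff hirr' hd
  have hsep : (ff g K).Separable := sep_ff hirr hd
  have hm' : (ff g K').Monic := ff_monic hg hodd.pos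
  have hm : (ff g K).Monic := ff_monic hg hodd.pos
  letI : Algebra K' L := ((algebraMap K L).comp (algebraMap K' K)).toAlgebra
  haveI : IsScalarTower K' K L := IsScalarTower.of_algebraMap_eq fun _ => rfl
  haveI : IsScalarTower k[X] K' L := IsScalarTower.of_algebraMap_eq fun p => by
    show algebraMap k[X] L p = algebraMap K L (algebraMap K' K (algebraMap k[X] K' p))
    rw [← IsScalarTower.algebraMap_apply k[X] K' K, ← IsScalarTower.algebraMap_apply k[X] K L]
  obtain ⟨L', l1, l2, l3, l4, θ', l5, l6, l7, rfl, htop'⟩ := exists_sub (k := k) (K' := K') θ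
  have hθ' : aeval θ' (ff g K') = 0 := by
    apply (algebraMap L' L).injective
    rw [← aeval_algebraMap_apply, ← aeval_map_algebraMap K, ff_alg, hθ, map_zero]
  have hfs' : FS k K' := htw.fs h2
  have hfs : FS k K := hfs'.trans hq.fin hq.separable
  haveI : FiniteDimensional K' L' := TW.fin_of hm' hθ' htop'
  haveI : FiniteDimensional K L := TW.fin_of hm hθ htop
  have hfsL' : FS k L' := hfs'.trans (TW.fin_of hm' hθ' htop') (TW.sep_of hsep' hθ' htop')
  have hfsL : FS k L := hfs.trans (TW.fin_of hm hθ htop) (TW.sep_of hsep hθ htop)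
  have hqL : IsQuad (algebraMap K' L' (algebraMap k[X] K' (X + C c))) (algebraMap K L s) := by
    refine quad_up hq htop' htop hm' ?_ hirr' ?_ hθ'
    · rw [ff_natDegree hg hodd.pos]
      exact hodd.pos
    · rwa [ff_alg]
  haveI := hqL.fin
  obtain ⟨R', r1, r2, r3, r4, r5⟩ := exists_ic (k := k) L'
  haveI := hfsL'.ded R'
  haveI := hfsL'.frac R'
  haveI := hfsL'.finite R'
  have htriv : Triv g K' := htw.triv h2 hg hodd hd hram
  -- the rings of `L'` and `L`
  obtain ⟨φR, hφR1, hφR2⟩ := exists_alg (k := k) (K' := L') (K := L) R' R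
  letI : Algebra R' R := φR.toAlgebra
  haveI : IsScalarTower k[X] R' R := IsScalarTower.of_algebraMap_eq fun p => (hφR2 p).symm
  haveI := hfsL.finite R
  haveI : Module.Finite R' R := Module.Finite.of_restrictScalars_finite k[X] R' R
  haveI : Module.IsTorsionFree R' R := by
    rw [Module.isTorsionFree_iff_algebraMap_injective]
    exact tf_of (K' := L') (K := L) (IsFractionRing.injective R' L') hφR1
  letI : Algebra R' L := ((algebraMap L' L).comp (algebraMap R' L')).toAlgebra
  haveI : IsScalarTower R' L' L := IsScalarTower.of_algebraMap_eq fun _ => rfl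
  haveI : IsScalarTower R' R L := IsScalarTower.of_algebraMap_eq fun a => (hφR1 a).symm
  -- the norm to `L'`
  have hNy : ∃ y : L', Algebra.norm L' z = y ^ 2 := by
    refine htriv L' θ' hθ' htop' R' _ ((Algebra.norm_ne_zero_iff).2 hz) (fun v => ?_) ?_
    · exact TW.norm_even (R := R) hz hev v
    · refine ⟨Algebra.norm K' u, ?_⟩
      rw [Algebra.norm_norm, ← map_pow, ← hu, Algebra.norm_norm]
  obtain ⟨y, hy⟩ := hNy
  obtain ⟨w, ρ, c₁, hw, hρ, hc₁, hzw⟩ := reduce h2 hg hodd hq hθ' htop' htop hirr' hirr hsep' hz hu hy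
  have hev' : ∀ Q : HeightOneSpectrum R, IsPw 2 (Q.valuation L (algebraMap L' L w)) := by
    intro Q
    have h1 := hev Q
    rw [hzw, map_mul, map_pow] at h1
    exact IsPw.of_mul ((Valuation.ne_zero_iff _).2 hρ) h1
  -- the rings of `K'` and `L'`
  haveI := hfs'.ded A'
  haveI := hfs'.frac A'
  haveI := hfs'.finite A'
  obtain ⟨ψ, hψ1, hψ2⟩ := exists_alg (k := k) (K' := K') (K := L') A' R'
  letI : Algebra A' R' := ψ.toAlgebra
  haveI : IsScalarTower k[X] A' R' := IsScalarTower.of_algebraMap_eq fun p => (hψ2 p).symm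
  haveI : Module.Finite A' R' := Module.Finite.of_restrictScalars_finite k[X] A' R'
  haveI : Algebra.IsIntegral A' R' := Algebra.IsIntegral.of_finite A' R'
  haveI : Module.IsTorsionFree A' R' := by
    rw [Module.isTorsionFree_iff_algebraMap_injective]
    exact tf_of (K' := K') (K := L') (IsFractionRing.injective A' K') hψ1
  letI : Algebra A' L' := ((algebraMap K' L').comp (algebraMap A' K')).toAlgebra
  haveI : IsScalarTower A' K' L' := IsScalarTower.of_algebraMap_eq fun _ => rfl
  haveI : IsScalarTower A' R' L' := IsScalarTower.of_algebraMap_eq fun a => (hψ1 a).symm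
  -- the root
  have hroot : algebraMap k[X] L' X = -(eval₂ ((algebraMap K' L').comp (cst k K')) θ' g) := by
    have h3 := hθ'
    rw [aeval_def, TW.eval₂_ff, ← IsScalarTower.algebraMap_apply k[X] K' L'] at h3
    linear_combination h3
  have hcc : (algebraMap K' L').comp (cst k K') = (algebraMap R' L').comp (cst k R') := by
    refine RingHom.ext fun x => ?_
    show algebraMap K' L' (algebraMap k[X] K' (C x)) = algebraMap R' L' (algebraMap k[X] R' (C x))
    rw [← IsScalarTower.algebraMap_apply, ← IsScalarTower.algebraMap_apply]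
  obtain ⟨θR, rfl⟩ : ∃ θR : R', algebraMap R' L' θR = θ' := by
    apply (IsIntegralClosure.isIntegral_iff (A := R') (R := k[X])).1
    refine ⟨g.map C + C X, ?_, ?_⟩
    · refine (hg.map C).add_of_left ?_
      refine lt_of_le_of_lt degree_C_le ?_
      rw [degree_map_eq_of_injective C_injective]
      exact natDegree_pos_iff_degree_pos.1 hodd.pos
    · rw [eval₂_add, eval₂_map, eval₂_C, hroot]
      have h3 : (algebraMap k[X] L').comp C = (algebraMap K' L').comp (cst k K') := by
        refine RingHom.ext fun x => ?_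
        show algebraMap k[X] L' (C x) = algebraMap K' L' (algebraMap k[X] K' (C x))
        rw [← IsScalarTower.algebraMap_apply]
      rw [h3, add_neg_cancel]
  obtain ⟨q, hq1, hq2, hq3, hq4⟩ := mark_places (A := A') (R := R') (K := K') (L := L') hg hodd.pos
    hirr' hsep' hθ' htop' (fun a => hψ1 a ▸ rfl) hs hc hres
  set γ : k[X] → L' := fun G => algebraMap R' L' (eval₂ (cst k R') θR G) with hγ
  have hγ' : ∀ G : k[X], γ G = aeval (algebraMap R' L' θR) (G.map (cst k K')) := by
    intro G
    show algebraMap R' L' (eval₂ (cst k R') θR G) = _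
    rw [hom_eval₂, ← hcc, aeval_def, eval₂_map]
  set T : Finset k[X] := (facs (g - C c)).filter fun G => ¬ IsPw 2 ((q G).valuation L' w) with hT
  have hTm : ∀ G ∈ T, G ∈ facs (g - C c) := fun G hG => (Finset.mem_filter.1 hG).1
  set Pi0 : L' := ∏ G ∈ T, ((-1) ^ G.natDegree * γ G) with hP1
  have hγ0 : ∀ G ∈ facs (g - C c), γ G ≠ 0 := by
    intro G hG h0
    have h1 := hq1 G hG G hG
    rw [if_pos rfl] at h1
    have h3 : algebraMap R' L' (eval₂ (cst k R') θR G) = 0 := h0
    rw [h3, map_zero] at h1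
    exact exp_ne_zero h1.symm
  have hP0 : Pi0 ≠ 0 := by
    rw [hP1, Finset.prod_ne_zero_iff]
    exact fun G hG => mul_ne_zero (pow_ne_zero _ (neg_ne_zero.2 one_ne_zero)) (hγ0 G (hTm G hG))
  have hvP : ∀ Q : HeightOneSpectrum R', Q.valuation L' Pi0 = ∏ G ∈ T, Q.valuation L' (γ G) := by
    intro Q
    rw [hP1, map_prod]
    refine Finset.prod_congr rfl fun G _ => ?_
    rw [map_mul, map_pow, Valuation.map_neg, map_one, one_pow, one_mul]
  have hcR : ∀ Q : HeightOneSpectrum R', algebraMap k[X] R' (X + C c) ∉ Q.asIdeal →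
      Q.valuation L' (algebraMap K' L' (algebraMap k[X] K' (X + C c))) = 1 := by
    intro Q hQ
    rw [← IsScalarTower.algebraMap_apply k[X] K' L', IsScalarTower.algebraMap_apply k[X] R' L',
      Q.valuation_of_algebraMap, Q.intValuation_eq_one_iff]
    exact hQ
  have h2R : IsUnit (2 : R') := by
    have h3 : (2 : R') = algebraMap k[X] R' (C 2) := by
      rw [show (C 2 : k[X]) = 2 by rw [map_ofNat], map_ofNat]
    rw [h3]
    exact (isUnit_C.2 (IsUnit.mk0 _ h2)).map _
  have hevw : ∀ Q : HeightOneSpectrum R', IsPw 2 (Q.valuation L' (w * Pi0)) := by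
    intro Q
    rw [map_mul, hvP]
    by_cases hQ : algebraMap k[X] R' (X + C c) ∈ Q.asIdeal
    · obtain ⟨G, hG, rfl⟩ := hq3 Q hQ
      by_cases hp : IsPw 2 ((q G).valuation L' w)
      · have h1 : ∏ G' ∈ T, (q G).valuation L' (γ G') = 1 := by
          refine Finset.prod_eq_one fun G' hG' => ?_
          have h3 := hq1 G hG G' (hTm G' hG')
          rw [if_neg] at h3
          · exact h3
          · rintro rfl
            exact (Finset.mem_filter.1 hG').2 hp
        rw [h1, mul_one]
        exact hp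
      · have hGT : G ∈ T := Finset.mem_filter.2 ⟨hG, hp⟩
        have h1 : ∏ G' ∈ T, (q G).valuation L' (γ G') = exp (-1 : ℤ) := by
          rw [← Finset.mul_prod_erase _ _ hGT, Finset.prod_eq_one fun G' hG' => ?_, mul_one]
          · have h3 := hq1 G hG G hG
            rwa [if_pos rfl] at h3
          · have h3 := hq1 G hG G' (hTm G' (Finset.mem_of_mem_erase hG'))
            rwa [if_neg (Finset.ne_of_mem_erase hG')] at h3
        rw [h1]
        exact exp_odd ((Valuation.ne_zero_iff _).2 hw) hp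
    · have h1 : ∏ G' ∈ T, Q.valuation L' (γ G') = 1 :=
        Finset.prod_eq_one fun G' hG' => hq4 Q hQ G' (hTm G' hG')
      rw [h1, mul_one]
      refine even_down (B := R) hqL h2R Q ?_ hev'
      rw [hcR Q hQ]
      exact ⟨1, (one_pow 2).symm⟩
  -- the norm
  have hfa : ∀ G ∈ facs (g - C c), Irreducible G ∧ G.Monic ∧ G ∣ g - C c := fun G hG =>
    (mem_facs hs.ne_zero).1 hG
  set e : ℕ := ∑ G ∈ T, G.natDegree with he
  have hnoP : Algebra.norm K' Pi0 = algebraMap k[X] K' (X + C c) ^ e := by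
    rw [hP1, map_prod, he, ← Finset.prod_pow_eq_pow_sum]
    refine Finset.prod_congr rfl fun G hG => ?_
    obtain ⟨-, h3, h4⟩ := hfa G (hTm G hG)
    rw [hγ']
    have h5 := TW.norm_dvd (cst k K') (algebraMap k[X] K' X) hg hodd.pos hirr' hsep' hθ' htop' h3 h4
    rw [h5, map_add]
    rfl
  have heven : Even e := by
    have h1 := TW.norm_even (A := A') (R := R') (K := K') (L := L') (mul_ne_zero hw hP0) hevw
      ⟨Ideal.span {algebraMap k[X] A' (X + C c)}, (Ideal.span_singleton_prime hc.ne_zero).2 hc,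
        fun h => hc.ne_zero (Ideal.span_singleton_eq_bot.1 h)⟩
    rw [map_mul, hc₁, hnoP, mul_comm, map_mul, map_pow, map_pow] at h1
    have hc₁0 : c₁ ≠ 0 := by
      rintro rfl
      rw [zero_pow two_ne_zero] at hc₁
      exact hw (Algebra.norm_eq_zero_iff.1 hc₁)
    have h3 := IsPw.of_mul ((Valuation.ne_zero_iff _).2 hc₁0) h1
    rw [IsScalarTower.algebraMap_apply k[X] A' K', HeightOneSpectrum.valuation_of_algebraMap,
      HeightOneSpectrum.intValuation_singleton _ hc.ne_zero rfl] at h3
    exact even_exp h3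
  obtain ⟨e', he'⟩ := heven
  obtain ⟨c₂, hc₂⟩ := htriv L' _ hθ' htop' R' (w * Pi0) (mul_ne_zero hw hP0) hevw
    ⟨c₁ * algebraMap k[X] K' (X + C c) ^ e', by
      rw [map_mul, hc₁, hnoP, he']
      ring⟩
  have hc₂0 : c₂ ≠ 0 := by
    rintro rfl
    rw [zero_pow two_ne_zero] at hc₂
    exact mul_ne_zero hw hP0 hc₂
  -- the conclusion
  refine ⟨∏ G ∈ T, (-1) ^ G.natDegree, algebraMap L' L (c₂ / Pi0) * ρ,
    T.val.map fun G => (G.map (cst k K), C s), ?_, ?_, ?_, ?_⟩
  · rw [Finset.prod_ne_zero_iff]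
    exact fun G hG => pow_ne_zero _ (neg_ne_zero.2 one_ne_zero)
  · exact mul_ne_zero ((_root_.map_ne_zero _).2 (div_ne_zero hc₂0 hP0)) hρ
  · intro P hP
    obtain ⟨G, hG, rfl⟩ := Multiset.mem_map.1 hP
    exact ⟨G, hTm G hG, rfl⟩
  · have h1 : aeval (algebraMap L' L (algebraMap R' L' θR))
        (dvP (T.val.map fun G => (G.map (cst k K), (C s : K[X])))) =
        algebraMap L' L (∏ G ∈ T, γ G) := by
      unfold dvP
      rw [Multiset.map_map]
      have h3 : (Multiset.map (Prod.fst ∘ fun G : k[X] => (G.map (cst k K), (C s : K[X]))) T.val).prod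
          = ∏ G ∈ T, G.map (cst k K) := rfl
      rw [h3, map_prod, map_prod]
      refine Finset.prod_congr rfl fun G _ => ?_
      have h6 : G.map (cst k K) = (G.map (cst k K')).map (algebraMap K' K) := by
        rw [Polynomial.map_map]
        congr 1
        refine RingHom.ext fun x => ?_
        exact IsScalarTower.algebraMap_apply k[X] K' K (C x)
      rw [h6, aeval_map_algebraMap, aeval_algebraMap_apply, hγ']
    have h3 : Pi0 = algebraMap K' L' (∏ G ∈ T, (-1) ^ G.natDegree) * ∏ G ∈ T, γ G := by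
      rw [hP1, Finset.prod_mul_distrib, map_prod]
      congr 1
      refine Finset.prod_congr rfl fun G _ => ?_
      rw [map_pow, map_neg, map_one]
    have h4 : w = (c₂ / Pi0) ^ 2 * Pi0 := by
      rw [div_pow, ← hc₂]
      field_simp
    have h5 : algebraMap K' K (∏ G ∈ T, (-1) ^ G.natDegree) = ∏ G ∈ T, (-1) ^ G.natDegree := by
      rw [map_prod]
      refine Finset.prod_congr rfl fun G _ => ?_
      rw [map_pow, map_neg, map_one]
    have h6 : algebraMap L' L Pi0 = algebraMap K L (∏ G ∈ T, (-1) ^ G.natDegree) *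
        algebraMap L' L (∏ G ∈ T, γ G) := by
      rw [h3, map_mul, ← IsScalarTower.algebraMap_apply K' L' L,
        IsScalarTower.algebraMap_apply K' K L, h5]
    have h7 : algebraMap L' L w = algebraMap L' L (c₂ / Pi0) ^ 2 * algebraMap L' L Pi0 := by
      conv_lhs => rw [h4]
      rw [map_mul, map_pow]
    rw [h1, hzw, h7, h6]
    ring

end desc

end Pool.Agent.Q45.TT
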