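import Pool.Agent.Q45.TT.RegT
import Pool.Agent.Q45.TW.Bss
import Pool.Agent.Q45.TW.Tat
import Pool.Agent.TH115.TC.Unram2

/-!
# The Tate-Shafarevich group over towers of quadratic extensions
-/

set_option autoImplicit false
set_option linter.all false

open Polynomial IsDedekindDomain WithZero
open scoped Classical

namespace Pool.Agent.Q45.TT

open Pool.Agent.Q45.TW (cst ff ff_monic ff_natDegree ff_map)
open Pool.Agent.Y160.SE (IsPw)
open Pool.Agent.Q45.GP (Regular TateOver)
open Pool.Agent.Y160.SQ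
open Pool.Agent.Y160.RK (ptCl spanD gen_iter no_tor_base)
open Pool.Agent.TH115.GD (val_unram)

section main

variable {k : Type} [Field k] {g : k[X]} {K : Type} [Field K] [Algebra k[X] K]

/-- The field `K(θ)` and its ring of integers. -/
theorem exists_field (hg : g.Monic) (hg0 : 0 < g.natDegree) (hirr : Irreducible (ff g K))
    (hd : derivative g ≠ 0) (hfs : FS k K) (A : Type) [CommRing A] [Algebra k[X] A] [Algebra A K]
    [IsScalarTower k[X] A K] [IsIntegralClosure A k[X] K] :
    ∃ (L R : Type) (_ : Field L) (_ : Algebra k[X] L) (_ : Algebra K L) (_ : CommRing R)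
      (_ : IsDedekindDomain R) (_ : Algebra k[X] R) (_ : Algebra R L) (_ : Algebra A R) (θ : L),
      IsScalarTower k[X] K L ∧ IsScalarTower k[X] R L ∧ IsFractionRing R L ∧
      IsIntegralClosure R k[X] L ∧ Algebra.IsIntegral A R ∧
      (∀ a : A, algebraMap K L (algebraMap A K a) = algebraMap R L (algebraMap A R a)) ∧
      aeval θ (ff g K) = 0 ∧ IntermediateField.adjoin K {θ} = ⊤ ∧ FS k L := by
  haveI : Fact (Irreducible (ff g K)) := ⟨hirr⟩
  have hm : (ff g K).Monic := ff_monic hg hg0
  have hθ : aeval (AdjoinRoot.root (ff g K)) (ff g K) = 0 := by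
    rw [AdjoinRoot.aeval_eq, AdjoinRoot.mk_self]
  have htop : IntermediateField.adjoin K {AdjoinRoot.root (ff g K)} = ⊤ :=
    IntermediateField.adjoin_root_eq_top _
  have hfsL : FS k (AdjoinRoot (ff g K)) := hfs.trans (TW.fin_of hm hθ htop)
    (TW.sep_of (sep_ff hirr hd) hθ htop)
  obtain ⟨R, r1, r2, r3, r4, r5⟩ := exists_ic (k := k) (AdjoinRoot (ff g K))
  obtain ⟨φ, hφ1, hφ2⟩ := exists_alg (k := k) (K' := K) (K := AdjoinRoot (ff g K)) A R
  haveI := hfsL.finite R
  letI : Algebra A R := φ.toAlgebra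
  haveI : IsScalarTower k[X] A R := IsScalarTower.of_algebraMap_eq fun p => (hφ2 p).symm
  haveI : Module.Finite A R := Module.Finite.of_restrictScalars_finite k[X] A R
  exact ⟨AdjoinRoot (ff g K), R, inferInstance, inferInstance, inferInstance, r1, hfsL.ded R, r2, r3,
    inferInstance, AdjoinRoot.root _, inferInstance, r4, hfsL.frac R, r5,
    Algebra.IsIntegral.of_finite A R, fun a => (hφ1 a).symm, hθ, htop, hfsL⟩

theorem two_ne (h2 : (2 : k) ≠ 0) (hinj : Function.Injective (algebraMap k[X] K)) : (2 : K) ≠ 0 :=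
  TW.two_ne h2 hinj

/-- The Tate-Shafarevich group and the generation, from the descent. -/
theorem sha_of (h2 : (2 : k) ≠ 0) (hg : g.Monic) (hodd : Odd g.natDegree)
    (hd : derivative g ≠ 0) (hfs : FS k K) (hirr : Irreducible (ff g K)) {A : Type} [CommRing A]
    [IsDedekindDomain A] [Algebra A K] [IsFractionRing A K] [Algebra k[X] A]
    [IsScalarTower k[X] A K] [IsIntegralClosure A k[X] K] (hS : Regular K (ff g A))
    (PP : Set (K[X] × K[X]))
    (hPP : ∀ P ∈ PP, Irreducible P.1 ∧ P.1.Monic ∧ ¬ P.1 ∣ ff g K ∧ P.1 ∣ ff g K - P.2 ^ 2)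
    (hpts : ∀ (L : Type) [Field L] [Algebra k[X] L] [Algebra K L] [IsScalarTower k[X] K L] (θ : L),
      aeval θ (ff g K) = 0 → IntermediateField.adjoin K {θ} = ⊤ →
      ∀ (R : Type) [CommRing R] [IsDedekindDomain R] [Algebra k[X] R] [Algebra R L]
        [IsScalarTower k[X] R L] [IsFractionRing R L] [IsIntegralClosure R k[X] L] (z : L),
        z ≠ 0 → (∀ w : HeightOneSpectrum R, IsPw 2 (w.valuation L z)) →
        (∃ u : K, Algebra.norm K z = u ^ 2) →
        ∃ (u : K) (w : L) (S : Multiset (K[X] × K[X])), u ≠ 0 ∧ w ≠ 0 ∧ (∀ P ∈ S, P ∈ PP) ∧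
          z = algebraMap K L u * w ^ 2 * aeval θ (dvP S)) :
    ∃ hgd : Good 2 (-1) (ff g K), Pool.Agent.Y160.SH.ShaTriv 2 2 A (ff g K) ∧
      ∀ x : Jac 2 (ff g K) K, ∃ (T : Multiset (K[X] × K[X])) (v : Jac 2 (ff g K) K),
        (∀ P ∈ T, P ∈ PP) ∧
        x = (T.map (ptCl 2 (ff g K))).sum + pe hgd K (1 - X) v := by
  obtain ⟨L, R, i1, i2, i3, i4, i5, i6, i7, i8, θ, i9, i10, i11, i12, hint, hcomp, hθ, htop, hfsL⟩ :=
    exists_field hg hodd.pos hirr hd hfs A
  have hgd : Good 2 (-1) (ff g K) := TW.good h2 hg hodd hfs.inj (sep_ff hirr hd)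
  refine ⟨hgd, ?_⟩
  haveI := hint
  letI : Algebra A L := ((algebraMap K L).comp (algebraMap A K)).toAlgebra
  haveI : IsScalarTower A K L := IsScalarTower.of_algebraMap_eq fun x => rfl
  haveI : IsScalarTower A R L := IsScalarTower.of_algebraMap_eq fun x => hcomp x
  haveI : Module.IsTorsionFree A R := by
    rw [Module.isTorsionFree_iff_algebraMap_injective]
    exact tf_of (K' := K) (K := L) (IsFractionRing.injective A K) fun a => (hcomp a).symm
  have hff : (ff g A).map (algebraMap A K) = ff g K :=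
    ff_map _ fun p => (IsScalarTower.algebraMap_apply k[X] A K p).symm
  have key : ∀ (f1 : K[X]) (h : (ff g A).map (algebraMap A K) = f1) (hgd : Good 2 (-1) f1),
      Irreducible f1 → aeval θ f1 = 0 →
      (∀ P ∈ PP, Irreducible P.1 ∧ P.1.Monic ∧ ¬ P.1 ∣ f1 ∧ P.1 ∣ f1 - P.2 ^ 2) →
      Pool.Agent.Y160.SH.ShaTriv 2 2 A f1 ∧
      ∀ x : Jac 2 f1 K, ∃ (T : Multiset (K[X] × K[X])) (v : Jac 2 f1 K),
        (∀ P ∈ T, P ∈ PP) ∧ x = (T.map (ptCl 2 f1)).sum + pe hgd K (1 - X) v := by
    rintro f1 rfl hgd hirr hθ' hP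
    exact Pool.Agent.Q45.GP.main (p := 2) (m := 1) (ℓ := 2) (A := A) (K := K) (N := L) (R := R)
      Nat.prime_two (by norm_num) (f := ff g A) (ζ := -1) hgd (ff_monic hg hodd.pos)
      hS hirr (θ := θ) hθ' htop PP hP (fun z hz hev hno => hpts L θ hθ htop R z hz hev hno)
  exact key _ hff hgd hirr hθ hPP

end main

section geom

variable {k k' : Type} [Field k] [Field k'] [Algebra k k'] {g : k[X]} {K F : Type} [Field K]
  [Algebra k[X] K] [Field F] [Algebra k'[X] F] [Algebra K F]

open Pool.Agent.Q45.TW (IsGeom)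

/-- The tower over the larger field of constants. -/
theorem IsTower.up {m : ℕ} {s : ℕ → K} (h : IsTower k K m s) (hF : IsGeom k k' K F) :
    IsTower k' F m (fun i => algebraMap K F (s i)) := by
  have hcl : ∀ (i : ℕ) (x : K),
      x ∈ Subfield.closure (Set.range (algebraMap k[X] K) ∪ s '' {j | j < i}) →
      algebraMap K F x ∈ Subfield.closure (Set.range (algebraMap k'[X] F) ∪
        (fun i => algebraMap K F (s i)) '' {j | j < i}) := by
    intro i x hx
    set S := Subfield.closure (Set.range (algebraMap k'[X] F) ∪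
          (fun i => algebraMap K F (s i)) '' {j | j < i}) with hS
    have h3 : Subfield.closure (Set.range (algebraMap k[X] K) ∪ s '' {j | j < i}) ≤
        S.comap (algebraMap K F) := by
      rw [Subfield.closure_le]
      rintro x (⟨p, rfl⟩ | ⟨j, hj, rfl⟩)
      · show algebraMap K F (algebraMap k[X] K p) ∈ S
        rw [hF.comp]
        exact Subfield.subset_closure (Or.inl ⟨_, rfl⟩)
      · exact Subfield.subset_closure (Or.inr ⟨j, hj, rfl⟩)
    exact h3 hx
  refine ⟨hF.inj, fun i hi => ?_, ?_⟩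
  · show algebraMap K F (s i) ^ 2 ∈ _
    rw [← map_pow]
    exact hcl i _ (h.sq i hi)
  · rw [eq_top_iff]
    rintro x -
    have hx : x ∈ IntermediateField.adjoin K (Set.range ((algebraMap k'[X] F).comp C)) := by
      rw [hF.gen]
      trivial
    refine IntermediateField.adjoin_induction K (p := fun x _ => x ∈ Subfield.closure
      (Set.range (algebraMap k'[X] F) ∪ (fun i => algebraMap K F (s i)) '' {j | j < m}))
      ?_ ?_ ?_ ?_ ?_ hx
    · rintro _ ⟨c, rfl⟩
      exact Subfield.subset_closure (Or.inl ⟨_, rfl⟩)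
    · intro x
      exact hcl m x (by rw [h.gen]; trivial)
    · intro x y _ _ hx hy
      exact add_mem hx hy
    · intro x _ hx
      exact inv_mem hx
    · intro x y _ _ hx hy
      exact mul_mem hx hy

/-- The rings of integers. -/
theorem exists_algG (hF : IsGeom k k' K F) (A A' : Type) [CommRing A] [CommRing A']
    [Algebra k[X] A] [Algebra A K] [IsScalarTower k[X] A K] [IsIntegralClosure A k[X] K]
    [Algebra k'[X] A'] [Algebra A' F] [IsScalarTower k'[X] A' F] [IsIntegralClosure A' k'[X] F] :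
    ∃ ψ : A →+* A', (∀ a, algebraMap K F (algebraMap A K a) = algebraMap A' F (ψ a)) ∧
      ∀ p : k[X], ψ (algebraMap k[X] A p) = algebraMap k'[X] A' (p.map (algebraMap k k')) := by
  have hinj : Function.Injective (algebraMap A' F) := IsIntegralClosure.algebraMap_injective A' k'[X] F
  have hex : ∀ a : A, ∃ b : A', algebraMap A' F b = algebraMap K F (algebraMap A K a) := by
    intro a
    apply (IsIntegralClosure.isIntegral_iff (A := A') (R := k'[X])).1
    have h1 : IsIntegral k[X] (algebraMap A K a) :=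
      (IsIntegralClosure.isIntegral k[X] K a).algebraMap
    obtain ⟨P, hP, hPa⟩ := h1
    refine ⟨P.map (mapRingHom (algebraMap k k')), hP.map _, ?_⟩
    rw [eval₂_map]
    have h3 : (algebraMap k'[X] F).comp (mapRingHom (algebraMap k k')) =
        (algebraMap K F).comp (algebraMap k[X] K) := RingHom.ext fun p => (hF.comp p).symm
    rw [h3, ← hom_eval₂, hPa, map_zero]
  choose ψ hψ using hex
  refine ⟨{ toFun := ψ
            map_one' := hinj (by rw [hψ, map_one, map_one, map_one])
            map_mul' := fun a b => hinj (by rw [hψ, map_mul, map_mul, map_mul, hψ, hψ])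
            map_zero' := hinj (by rw [hψ, map_zero, map_zero, map_zero])
            map_add' := fun a b => hinj (by rw [hψ, map_add, map_add, map_add, hψ, hψ]) },
    fun a => (hψ a).symm, fun p => hinj ?_⟩
  show algebraMap A' F (ψ (algebraMap k[X] A p)) = _
  rw [hψ, ← IsScalarTower.algebraMap_apply k[X] A K, hF.comp,
    ← IsScalarTower.algebraMap_apply k'[X] A' F]

/-- The ramified places over the larger field of constants. -/
theorem ram_up [IsGalois k k'] (hF : IsGeom k k' K F) {A A' : Type} [CommRing A]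
    [IsDedekindDomain A] [CommRing A'] [IsDedekindDomain A'] [Algebra k[X] A] [Algebra A K]
    [IsScalarTower k[X] A K] [IsIntegralClosure A k[X] K] [IsFractionRing A K]
    [Algebra k'[X] A'] [Algebra A' F] [IsScalarTower k'[X] A' F] [IsIntegralClosure A' k'[X] F]
    [IsFractionRing A' F] (hfs : FS k K) (v : HeightOneSpectrum A') (b' : k'[X])
    (hb' : Irreducible b') (hbv : algebraMap k'[X] A' b' ∈ v.asIdeal ^ 2) :
    ∃ (b : k[X]) (w : HeightOneSpectrum A), Irreducible b ∧ algebraMap k[X] A b ∈ w.asIdeal ^ 2 ∧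
      algebraMap k'[X] A' (b.map (algebraMap k k')) ∈ v.asIdeal := by
  obtain ⟨ψ, hψ1, hψ2⟩ := exists_algG hF A A'
  letI : Algebra A A' := ψ.toAlgebra
  letI : Algebra k K := ((algebraMap k[X] K).comp C).toAlgebra
  letI : Algebra k' F := ((algebraMap k'[X] F).comp C).toAlgebra
  letI : Algebra k F := ((algebraMap k' F).comp (algebraMap k k')).toAlgebra
  haveI : IsScalarTower k k' F := IsScalarTower.of_algebraMap_eq fun x => rfl
  haveI : IsScalarTower k K F := IsScalarTower.of_algebraMap_eq fun x => by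
    show algebraMap k'[X] F (C (algebraMap k k' x)) = algebraMap K F (algebraMap k[X] K (C x))
    rw [hF.comp, map_C]
  letI : Algebra k' A' := ((algebraMap k'[X] A').comp C).toAlgebra
  haveI : IsScalarTower k' A' F := IsScalarTower.of_algebraMap_eq fun x =>
    IsScalarTower.algebraMap_apply k'[X] A' F (C x)
  letI : Algebra A F := ((algebraMap K F).comp (algebraMap A K)).toAlgebra
  haveI : IsScalarTower A K F := IsScalarTower.of_algebraMap_eq fun x => rfl
  haveI : IsScalarTower A A' F := IsScalarTower.of_algebraMap_eq fun x => hψ1 x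
  haveI : Algebra.IsIntegral A A' := by
    have h1 : (algebraMap k'[X] A').IsIntegral := fun x => IsIntegralClosure.isIntegral k'[X] F x
    have h3 : ((algebraMap k'[X] A').comp (mapRingHom (algebraMap k k'))).IsIntegral :=
      RingHom.IsIntegral.trans _ _ Pool.Agent.TH115.GD.poly_integral h1
    have h4 : (algebraMap k'[X] A').comp (mapRingHom (algebraMap k k')) =
        ψ.comp (algebraMap k[X] A) := RingHom.ext fun p => (hψ2 p).symm
    rw [h4] at h3
    exact ⟨RingHom.IsIntegral.tower_top _ _ h3⟩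
  haveI : Module.IsTorsionFree A A' := by
    rw [Module.isTorsionFree_iff_algebraMap_injective]
    intro x y hxy
    apply IsFractionRing.injective A K
    apply (algebraMap K F).injective
    rw [hψ1, hψ1]
    exact congrArg _ hxy
  have hint : Algebra.IsIntegral k[X] A := ⟨fun x => IsIntegralClosure.isIntegral k[X] K x⟩
  haveI := hint
  obtain ⟨b, -, hb, hbw⟩ := exists_irr (hfs.injB A) (v.under A)
  have hmem : algebraMap k'[X] A' (b.map (algebraMap k k')) ∈ v.asIdeal := by
    have h1 : ψ (algebraMap k[X] A b) ∈ v.asIdeal := hbw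
    rwa [hψ2] at h1
  refine ⟨b, v.under A, hb, ?_, hmem⟩
  -- `b'` divides `b`
  have hdvd : b' ∣ b.map (algebraMap k k') := by
    have hmax : (Ideal.span {b'}).IsMaximal := PrincipalIdealRing.isMaximal_of_irreducible hb'
    have h1 : Ideal.span {b'} ≤ v.asIdeal.comap (algebraMap k'[X] A') := by
      rw [Ideal.span_singleton_le_iff_mem]
      exact (show algebraMap k'[X] A' b' ∈ v.asIdeal from Ideal.pow_le_self two_ne_zero hbv)
    haveI := v.isPrime
    have h3 : v.asIdeal.comap (algebraMap k'[X] A') ≠ ⊤ := (Ideal.comap_isPrime _ _).ne_top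
    have h4 := hmax.eq_of_le h3 h1
    rw [← Ideal.mem_span_singleton, h4]
    exact hmem
  have h5 : algebraMap k'[X] A' (b.map (algebraMap k k')) ∈ v.asIdeal ^ 2 := by
    obtain ⟨q, hq⟩ := hdvd
    rw [hq, map_mul]
    exact Ideal.mul_mem_right _ _ hbv
  have h6 := (v.intValuation_le_pow_iff_mem _ 2).2 h5
  have h7 : v.valuation F (algebraMap A' F (algebraMap k'[X] A' (b.map (algebraMap k k')))) =
      v.intValuation (algebraMap k'[X] A' (b.map (algebraMap k k'))) := v.valuation_of_algebraMap _
  have h8 : (v.under A).valuation K (algebraMap A K (algebraMap k[X] A b)) =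
      (v.under A).intValuation (algebraMap k[X] A b) := (v.under A).valuation_of_algebraMap _
  rw [← (v.under A).intValuation_le_pow_iff_mem, ← h8, ← val_unram k (R := A) hF.gen v,
    ← IsScalarTower.algebraMap_apply k[X] A K, hF.comp,
    IsScalarTower.algebraMap_apply k'[X] A' F, h7]
  exact h6

end geom

end Pool.Agent.Q45.TT
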