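import Pool.Agent.Q45.TT.Fin

/-!
# The places over a marked point
-/

set_option autoImplicit false
set_option linter.all false

open Polynomial IsDedekindDomain WithZero
open scoped Classical

namespace Pool.Agent.Q45.TT

open Pool.Agent.Q45.TW (cst ff ff_monic ff_natDegree ff_map)
open Pool.Agent.Y160.SE (IsPw)

/-- The irreducible factors of `g - c` stay irreducible over the residue field `A / (t + c)`. -/
def ResIrr {k : Type} [Field k] (g : k[X]) (c : k) (A : Type) [CommRing A] [Algebra k[X] A] : Prop :=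
  ∀ G : k[X], G.Monic → Irreducible G → G ∣ g - C c →
    Irreducible (G.map ((Ideal.Quotient.mk (Ideal.span {algebraMap k[X] A (X + C c)})).comp
      (cst k A)))

/-- The monic irreducible factors. -/
noncomputable def facs {k : Type} [Field k] (p : k[X]) : Finset k[X] :=
  (UniqueFactorizationMonoid.normalizedFactors p).toFinset

section facs

variable {k : Type} [Field k] {g : k[X]} {c : k}

theorem mem_facs {p G : k[X]} (hp : p ≠ 0) :
    G ∈ facs p ↔ Irreducible G ∧ G.Monic ∧ G ∣ p := by
  unfold facs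
  rw [Multiset.mem_toFinset]
  exact Polynomial.mem_normalizedFactors_iff hp

theorem prod_facs {p : k[X]} (hm : p.Monic) (hs : p.Separable) : ∏ G ∈ facs p, G = p := by
  have h1 : (UniqueFactorizationMonoid.normalizedFactors p).Nodup :=
    (UniqueFactorizationMonoid.squarefree_iff_nodup_normalizedFactors hs.ne_zero).1 hs.squarefree
  have h3 : ∏ G ∈ facs p, G = (UniqueFactorizationMonoid.normalizedFactors p).prod := by
    unfold facs
    rw [Finset.prod_multiset_count]
    refine Finset.prod_congr rfl fun G hG => ?_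
    rw [Multiset.mem_toFinset] at hG
    rw [Multiset.count_eq_one_of_mem h1 hG, pow_one]
  rw [h3, UniqueFactorizationMonoid.prod_normalizedFactors_eq hs.ne_zero, hm.normalize_eq_self]

theorem sub_monic (hg : g.Monic) (hg0 : 0 < g.natDegree) (c : k) : (g - C c).Monic := by
  refine hg.sub_of_left (lt_of_le_of_lt degree_C_le ?_)
  rw [degree_eq_natDegree hg.ne_zero]
  exact_mod_cast hg0

theorem sum_facs (hg : g.Monic) (hg0 : 0 < g.natDegree) (hs : (g - C c).Separable) :
    ∑ G ∈ facs (g - C c), G.natDegree = g.natDegree := by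
  have h1 := congrArg natDegree (prod_facs (sub_monic hg hg0 c) hs)
  rw [natDegree_prod_of_monic _ _ fun G hG => ((mem_facs hs.ne_zero).1 hG).2.1, natDegree_sub_C]
    at h1
  exact h1

theorem coprime_facs {p : k[X]} (hp : p ≠ 0) {G G' : k[X]} (hG : G ∈ facs p) (hG' : G' ∈ facs p)
    (hne : G ≠ G') : IsCoprime G G' := by
  obtain ⟨h1, h3, -⟩ := (mem_facs hp).1 hG
  obtain ⟨h1', h3', -⟩ := (mem_facs hp).1 hG'
  rw [h1.coprime_iff_not_dvd]
  intro hd
  exact hne (eq_of_monic_of_associated h3 h3' (h1.associated_of_dvd h1' hd))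

end facs

section count

/-- A counting lemma. -/
theorem count_all {ι κ : Type} [Fintype ι] [Fintype κ] (q : κ → ι) (hq : Function.Injective q)
    (e f : ι → ℕ) (he : ∀ i, 0 < e i) (hf : ∀ i, 0 < f i) (d : κ → ℕ) (hd : ∀ j, d j ≤ f (q j))
    (hsum : ∑ i, e i * f i ≤ ∑ j, d j) : (∀ i, ∃ j, q j = i) ∧ ∀ j, e (q j) = 1 := by
  have h1 : ∑ j, e (q j) * f (q j) = ∑ i ∈ Finset.univ.image q, e i * f i := by
    rw [Finset.sum_image fun a _ b _ h => hq h]
  have h3 : ∑ i, e i * f i = ∑ i ∈ Finset.univ.image q, e i * f i +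
      ∑ i ∈ (Finset.univ.image q)ᶜ, e i * f i := (Finset.sum_add_sum_compl _ _).symm
  have h4 : ∑ j, d j ≤ ∑ j, e (q j) * f (q j) := Finset.sum_le_sum fun j _ =>
    (hd j).trans (Nat.le_mul_of_pos_left _ (he _))
  have h5 : ∑ i ∈ (Finset.univ.image q)ᶜ, e i * f i = 0 := by omega
  have h6 : ∑ j, d j = ∑ j, e (q j) * f (q j) := by omega
  constructor
  · intro i
    by_contra hcon
    push Not at hcon
    have h7 : i ∈ (Finset.univ.image q)ᶜ := by
      rw [Finset.mem_compl, Finset.mem_image]
      rintro ⟨j, -, hj⟩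
      exact hcon j hj
    have h8 := (Finset.sum_eq_zero_iff.1 h5) i h7
    exact (Nat.mul_pos (he i) (hf i)).ne' h8
  · intro j
    have h7 : ∀ j ∈ Finset.univ, d j = e (q j) * f (q j) := by
      refine (Finset.sum_eq_sum_iff_of_le fun j _ =>
        (hd j).trans (Nat.le_mul_of_pos_left _ (he _))).1 h6
    have h8 := h7 j (Finset.mem_univ _)
    have h9 := hd j
    rw [h8] at h9
    by_contra hne
    have h10 : 2 ≤ e (q j) := by have := he (q j); omega
    have h11 : 2 * f (q j) ≤ e (q j) * f (q j) := Nat.mul_le_mul_right _ h10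
    have := hf (q j)
    omega

end count

section mark

variable {k : Type} [Field k] {g : k[X]} {c : k} {A R K L : Type} [CommRing A] [IsDedekindDomain A]
  [CommRing R] [IsDedekindDomain R] [Field K] [Field L] [Algebra k[X] A] [Algebra k[X] K]
  [Algebra A K] [IsScalarTower k[X] A K] [IsFractionRing A K] [Algebra k[X] R] [Algebra k[X] L]
  [Algebra R L] [IsScalarTower k[X] R L] [IsFractionRing R L] [Algebra K L] [IsScalarTower k[X] K L]
  [Algebra A R] [IsScalarTower k[X] A R] [Module.Finite A R] [Module.IsTorsionFree A R]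

/-- The residue degree is at least the degree of the factor. -/
theorem deg_le (w : HeightOneSpectrum R) {θ : R} {G : k[X]} (hGw : eval₂ (cst k R) θ G ∈ w.asIdeal)
    {I : Ideal A} (hI : I.IsMaximal) (hlo : w.asIdeal.LiesOver I)
    (hG : Irreducible (G.map ((Ideal.Quotient.mk I).comp (cst k A)))) :
    G.natDegree ≤ w.asIdeal.inertiaDeg A := by
  haveI := hI
  haveI := hlo
  haveI := w.isMaximal
  rw [Ideal.inertiaDeg_eq_of_isMaximal I w.asIdeal]
  letI : Field (A ⧸ I) := Ideal.Quotient.field _
  letI : Field (R ⧸ w.asIdeal) := Ideal.Quotient.field _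
  haveI : Module.Finite (A ⧸ I) (R ⧸ w.asIdeal) := by
    haveI : Module.Finite A (R ⧸ w.asIdeal) := inferInstance
    exact Module.Finite.of_restrictScalars_finite A (A ⧸ I) (R ⧸ w.asIdeal)
  set η : R ⧸ w.asIdeal := Ideal.Quotient.mk _ θ with hη
  have hroot : aeval η (G.map ((Ideal.Quotient.mk I).comp (cst k A))) = 0 := by
    rw [aeval_def, eval₂_map]
    have h1 : (algebraMap (A ⧸ I) (R ⧸ w.asIdeal)).comp ((Ideal.Quotient.mk I).comp (cst k A)) =
        (Ideal.Quotient.mk w.asIdeal).comp (cst k R) := by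
      refine RingHom.ext fun x => ?_
      show algebraMap (A ⧸ I) (R ⧸ w.asIdeal) (Ideal.Quotient.mk I (cst k A x)) =
        Ideal.Quotient.mk w.asIdeal (cst k R x)
      have h3 : cst k R x = algebraMap A R (cst k A x) := IsScalarTower.algebraMap_apply k[X] A R _
      rw [h3]
      rfl
    rw [h1, hη, ← hom_eval₂, Ideal.Quotient.eq_zero_iff_mem]
    exact hGw
  have hint : IsIntegral (A ⧸ I) η := IsIntegral.of_finite _ _
  have h4 : Associated (minpoly (A ⧸ I) η) (G.map ((Ideal.Quotient.mk I).comp (cst k A))) :=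
    (minpoly.irreducible hint).associated_of_dvd hG (minpoly.dvd _ η hroot)
  have h5 := natDegree_eq_of_degree_eq (degree_eq_degree_of_associated h4)
  rw [natDegree_map] at h5
  rw [← h5]
  exact minpoly.natDegree_le η

/-- There is a place of `G(θ)`. -/
theorem exists_pl (hg : g.Monic) (hg0 : 0 < g.natDegree) (hirr : Irreducible (ff g K))
    (hsep : (ff g K).Separable) {θ : R} (hθ : aeval (algebraMap R L θ) (ff g K) = 0)
    (htop : IntermediateField.adjoin K {algebraMap R L θ} = ⊤)
    (hcomp : ∀ a : A, algebraMap K L (algebraMap A K a) = algebraMap R L (algebraMap A R a))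
    (hc : Prime (algebraMap k[X] A (X + C c))) {G : k[X]} (hGm : G.Monic) (hGi : Irreducible G)
    (hGd : G ∣ g - C c) : ∃ w : HeightOneSpectrum R, eval₂ (cst k R) θ G ∈ w.asIdeal := by
  letI : Algebra A L := ((algebraMap K L).comp (algebraMap A K)).toAlgebra
  haveI : IsScalarTower A K L := IsScalarTower.of_algebraMap_eq fun x => rfl
  haveI : IsScalarTower A R L := IsScalarTower.of_algebraMap_eq fun x => hcomp x
  haveI : FiniteDimensional K L := TW.fin_of (ff_monic hg hg0) hθ htop
  have hcst : (algebraMap R L).comp (cst k R) = (algebraMap K L).comp (cst k K) := by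
    refine RingHom.ext fun x => ?_
    show algebraMap R L (algebraMap k[X] R (C x)) = algebraMap K L (algebraMap k[X] K (C x))
    rw [← IsScalarTower.algebraMap_apply k[X] R L, ← IsScalarTower.algebraMap_apply k[X] K L]
  have hev : algebraMap R L (eval₂ (cst k R) θ G) = aeval (algebraMap R L θ) (G.map (cst k K)) := by
    rw [hom_eval₂, hcst, aeval_def, eval₂_map]
  have hno := TW.norm_dvd (cst k K) (algebraMap k[X] K X) hg hg0 hirr hsep hθ htop hGm hGd
  have hnu : ¬ IsUnit ((-1) ^ G.natDegree * eval₂ (cst k R) θ G) := by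
    intro hu
    have h1 := hu.map (Algebra.intNorm A R)
    have h3 : algebraMap A K (Algebra.intNorm A R ((-1) ^ G.natDegree * eval₂ (cst k R) θ G)) =
        algebraMap A K (algebraMap k[X] A (X + C c) ^ G.natDegree) := by
      have h4 : algebraMap A K (Algebra.intNorm A R ((-1) ^ G.natDegree * eval₂ (cst k R) θ G)) =
          Algebra.norm K (algebraMap R L ((-1) ^ G.natDegree * eval₂ (cst k R) θ G)) :=
        Algebra.algebraMap_intNorm _
      rw [h4, map_mul, map_pow, map_neg, map_one, hev, hno, map_pow,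
        ← IsScalarTower.algebraMap_apply k[X] A K, map_add]
      rfl
    rw [IsFractionRing.injective A K h3] at h1
    exact hc.not_unit (isUnit_of_dvd_unit (dvd_pow_self _ hGi.natDegree_pos.ne') h1)
  obtain ⟨M, hM, hle⟩ := exists_max_ideal_of_mem_nonunits hnu
  have hmem : eval₂ (cst k R) θ G ∈ M := by
    have h1 := M.mul_mem_left ((-1) ^ G.natDegree) hle
    rwa [← mul_assoc, ← mul_pow, neg_one_mul, neg_neg, one_pow, one_mul] at h1
  have hG0 : eval₂ (cst k R) θ G ≠ 0 := by
    intro h0
    have h1 : aeval (algebraMap R L θ) (G.map (cst k K)) = 0 := by rw [← hev, h0, map_zero]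
    rw [h1, mul_zero, Algebra.norm_zero] at hno
    have h3 : algebraMap k[X] K X + cst k K c = algebraMap A K (algebraMap k[X] A (X + C c)) := by
      rw [← IsScalarTower.algebraMap_apply k[X] A K, map_add]
      rfl
    rw [h3] at hno
    have h4 := pow_eq_zero_iff hGi.natDegree_pos.ne' |>.1 hno.symm
    exact hc.ne_zero (IsFractionRing.injective A K (by rw [h4, map_zero]))
  have hM0 : M ≠ ⊥ := by
    rintro rfl
    exact hG0 (Ideal.mem_bot.1 hmem)
  exact ⟨⟨M, hM.isPrime, hM0⟩, hmem⟩

/-- **The places over the marked point.** -/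
theorem mark_places (hg : g.Monic) (hg0 : 0 < g.natDegree) (hirr : Irreducible (ff g K))
    (hsep : (ff g K).Separable) {θ : R} (hθ : aeval (algebraMap R L θ) (ff g K) = 0)
    (htop : IntermediateField.adjoin K {algebraMap R L θ} = ⊤)
    (hcomp : ∀ a : A, algebraMap K L (algebraMap A K a) = algebraMap R L (algebraMap A R a))
    (hs : (g - C c).Separable) (hc : Prime (algebraMap k[X] A (X + C c))) (hres : ResIrr g c A) :
    ∃ q : k[X] → HeightOneSpectrum R,
      (∀ G ∈ facs (g - C c), ∀ G' ∈ facs (g - C c),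
        (q G).valuation L (algebraMap R L (eval₂ (cst k R) θ G')) =
          if G' = G then exp (-1 : ℤ) else 1) ∧
      (∀ G ∈ facs (g - C c), (q G).valuation L (algebraMap k[X] L (X + C c)) = exp (-1 : ℤ)) ∧
      (∀ w : HeightOneSpectrum R, algebraMap k[X] R (X + C c) ∈ w.asIdeal →
        ∃ G ∈ facs (g - C c), w = q G) ∧
      ∀ w : HeightOneSpectrum R, algebraMap k[X] R (X + C c) ∉ w.asIdeal →
        ∀ G ∈ facs (g - C c), w.valuation L (algebraMap R L (eval₂ (cst k R) θ G)) = 1 := by
  letI : Algebra A L := ((algebraMap K L).comp (algebraMap A K)).toAlgebra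
  haveI : IsScalarTower A K L := IsScalarTower.of_algebraMap_eq fun x => rfl
  haveI : IsScalarTower A R L := IsScalarTower.of_algebraMap_eq fun x => hcomp x
  haveI : Algebra.IsIntegral A R := Algebra.IsIntegral.of_finite A R
  set τ : A := algebraMap k[X] A (X + C c) with hτ
  have hI0 : Ideal.span {τ} ≠ ⊥ := fun h => hc.ne_zero (Ideal.span_singleton_eq_bot.1 h)
  have hIp : (Ideal.span {τ}).IsPrime := (Ideal.span_singleton_prime hc.ne_zero).2 hc
  let v : HeightOneSpectrum A := ⟨Ideal.span {τ}, hIp, hI0⟩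
  haveI hvm : v.asIdeal.IsMaximal := v.isMaximal
  have hτv : ∀ w : HeightOneSpectrum R, algebraMap A R τ ∈ w.asIdeal ↔ w.under A = v := by
    intro w
    constructor
    · intro h
      apply HeightOneSpectrum.ext
      have h1 : v.asIdeal ≤ (w.under A).asIdeal := by
        show Ideal.span {τ} ≤ _
        rw [Ideal.span_singleton_le_iff_mem]
        exact h
      exact (hvm.eq_of_le (w.under A).isPrime.ne_top h1).symm
    · intro h
      have h1 : τ ∈ (w.under A).asIdeal := by
        rw [h]
        exact Ideal.mem_span_singleton_self τ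
      exact h1
  have hτR : algebraMap A R τ = algebraMap k[X] R (X + C c) :=
    (IsScalarTower.algebraMap_apply k[X] A R _).symm
  -- the equation
  have hprod : ∏ G ∈ facs (g - C c), eval₂ (cst k R) θ G = -algebraMap A R τ := by
    have h1 : ∏ G ∈ facs (g - C c), eval₂ (cst k R) θ G = eval₂ (cst k R) θ (g - C c) := by
      have h3 := congrArg (eval₂RingHom (cst k R) θ) (prod_facs (sub_monic hg hg0 c) hs)
      rw [map_prod] at h3
      exact h3
    rw [h1, hτR]
    apply IsFractionRing.injective R L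
    have h3 := hθ
    have hcst : (algebraMap R L).comp (cst k R) = (algebraMap K L).comp (cst k K) := by
      refine RingHom.ext fun x => ?_
      show algebraMap R L (algebraMap k[X] R (C x)) = algebraMap K L (algebraMap k[X] K (C x))
      rw [← IsScalarTower.algebraMap_apply k[X] R L, ← IsScalarTower.algebraMap_apply k[X] K L]
    rw [aeval_def, TW.eval₂_ff, ← hcst, ← IsScalarTower.algebraMap_apply k[X] K L] at h3
    rw [hom_eval₂, eval₂_sub, eval₂_C, map_neg, ← IsScalarTower.algebraMap_apply k[X] R L, map_add]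
    have h4 : ((algebraMap R L).comp (cst k R)) c = algebraMap k[X] L (C c) :=
      (IsScalarTower.algebraMap_apply k[X] R L (C c)).symm
    rw [h4]
    linear_combination h3
  have hfa : ∀ G ∈ facs (g - C c), Irreducible G ∧ G.Monic ∧ G ∣ g - C c := fun G hG =>
    (mem_facs hs.ne_zero).1 hG
  have hex : ∀ G ∈ facs (g - C c), ∃ w : HeightOneSpectrum R, eval₂ (cst k R) θ G ∈ w.asIdeal :=
    fun G hG => exists_pl (K := K) (L := L) hg hg0 hirr hsep hθ htop hcomp hc (hfa G hG).2.1
      (hfa G hG).1 (hfa G hG).2.2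
  haveI : Nonempty (HeightOneSpectrum R) := by
    have h1 : (facs (g - C c)).Nonempty := by
      rw [Finset.nonempty_iff_ne_empty]
      intro h0
      have h1 := sum_facs hg hg0 hs
      rw [h0, Finset.sum_empty] at h1
      omega
    obtain ⟨G, hG⟩ := h1
    exact ⟨(hex G hG).choose⟩
  choose! q hq using hex
  have hqv : ∀ G ∈ facs (g - C c), (q G).under A = v := by
    intro G hG
    rw [← hτv]
    have h1 : eval₂ (cst k R) θ G ∣ -algebraMap A R τ := by
      rw [← hprod]
      exact Finset.dvd_prod_of_mem _ hG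
    have h3 : algebraMap A R τ ∈ (q G).asIdeal := by
      have h4 := Ideal.mem_of_dvd (q G).asIdeal h1 (hq G hG)
      rwa [neg_mem_iff] at h4
    exact h3
  have hcop : ∀ w : HeightOneSpectrum R, ∀ G ∈ facs (g - C c), ∀ G' ∈ facs (g - C c),
      eval₂ (cst k R) θ G ∈ w.asIdeal → eval₂ (cst k R) θ G' ∈ w.asIdeal → G = G' := by
    intro w G hG G' hG' h1 h3
    by_contra hne
    obtain ⟨a, b, hab⟩ := coprime_facs hs.ne_zero hG hG' hne
    have h4 := congrArg (eval₂ (cst k R) θ) hab
    rw [eval₂_add, eval₂_mul, eval₂_mul, eval₂_one] at h4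
    refine w.isPrime.ne_top ((Ideal.eq_top_iff_one _).2 ?_)
    rw [← h4]
    exact Ideal.add_mem _ (Ideal.mul_mem_left _ _ h1) (Ideal.mul_mem_left _ _ h3)
  have hn : Module.finrank A R = g.natDegree := by
    rw [← IsFractionRing.finrank_eq A K R L, TW.finrank_of hirr (ff_monic hg hg0) hθ htop,
      ff_natDegree hg hg0]
  -- counting
  have hlo : ∀ w : HeightOneSpectrum R, w.under A = v → w.asIdeal.LiesOver v.asIdeal := by
    intro w hw
    rw [← hw]
    exact ⟨rfl⟩
  let qI : facs (g - C c) → v.asIdeal.primesOver R := fun G =>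
    ⟨(q G.1).asIdeal, (q G.1).isPrime, hlo _ (hqv G.1 G.2)⟩
  obtain ⟨hall, he1⟩ := count_all (ι := v.asIdeal.primesOver R) (κ := facs (g - C c)) qI
    (fun G G' h => by
      have h1 : (q G.1).asIdeal = (q G'.1).asIdeal := congrArg Subtype.val h
      apply Subtype.ext
      refine hcop (q G.1) G.1 G.2 G'.1 G'.2 (hq G.1 G.2) ?_
      rw [h1]
      exact hq G'.1 G'.2)
    (fun x => x.1.ramificationIdx A) (fun x => x.1.inertiaDeg A)
    (fun x => by haveI := x.2.1; exact Ideal.ramificationIdx_pos x.1 A)
    (fun x => by haveI := x.2.1; exact Ideal.inertiaDeg_pos x.1 A) (fun G => G.1.natDegree)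
    (fun G => deg_le (q G.1) (hq G.1 G.2) (I := v.asIdeal) hvm (hlo _ (hqv G.1 G.2))
      (hres G.1 (hfa G.1 G.2).2.1 (hfa G.1 G.2).1 (hfa G.1 G.2).2.2)) (by
      rw [sum_ef (B := R) v, hn, Finset.sum_coe_sort (facs (g - C c)) fun G => G.natDegree,
        sum_facs hg hg0 hs])
  have hval : ∀ G ∈ facs (g - C c),
      (q G).valuation L (algebraMap k[X] L (X + C c)) = exp (-1 : ℤ) := by
    intro G hG
    have h1 : algebraMap k[X] L (X + C c) = algebraMap K L (algebraMap A K τ) := by
      rw [hτ, ← IsScalarTower.algebraMap_apply k[X] A K, ← IsScalarTower.algebraMap_apply k[X] K L]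
    rw [h1, val_under (A := A)]
    have h3 : ((q G).under A).asIdeal.ramificationIdx' (q G).asIdeal = 1 := by
      haveI : (q G).asIdeal.LiesOver ((q G).under A).asIdeal := ⟨rfl⟩
      haveI := (q G).isPrime
      rw [Ideal.ramificationIdx'_eq_ramificationIdx _ _ ((q G).under A).ne_bot]
      exact he1 ⟨G, hG⟩
    rw [h3, pow_one, hqv G hG, v.valuation_of_algebraMap]
    have h4 : v.intValuation τ = exp (-1 : ℤ) := v.intValuation_singleton hc.ne_zero rfl
    exact h4
  refine ⟨q, fun G hG G' hG' => ?_, hval, fun w hw => ?_, fun w hw G hG => ?_⟩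
  · have h0 : ∀ G' ∈ facs (g - C c), G' ≠ G →
        (q G).valuation L (algebraMap R L (eval₂ (cst k R) θ G')) = 1 := by
      intro G' hG' hne
      rw [(q G).valuation_of_algebraMap, (q G).intValuation_eq_one_iff]
      exact fun h => hne (hcop (q G) G' hG' G hG h (hq G hG))
    split_ifs with h
    · subst h
      have h1 := congrArg (fun x => (q G').valuation L (algebraMap R L x)) hprod
      simp only [map_prod, map_neg, Valuation.map_neg] at h1
      rw [← Finset.mul_prod_erase _ _ hG, Finset.prod_eq_one fun G'' hG'' =>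
        h0 G'' (Finset.mem_of_mem_erase hG'') (Finset.ne_of_mem_erase hG''), mul_one, hτR,
        ← IsScalarTower.algebraMap_apply k[X] R L, hval G' hG] at h1
      exact h1
    · exact h0 G' hG' h
  · have hwv : w.under A = v := by
      rw [← hτv, hτR]
      exact hw
    obtain ⟨G, hG⟩ := hall ⟨w.asIdeal, w.isPrime, hlo w hwv⟩
    refine ⟨G.1, G.2, ?_⟩
    apply HeightOneSpectrum.ext
    exact (congrArg Subtype.val hG).symm
  · rw [w.valuation_of_algebraMap, w.intValuation_eq_one_iff]
    intro h
    apply hw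
    have h1 : eval₂ (cst k R) θ G ∣ -algebraMap A R τ := by
      rw [← hprod]
      exact Finset.dvd_prod_of_mem _ hG
    have h4 := Ideal.mem_of_dvd w.asIdeal h1 h
    rwa [neg_mem_iff, hτR] at h4

end mark

end Pool.Agent.Q45.TT
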