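import Pool.Agent.Q45.TT.Irr

/-!
# Residue degrees and ramification in towers of quadratic extensions
-/

set_option autoImplicit false
set_option linter.all false

open Polynomial IsDedekindDomain WithZero
open scoped Classical

namespace Pool.Agent.Q45.TT

open Pool.Agent.Q45.TW (cst ff ff_monic ff_natDegree ff_map)
open Pool.Agent.Y160.SE (IsPw)

section setup

variable {k : Type} [Field k] {K' K A' A : Type} [Field K'] [Field K] [Algebra k[X] K']
  [Algebra k[X] K] [Algebra K' K] [CommRing A'] [CommRing A] [Algebra k[X] A'] [Algebra k[X] A]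
  [Algebra A' K'] [Algebra A K] [Algebra A' A]

theorem tf_of (hinj : Function.Injective (algebraMap A' K'))
    (hφ : ∀ a, algebraMap A K (algebraMap A' A a) = algebraMap K' K (algebraMap A' K' a)) :
    Function.Injective (algebraMap A' A) := by
  intro x y hxy
  apply hinj
  apply (algebraMap K' K).injective
  rw [← hφ, ← hφ, hxy]

end setup

section pow

variable {k : Type} [Field k]

/-- The residue degrees are powers of `2`. -/
theorem IsTower.pow (h2 : (2 : k) ≠ 0) {K : Type} [Field K] [Algebra k[X] K] {m : ℕ} {s : ℕ → K}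
    (h : IsTower k K m s) : ∀ (A : Type) [CommRing A] [Algebra k[X] A] [Algebra A K]
    [IsScalarTower k[X] A K] [IsIntegralClosure A k[X] K] (v : HeightOneSpectrum A),
    ∃ j : ℕ, v.asIdeal.inertiaDeg k[X] = 2 ^ j := by
  refine IsTower.ind h2 (M := fun K _ _ => ∀ (A : Type) [CommRing A] [Algebra k[X] A] [Algebra A K]
    [IsScalarTower k[X] A K] [IsIntegralClosure A k[X] K] (v : HeightOneSpectrum A),
    ∃ j : ℕ, v.asIdeal.inertiaDeg k[X] = 2 ^ j) ?_ ?_ m K s h
  · intro K _ _ hK A _ _ _ _ _ v
    have hfs : FS k K := FS.base hK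
    haveI := hfs.ded A
    haveI := hfs.frac A
    haveI := hfs.finite A
    haveI : Module.IsTorsionFree k[X] A := by
      rw [Module.isTorsionFree_iff_algebraMap_injective]
      exact hfs.injB A
    haveI : Algebra.IsIntegral k[X] A := Algebra.IsIntegral.of_finite k[X] A
    obtain ⟨h1, h3⟩ := inertia_le (A := k[X]) (B := A) v
    have h4 : Module.finrank k[X] A = 1 := by
      rw [← IsFractionRing.finrank_eq k[X] K A K, Module.finrank_self]
    refine ⟨0, ?_⟩
    rw [h4] at h1
    rw [pow_zero]
    omega
  · intro K' K _ _ _ _ _ _ D s hq hinj htw ih A _ _ _ _ _ v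
    obtain ⟨m', s', htw⟩ := htw
    have hfs' : FS k K' := htw.fs h2
    have hfs : FS k K := hfs'.trans hq.fin hq.separable
    obtain ⟨A', a1, a2, a3, a4, a5⟩ := exists_ic (k := k) K'
    obtain ⟨φ, hφ1, hφ2⟩ := exists_alg (k := k) (K' := K') (K := K) A' A
    letI : Algebra A' A := φ.toAlgebra
    haveI : IsScalarTower k[X] A' A := IsScalarTower.of_algebraMap_eq fun p => (hφ2 p).symm
    haveI := hfs.ded A
    haveI := hfs.frac A
    haveI := hfs.finite A
    haveI := hfs'.ded A'
    haveI := hfs'.frac A'
    haveI : Module.Finite A' A := Module.Finite.of_restrictScalars_finite k[X] A' A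
    haveI : Algebra.IsIntegral A' A := Algebra.IsIntegral.of_finite A' A
    haveI : Module.IsTorsionFree A' A := by
      rw [Module.isTorsionFree_iff_algebraMap_injective]
      exact tf_of (K' := K') (K := K) (IsFractionRing.injective A' K') hφ1
    haveI hlo : v.asIdeal.LiesOver (v.under A').asIdeal := ⟨rfl⟩
    obtain ⟨h1, h3⟩ := inertia_le (A := A') (B := A) v
    letI : Algebra A' K := ((algebraMap K' K).comp (algebraMap A' K')).toAlgebra
    haveI : IsScalarTower A' K' K := IsScalarTower.of_algebraMap_eq fun _ => rfl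
    haveI : IsScalarTower A' A K := IsScalarTower.of_algebraMap_eq fun a => (hφ1 a).symm
    have h4 : Module.finrank A' A = 2 := by
      rw [← IsFractionRing.finrank_eq A' K' A K, hq.finrank]
    obtain ⟨j, hj⟩ := ih A' (v.under A')
    have h5 := Ideal.inertiaDeg_tower (R := k[X]) (v.under A').asIdeal v.asIdeal
    rw [h4] at h1
    rw [h5, hj]
    have h6 : v.asIdeal.inertiaDeg A' = 1 ∨ v.asIdeal.inertiaDeg A' = 2 := by omega
    rcases h6 with h6 | h6
    · exact ⟨j, by rw [h6, mul_one]⟩
    · exact ⟨j + 1, by rw [h6, pow_succ]⟩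

end pow

section ram

variable {k : Type} [Field k]

/-- The condition on the ramification: if a place of `A` is ramified over the place `b` of `k(t)`,
then the polynomial `b(-g)` is irreducible and separable. -/
def Ram (g : k[X]) (A : Type) [CommRing A] [Algebra k[X] A] : Prop :=
  ∀ (v : HeightOneSpectrum A) (b : k[X]), Irreducible b → algebraMap k[X] A b ∈ v.asIdeal ^ 2 →
    Irreducible (b.comp (-g)) ∧ (b.comp (-g)).Separable

theorem Ram.down {g : k[X]} {A' A : Type} [CommRing A'] [IsDedekindDomain A'] [CommRing A]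
    [IsDedekindDomain A] [Algebra k[X] A'] [Algebra k[X] A] [Algebra A' A] [IsScalarTower k[X] A' A]
    [Algebra.IsIntegral A' A] [Module.IsTorsionFree A' A] (h : Ram g A) : Ram g A' := by
  intro v b hb hbv
  obtain ⟨w, hw⟩ := exists_above (B := A) v
  refine h w b hb ?_
  rw [IsScalarTower.algebraMap_apply k[X] A' A]
  have h1 : v.asIdeal.map (algebraMap A' A) ≤ w.asIdeal := by
    rw [Ideal.map_le_iff_le_comap, ← hw]
    exact le_rfl
  have h3 := Ideal.mem_map_of_mem (algebraMap A' A) hbv
  rw [Ideal.map_pow] at h3
  exact Ideal.pow_right_mono h1 2 h3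

/-- The existence of a polynomial in the place. -/
theorem exists_irr {A : Type} [CommRing A] [IsDedekindDomain A] [Algebra k[X] A]
    [Algebra.IsIntegral k[X] A] (hinj : Function.Injective (algebraMap k[X] A))
    (v : HeightOneSpectrum A) : ∃ b : k[X], b.Monic ∧ Irreducible b ∧
      algebraMap k[X] A b ∈ v.asIdeal := by
  haveI : Module.IsTorsionFree k[X] A := by
    rw [Module.isTorsionFree_iff_algebraMap_injective]
    exact hinj
  set p := v.under k[X] with hp
  have h1 : Submodule.IsPrincipal p.asIdeal := IsPrincipalIdealRing.principal _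
  obtain ⟨a, ha⟩ := h1
  have ha0 : a ≠ 0 := by
    rintro rfl
    apply p.ne_bot
    rw [ha, Submodule.span_zero_singleton]
  have hap : Prime a := by
    have h3 := p.isPrime
    rw [ha] at h3
    exact (Ideal.span_singleton_prime ha0).1 h3
  have ham : a ∈ p.asIdeal := by
    rw [ha]
    exact Submodule.mem_span_singleton_self a
  refine ⟨normalize a, Polynomial.monic_normalize ha0, ?_, ?_⟩
  · exact (normalize_associated a).symm.irreducible hap.irreducible
  · have h3 : normalize a ∈ p.asIdeal := (Ideal.mem_iff_of_associated (normalize_associated a)).2 ham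
    exact h3

end ram

end Pool.Agent.Q45.TT
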