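import Pool.Agent.Q45.TW.Nm

/-!
# Quadratic extensions of fields
-/

set_option autoImplicit false
set_option linter.all false

open Polynomial
open scoped Classical

namespace Pool.Agent.Q45.TT

open Pool.Agent.Q45.TW (norm_roots)

/-- The field `K` is the quadratic extension of `K'` generated by a square root `s` of `D`. -/
structure IsQuad {K' K : Type} [Field K'] [Field K] [Algebra K' K] (D : K') (s : K) : Prop where
  two : (2 : K') ≠ 0
  sq : s ^ 2 = algebraMap K' K D
  nmem : ∀ x : K', algebraMap K' K x ≠ s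
  top : IntermediateField.adjoin K' {s} = ⊤

section quad

variable {K K' : Type} [Field K'] [Field K] [Algebra K' K] {D : K'} {s : K}

theorem IsQuad.not_sq (h : IsQuad D s) (b : K') : b ^ 2 ≠ D := by
  intro hb
  have h1 : (algebraMap K' K b - s) * (algebraMap K' K b + s) = 0 := by
    have h3 : algebraMap K' K b ^ 2 = s ^ 2 := by rw [← map_pow, hb, h.sq]
    linear_combination h3
  rcases mul_eq_zero.1 h1 with h3 | h3
  · exact h.nmem b (sub_eq_zero.1 h3)
  · refine h.nmem (-b) ?_
    rw [map_neg]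
    linear_combination -h3

theorem IsQuad.ne_zero (h : IsQuad D s) : D ≠ 0 := fun h0 => h.not_sq 0 (by rw [h0]; ring)

theorem IsQuad.s_ne (h : IsQuad D s) : s ≠ 0 := fun h0 => h.nmem 0 (by rw [h0, map_zero])

theorem IsQuad.irr (h : IsQuad D s) : Irreducible (X ^ 2 - C D : K'[X]) :=
  X_pow_sub_C_irreducible_of_prime Nat.prime_two h.not_sq

theorem IsQuad.mon (D : K') : (X ^ 2 - C D : K'[X]).Monic := monic_X_pow_sub_C _ (by norm_num)

theorem IsQuad.root (h : IsQuad D s) : aeval s (X ^ 2 - C D : K'[X]) = 0 := by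
  rw [map_sub, map_pow, aeval_X, aeval_C, h.sq, sub_self]

theorem IsQuad.sep (h : IsQuad D s) : (X ^ 2 - C D : K'[X]).Separable := by
  refine separable_X_pow_sub_C D ?_ h.ne_zero
  push_cast
  exact h.two

theorem IsQuad.fin (h : IsQuad D s) : FiniteDimensional K' K :=
  TW.fin_of (IsQuad.mon D) h.root h.top

theorem IsQuad.separable (h : IsQuad D s) : Algebra.IsSeparable K' K :=
  TW.sep_of h.sep h.root h.top

theorem IsQuad.finrank (h : IsQuad D s) : Module.finrank K' K = 2 := by
  rw [TW.finrank_of h.irr (IsQuad.mon D) h.root h.top, natDegree_X_pow_sub_C]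

theorem IsQuad.twoK (h : IsQuad D s) : (2 : K) ≠ 0 := by
  have h3 : (2 : K) = algebraMap K' K 2 := by rw [map_ofNat]
  rw [h3]
  exact (_root_.map_ne_zero _).2 h.two

theorem IsQuad.rep (h : IsQuad D s) (x : K) :
    ∃ a b : K', x = algebraMap K' K a + algebraMap K' K b * s := by
  obtain ⟨P, rfl⟩ := TW.exists_aeval (IsQuad.mon D) h.root h.top x
  have hdeg : (X ^ 2 - C D : K'[X]).degree = 2 := degree_X_pow_sub_C (by norm_num) _
  have h1 : aeval s P = aeval s (P %ₘ (X ^ 2 - C D)) := by
    have h3 := congrArg (aeval s) (modByMonic_add_div P (X ^ 2 - C D))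
    rw [map_add, map_mul, h.root, zero_mul, add_zero] at h3
    exact h3.symm
  have h3 : (P %ₘ (X ^ 2 - C D)).degree < 2 := hdeg ▸ degree_modByMonic_lt P (IsQuad.mon D)
  have h4 := eq_X_add_C_of_degree_le_one (p := P %ₘ (X ^ 2 - C D)) (by
    have h5 : (P %ₘ (X ^ 2 - C D)).degree < ((1 : ℕ) + 1 : ℕ) := h3
    exact Order.le_of_lt_succ (by exact_mod_cast h5))
  refine ⟨(P %ₘ (X ^ 2 - C D)).coeff 0, (P %ₘ (X ^ 2 - C D)).coeff 1, ?_⟩
  rw [h1]
  conv_lhs => rw [h4]
  rw [map_add, map_mul, aeval_C, aeval_C, aeval_X, add_comm]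

theorem IsQuad.uniq (h : IsQuad D s) {a b : K'}
    (hab : algebraMap K' K a + algebraMap K' K b * s = 0) : a = 0 ∧ b = 0 := by
  have hb : b = 0 := by
    by_contra hb
    refine h.nmem (-a / b) ?_
    have hb' : algebraMap K' K b ≠ 0 := (_root_.map_ne_zero _).2 hb
    rw [map_div₀, map_neg, div_eq_iff hb']
    linear_combination -hab
  refine ⟨?_, hb⟩
  rw [hb, map_zero, zero_mul, add_zero] at hab
  exact (_root_.map_eq_zero _).1 hab

theorem IsQuad.norm (h : IsQuad D s) (a b : K') :
    Algebra.norm K' (algebraMap K' K a + algebraMap K' K b * s) = a ^ 2 - b ^ 2 * D := by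
  let E := AlgebraicClosure K
  have e1 : algebraMap K' K a + algebraMap K' K b * s = aeval s (C a + C b * X : K'[X]) := by
    rw [map_add, map_mul, aeval_C, aeval_C, aeval_X]
  apply (algebraMap K' E).injective
  rw [e1, norm_roots h.irr (IsQuad.mon D) h.sep h.root h.top E]
  set σ : E := algebraMap K E s with hσ
  have hσ2 : σ ^ 2 = algebraMap K' E D := by
    rw [hσ, ← map_pow, h.sq, ← IsScalarTower.algebraMap_apply]
  have h3 : (X ^ 2 - C D : K'[X]).map (algebraMap K' E) = (X - C σ) * (X - C (-σ)) := by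
    rw [Polynomial.map_sub, Polynomial.map_pow, map_X, map_C, ← hσ2, C_neg, C_pow]
    ring
  rw [h3, roots_mul (mul_ne_zero (X_sub_C_ne_zero _) (X_sub_C_ne_zero _)), roots_X_sub_C,
    roots_X_sub_C, Multiset.map_add, Multiset.prod_add, Multiset.map_singleton,
    Multiset.map_singleton, Multiset.prod_singleton, Multiset.prod_singleton]
  simp only [map_add, map_mul, map_sub, map_pow, aeval_C, aeval_X]
  rw [← hσ2]
  ring

theorem IsQuad.trace (h : IsQuad D s) (a b : K') :
    Algebra.trace K' K (algebraMap K' K a + algebraMap K' K b * s) = 2 * a := by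
  have h0 : Algebra.trace K' K s = 0 := by
    have hint : IsIntegral K' s := ⟨_, IsQuad.mon D, h.root⟩
    have htop' : Algebra.adjoin K' {s} = ⊤ := by
      have h3 := IntermediateField.adjoin_simple_toSubalgebra_of_isAlgebraic hint.isAlgebraic
      rw [h.top] at h3
      exact h3.symm
    have hmin : minpoly K' s = X ^ 2 - C D :=
      (minpoly.eq_of_irreducible_of_monic h.irr h.root (IsQuad.mon D)).symm
    have h3 := PowerBasis.trace_gen_eq_nextCoeff_minpoly (PowerBasis.ofAdjoinEqTop' hint htop')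
    rw [PowerBasis.ofAdjoinEqTop'_gen, hmin] at h3
    rw [h3, nextCoeff_of_natDegree_pos (by rw [natDegree_X_pow_sub_C]; norm_num),
      natDegree_X_pow_sub_C]
    simp
  have e1 : algebraMap K' K a + algebraMap K' K b * s = a • (1 : K) + b • s := by
    rw [Algebra.smul_def, Algebra.smul_def, mul_one]
  rw [e1, map_add, map_smul, map_smul, h0, smul_zero, add_zero]
  have h4 : Algebra.trace K' K (1 : K) = 2 := by
    have h5 := Algebra.trace_algebraMap (S := K) (1 : K')
    rw [map_one, h.finrank] at h5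
    rw [h5]
    norm_num
  rw [h4, smul_eq_mul, mul_comm]

/-- Squares of `K` which are in `K'`. -/
theorem IsQuad.sq_base (h : IsQuad D s) {ν : K'} {κ : K} (hκ : κ ^ 2 = algebraMap K' K ν) :
    ∃ c : K', ν = c ^ 2 ∨ ν = c ^ 2 * D := by
  obtain ⟨c, d, rfl⟩ := h.rep κ
  have h1 : algebraMap K' K (c ^ 2 + d ^ 2 * D - ν) + algebraMap K' K (2 * c * d) * s = 0 := by
    simp only [map_add, map_sub, map_mul, map_pow, map_ofNat]
    linear_combination hκ - (algebraMap K' K d) ^ 2 * h.sq
  obtain ⟨h3, h4⟩ := h.uniq h1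
  rcases mul_eq_zero.1 h4 with h5 | h5
  · have h6 : c = 0 := (mul_eq_zero.1 h5).resolve_left h.two
    exact ⟨d, Or.inr (by rw [h6] at h3; linear_combination -h3)⟩
  · exact ⟨c, Or.inl (by rw [h5] at h3; linear_combination -h3)⟩

/-- Elements whose norm is a square. -/
theorem IsQuad.hilbert (h : IsQuad D s) {z : K} (hz : z ≠ 0) {y : K'}
    (hy : Algebra.norm K' z = y ^ 2) :
    ∃ (w : K') (ρ : K), w ≠ 0 ∧ ρ ≠ 0 ∧ z = algebraMap K' K w * ρ ^ 2 := by
  obtain ⟨a, b, rfl⟩ := h.rep z
  rw [h.norm] at hy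
  -- a choice of the sign
  obtain ⟨y, hy, hay⟩ : ∃ y : K', a ^ 2 - b ^ 2 * D = y ^ 2 ∧ a + y ≠ 0 := by
    by_cases h0 : a + y = 0
    · refine ⟨-y, by rw [hy]; ring, fun h1 => ?_⟩
      have ha : a = 0 := by
        have h3 : 2 * a = 0 := by linear_combination h0 + h1
        exact (mul_eq_zero.1 h3).resolve_left h.two
      have hy0 : y = 0 := by rw [ha, zero_add] at h0; exact h0
      rw [ha, hy0] at hy
      have h3 : b ^ 2 * D = 0 := by linear_combination -hy
      have hb : b = 0 := by
        rcases mul_eq_zero.1 h3 with h4 | h4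
        · exact pow_eq_zero_iff (two_ne_zero) |>.1 h4
        · exact absurd h4 h.ne_zero
      apply hz
      rw [ha, hb, map_zero, zero_mul, add_zero]
    · exact ⟨y, hy, h0⟩
  have h2a : 2 * (a + y) ≠ 0 := mul_ne_zero h.two hay
  have h2a' : algebraMap K' K (2 * (a + y)) ≠ 0 := (_root_.map_ne_zero _).2 h2a
  set τ : K := algebraMap K' K (a + y) + algebraMap K' K b * s with hτ
  have key : (algebraMap K' K a + algebraMap K' K b * s) * algebraMap K' K (2 * (a + y)) = τ ^ 2 := by
    have h3 : (algebraMap K' K a) ^ 2 - (algebraMap K' K b) ^ 2 * algebraMap K' K D =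
        (algebraMap K' K y) ^ 2 := by
      rw [← map_pow, ← map_pow, ← map_mul, ← map_sub, hy, map_pow]
    rw [hτ]
    simp only [map_add, map_mul, map_ofNat]
    linear_combination h3 - (algebraMap K' K b) ^ 2 * h.sq
  refine ⟨2 * (a + y), τ / algebraMap K' K (2 * (a + y)), h2a, ?_, ?_⟩
  · refine div_ne_zero ?_ h2a'
    intro h0
    rw [h0] at key
    rcases mul_eq_zero.1 (key.trans (by ring)) with h3 | h3
    · exact hz h3
    · exact h2a' h3
  · rw [div_pow, ← key]
    field_simp

end quad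

end Pool.Agent.Q45.TT
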