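import Pool.Agent.Q45.TT.Dv
import Pool.Agent.Q45.TW.Sm

/-!
# Regularity
-/

set_option autoImplicit false
set_option linter.all false

open Polynomial IsDedekindDomain WithZero
open scoped Classical

namespace Pool.Agent.Q45.TT

open Pool.Agent.Q45.TW (cst ff ff_monic ff_natDegree ff_map)
open Pool.Agent.Y160.SE (IsPw)
open Pool.Agent.Y228.SE (approx_poly mem_sq_of_dvd)
open Pool.Agent.Q45.GP (Regular)

/-- The map `δ` applied to the coefficients. -/
noncomputable def dq {A O : Type} [CommRing A] [CommRing O] (δ : A → O) (f : A[X]) : O[X] :=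
  f.sum fun i a => C (δ a) * X ^ i

section dq

variable {A O : Type} [CommRing A] [CommRing O] [Algebra A O] {δ : A → O} (h0 : δ 0 = 0)
  (hadd : ∀ x y, δ (x + y) = δ x + δ y)
  (hmul : ∀ x y, δ (x * y) = δ x * algebraMap A O y + algebraMap A O x * δ y)

include h0 in
theorem coeff_dq (f : A[X]) (n : ℕ) : (dq δ f).coeff n = δ (f.coeff n) := by
  rw [dq, Polynomial.sum_def, finset_sum_coeff]
  simp only [coeff_C_mul, coeff_X_pow]
  simp only [mul_ite, mul_one, mul_zero]
  rw [Finset.sum_ite_eq]
  split_ifs with h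
  · rfl
  · rw [notMem_support_iff.1 h, h0]

include h0 hadd in
theorem dq_add (f g : A[X]) : dq δ (f + g) = dq δ f + dq δ g := by
  ext1 n
  rw [coeff_add, coeff_dq h0, coeff_dq h0, coeff_dq h0, coeff_add, hadd]

include h0 hadd hmul in
theorem dq_mul (f g : A[X]) : dq δ (f * g) = dq δ f * g.map (algebraMap A O) +
    f.map (algebraMap A O) * dq δ g := by
  ext1 n
  have hsum : ∀ (s : Finset (ℕ × ℕ)) (F : ℕ × ℕ → A), δ (∑ x ∈ s, F x) = ∑ x ∈ s, δ (F x) := by
    intro s F
    induction s using Finset.induction_on with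
    | empty => rw [Finset.sum_empty, Finset.sum_empty, h0]
    | insert a s ha ih => rw [Finset.sum_insert ha, Finset.sum_insert ha, hadd, ih]
  rw [coeff_add, coeff_dq h0, coeff_mul, coeff_mul, coeff_mul, hsum, ← Finset.sum_add_distrib]
  refine Finset.sum_congr rfl fun x _ => ?_
  rw [coeff_dq h0, coeff_dq h0, hmul, coeff_map, coeff_map]

end dq

section reg

variable {A F : Type} [CommRing A] [IsDedekindDomain A] [Field F] [Algebra A F]
  [IsFractionRing A F]

/-- Regularity at a place with a derivation. -/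
theorem reg_der (v : HeightOneSpectrum A) {δ : A → v.adicCompletionIntegers F} (h0 : δ 0 = 0)
    (hadd : ∀ x y, δ (x + y) = δ x + δ y)
    (hmul : ∀ x y, δ (x * y) = δ x * algebraMap A (v.adicCompletionIntegers F) y +
      algebraMap A (v.adicCompletionIntegers F) x * δ y) (f : A[X]) (hf : dq δ f = 1)
    (a : (v.adicCompletionIntegers F)[X]) (ha : a.Monic)
    (hirr : Irreducible (a.map (IsLocalRing.residue (v.adicCompletionIntegers F)))) :
    f.map (algebraMap A (v.adicCompletionIntegers F)) ∉
      (Ideal.span {a} ⊔ (IsLocalRing.maximalIdeal (v.adicCompletionIntegers F)).map C) ^ 2 := by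
  intro hmem
  obtain ⟨π, hπ⟩ := v.intValuation_exists_uniformizer
  set φ : A[X] →+* (v.adicCompletionIntegers F)[X] :=
    mapRingHom (algebraMap A (v.adicCompletionIntegers F)) with hφ
  set J : Ideal (v.adicCompletionIntegers F)[X] :=
    Ideal.span {a} ⊔ (IsLocalRing.maximalIdeal (v.adicCompletionIntegers F)).map C with hJ
  set J0 : Ideal A[X] := J.comap φ with hJ0
  have hvm : ∀ c ∈ v.asIdeal, algebraMap A (v.adicCompletionIntegers F) c ∈
      IsLocalRing.maximalIdeal (v.adicCompletionIntegers F) := by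
    intro c hc
    rw [IsLocalRing.mem_maximalIdeal, mem_nonunits_iff,
      HeightOneSpectrum.adicCompletionIntegers.isUnit_iff_valued_eq_one]
    change ¬ Valued.v ((algebraMap A F c : F) : v.adicCompletion F) = 1
    rw [HeightOneSpectrum.valuedAdicCompletion_eq_valuation']
    exact ((v.valuation_lt_one_iff_mem c).2 hc).ne
  have hπv : π ∈ v.asIdeal := by
    rw [← v.intValuation_lt_one_iff_mem, hπ, ← exp_zero]
    exact exp_lt_exp.2 (by norm_num)
  have hCJ : ∀ m ∈ IsLocalRing.maximalIdeal (v.adicCompletionIntegers F), C m ∈ J := fun m hm =>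
    Ideal.mem_sup_right (Ideal.mem_map_of_mem C hm)
  have hCπ : C (algebraMap A (v.adicCompletionIntegers F) π ^ 2) ∈ J := by
    refine hCJ _ ?_
    exact Ideal.pow_mem_of_mem _ (hvm π hπv) 2 (by norm_num)
  have hC0 : v.asIdeal.map C ≤ J0 := by
    rw [Ideal.map_le_iff_le_comap]
    intro c hc
    rw [Ideal.mem_comap, hJ0, Ideal.mem_comap]
    have : φ (C c) = C (algebraMap A (v.adicCompletionIntegers F) c) := by
      rw [hφ, coe_mapRingHom, map_C]
    rw [this]
    exact hCJ _ (hvm c hc)
  -- approximation of the elements of `J ^ 2`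
  have key : ∀ w ∈ J ^ 2, ∃ w0 ∈ J0 ^ 2, ∃ h : (v.adicCompletionIntegers F)[X],
      w = φ w0 + C (algebraMap A (v.adicCompletionIntegers F) π ^ 2) * h := by
    intro w hw
    rw [pow_two] at hw
    refine Submodule.mul_induction_on hw ?_ ?_
    · intro m hm n hn
      obtain ⟨m0, m1, hm1⟩ := approx_poly (F := F) v π hπ m
      obtain ⟨n0, n1, hn1⟩ := approx_poly (F := F) v π hπ n
      have hm0 : m0 ∈ J0 := by
        rw [hJ0, Ideal.mem_comap]
        have : φ m0 = m - C (algebraMap A (v.adicCompletionIntegers F) π ^ 2) * m1 := by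
          rw [hm1]
          change _ = φ m0 + _ - _
          ring
        rw [this]
        exact Ideal.sub_mem _ hm (Ideal.mul_mem_right _ _ hCπ)
      have hn0 : n0 ∈ J0 := by
        rw [hJ0, Ideal.mem_comap]
        have : φ n0 = n - C (algebraMap A (v.adicCompletionIntegers F) π ^ 2) * n1 := by
          rw [hn1]
          change _ = φ n0 + _ - _
          ring
        rw [this]
        exact Ideal.sub_mem _ hn (Ideal.mul_mem_right _ _ hCπ)
      refine ⟨m0 * n0, ?_, φ m0 * n1 + m1 * φ n0 +
        C (algebraMap A (v.adicCompletionIntegers F) π ^ 2) * m1 * n1, ?_⟩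
      · rw [pow_two]
        exact Ideal.mul_mem_mul hm0 hn0
      · have e1 : m = φ m0 + C (algebraMap A (v.adicCompletionIntegers F) π ^ 2) * m1 := hm1
        have e2 : n = φ n0 + C (algebraMap A (v.adicCompletionIntegers F) π ^ 2) * n1 := hn1
        rw [map_mul]
        conv_lhs => rw [e1, e2]
        ring
    · rintro x y ⟨x0, hx0, x1, hx⟩ ⟨y0, hy0, y1, hy⟩
      refine ⟨x0 + y0, Ideal.add_mem _ hx0 hy0, x1 + y1, ?_⟩
      rw [map_add]
      linear_combination hx + hy
  obtain ⟨w0, hw0, h, hw⟩ := key _ hmem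
  have hfw : f - w0 ∈ J0 ^ 2 := by
    have h1 : φ (f - w0) = C (algebraMap A (v.adicCompletionIntegers F) π ^ 2) * h := by
      rw [map_sub]
      have : φ f = f.map (algebraMap A (v.adicCompletionIntegers F)) := rfl
      rw [this, hw]
      ring
    have h2 : f - w0 ∈ (v.asIdeal ^ 2).map C := by
      rw [Ideal.mem_map_C_iff]
      intro n
      refine mem_sq_of_dvd (F := F) v π hπ _ (h.coeff n) ?_
      have h3 := congrArg (fun p => coeff p n) h1
      simp only [coeff_C_mul] at h3
      rw [← h3, hφ, coe_mapRingHom, coeff_map]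
    rw [Ideal.map_pow] at h2
    exact Ideal.pow_right_mono hC0 2 h2
  have hfJ : f ∈ J0 ^ 2 := by
    have := Ideal.add_mem _ hfw hw0
    rwa [sub_add_cancel] at this
  have hd : ∀ w ∈ J0 ^ 2, dq δ w ∈ J := by
    intro w hw
    rw [pow_two] at hw
    refine Submodule.mul_induction_on hw ?_ ?_
    · intro m hm n hn
      rw [dq_mul h0 hadd hmul]
      exact J.add_mem (J.mul_mem_left _ hn) (J.mul_mem_right _ hm)
    · intro x y h1 h2
      rw [dq_add h0 hadd]
      exact J.add_mem h1 h2
  have hone : (1 : (v.adicCompletionIntegers F)[X]) ∈ J := by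
    rw [← hf]
    exact hd f hfJ
  have hle : J ≤ (Ideal.span {a.map (IsLocalRing.residue (v.adicCompletionIntegers F))}).comap
      (mapRingHom (IsLocalRing.residue (v.adicCompletionIntegers F))) := by
    rw [hJ, sup_le_iff]
    constructor
    · rw [Ideal.span_le, Set.singleton_subset_iff, SetLike.mem_coe, Ideal.mem_comap]
      exact Ideal.subset_span rfl
    · rw [Ideal.map_le_iff_le_comap]
      intro m hm
      rw [Ideal.mem_comap, Ideal.mem_comap, coe_mapRingHom, map_C,
        (IsLocalRing.residue_eq_zero_iff _).2 hm, C_0]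
      exact Ideal.zero_mem _
  have h4 := hle hone
  rw [Ideal.mem_comap, map_one, ← Ideal.eq_top_iff_one, Ideal.span_singleton_eq_top] at h4
  exact hirr.not_isUnit h4

/-- Regularity at a place with a separable fibre. -/
theorem reg_sep (v : HeightOneSpectrum A) (f : A[X])
    (hf : (f.map ((IsLocalRing.residue (v.adicCompletionIntegers F)).comp
      (algebraMap A (v.adicCompletionIntegers F)))).Separable)
    (a : (v.adicCompletionIntegers F)[X]) (ha : a.Monic)
    (hirr : Irreducible (a.map (IsLocalRing.residue (v.adicCompletionIntegers F)))) :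
    f.map (algebraMap A (v.adicCompletionIntegers F)) ∉
      (Ideal.span {a} ⊔ (IsLocalRing.maximalIdeal (v.adicCompletionIntegers F)).map C) ^ 2 := by
  intro hmem
  set ρ := IsLocalRing.residue (v.adicCompletionIntegers F) with hρ
  have hle : (Ideal.span {a} ⊔ (IsLocalRing.maximalIdeal (v.adicCompletionIntegers F)).map C) ≤
      (Ideal.span {a.map ρ}).comap (mapRingHom ρ) := by
    rw [sup_le_iff]
    constructor
    · rw [Ideal.span_le, Set.singleton_subset_iff, SetLike.mem_coe, Ideal.mem_comap]
      exact Ideal.subset_span rfl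
    · rw [Ideal.map_le_iff_le_comap]
      intro m hm
      rw [Ideal.mem_comap, Ideal.mem_comap, coe_mapRingHom, map_C, hρ,
        (IsLocalRing.residue_eq_zero_iff _).2 hm, C_0]
      exact Ideal.zero_mem _
  have h1 : f.map (algebraMap A (v.adicCompletionIntegers F)) ∈
      ((Ideal.span {a.map ρ}).comap (mapRingHom ρ)) ^ 2 := Ideal.pow_right_mono hle 2 hmem
  have h3 := Ideal.mem_map_of_mem (mapRingHom ρ) h1
  rw [Ideal.map_pow] at h3
  have h4 := Ideal.pow_right_mono (Ideal.map_comap_le (f := mapRingHom ρ)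
    (K := Ideal.span {a.map ρ})) 2 h3
  rw [Ideal.span_singleton_pow, Ideal.mem_span_singleton, coe_mapRingHom, Polynomial.map_map] at h4
  have h5 := hf.squarefree (a.map ρ) (by rw [← pow_two]; exact h4)
  exact hirr.not_isUnit h5

end reg

end Pool.Agent.Q45.TT
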