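import Pool.Agent.Q45.TT.Pow

/-!
# The descent in a quadratic extension
-/

set_option autoImplicit false
set_option linter.all false

open Polynomial IsDedekindDomain WithZero
open scoped Classical

namespace Pool.Agent.Q45.TT

open Pool.Agent.Q45.TW (cst ff ff_monic ff_natDegree ff_map)
open Pool.Agent.Y160.SE (IsPw)

section ring

variable {A K B L : Type} [CommRing A] [IsDedekindDomain A] [Field K] [Algebra A K]
  [IsFractionRing A K] [CommRing B] [IsDedekindDomain B] [Field L] [Algebra B L] [IsFractionRing B L]
  [Algebra K L] [Algebra A B] [Algebra A L] [IsScalarTower A K L] [IsScalarTower A B L]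
  [Module.IsTorsionFree A B]

/-- If `D` has odd valuation, then the extension by a square root of `D` is ramified. -/
theorem ram_of_odd [Algebra.IsIntegral A B] {D : K} {s : L} (h : IsQuad D s)
    (w : HeightOneSpectrum B) (hodd : ¬ IsPw 2 ((w.under A).valuation K D)) :
    (w.under A).asIdeal.map (algebraMap A B) ≤ w.asIdeal ^ 2 := by
  have hle : (w.under A).asIdeal.map (algebraMap A B) ≤ w.asIdeal := by
    rw [Ideal.map_le_iff_le_comap]
    exact le_rfl
  refine (Ideal.ramificationIdx'_ne_one_iff hle).1 fun he => hodd ?_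
  have h1 := val_under (A := A) (L := L) w D
  rw [he, pow_one, ← h.sq, map_pow] at h1
  rw [← h1]
  exact IsPw.self _

/-- Descent of the parity of the valuation. -/
theorem even_down [Module.Finite A B] {D : K} {s : L} (h : IsQuad D s) (h2 : IsUnit (2 : A))
    (v : HeightOneSpectrum A) (hev : IsPw 2 (v.valuation K D)) {x : K}
    (hx : ∀ w : HeightOneSpectrum B, IsPw 2 (w.valuation L (algebraMap K L x))) :
    IsPw 2 (v.valuation K x) := by
  haveI : Algebra.IsIntegral A B := Algebra.IsIntegral.of_finite A B
  obtain ⟨w, rfl⟩ := exists_above (B := B) v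
  have h1 := hx w
  rwa [val_under (A := A), ram_one h h2 w hev, pow_one] at h1

end ring

section inert

variable {k : Type} [Field k] {A' R' : Type} [CommRing A'] [IsDedekindDomain A'] [CommRing R']
  [IsDedekindDomain R'] [Algebra A' R'] [Algebra k[X] A'] [Algebra k[X] R']
  [IsScalarTower k[X] A' R'] [Module.IsTorsionFree A' R'] [Module.Finite A' R']
  [Module.Finite k[X] R'] [Module.IsTorsionFree k[X] R']

theorem inert_q [Algebra.IsIntegral A' R'] (q : HeightOneSpectrum R') {b g : k[X]}
    (hb : Irreducible b) (hbq : algebraMap k[X] R' b ∈ q.asIdeal) (θ : R')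
    (hθ : eval₂ (cst k R') θ g = -algebraMap k[X] R' X) (hirr : Irreducible (b.comp (-g)))
    (hodd : Odd g.natDegree) (hn : Module.finrank A' R' = g.natDegree) {j : ℕ}
    (hj : (q.under A').asIdeal.inertiaDeg k[X] = 2 ^ j) :
    (q.under A').asIdeal.map (algebraMap A' R') = q.asIdeal := by
  haveI hlo : q.asIdeal.LiesOver (q.under A').asIdeal := ⟨rfl⟩
  refine inert_of q ?_
  rw [hn]
  have h1 := dvd_inertia q hb hbq θ hθ hirr
  rw [Ideal.inertiaDeg_tower (R := k[X]) (q.under A').asIdeal q.asIdeal, hj] at h1
  exact ((Nat.coprime_two_right.2 hodd).pow_right j).dvd_of_dvd_mul_left h1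

end inert

section sub

variable {k : Type} [Field k]

theorem exists_sub {K' L : Type} [Field K'] [Field L] [Algebra k[X] K'] [Algebra k[X] L]
    [Algebra K' L] [IsScalarTower k[X] K' L] (θ : L) :
    ∃ (L' : Type) (_ : Field L') (_ : Algebra k[X] L') (_ : Algebra K' L') (_ : Algebra L' L)
      (θ' : L'), IsScalarTower k[X] K' L' ∧ IsScalarTower K' L' L ∧ IsScalarTower k[X] L' L ∧
      algebraMap L' L θ' = θ ∧ IntermediateField.adjoin K' {θ'} = ⊤ := by
  let L' := IntermediateField.adjoin K' {θ}
  letI iA : Algebra k[X] L' := ((algebraMap K' L').comp (algebraMap k[X] K')).toAlgebra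
  refine ⟨L', inferInstance, iA, inferInstance, inferInstance,
    IntermediateField.AdjoinSimple.gen K' θ, ?_, inferInstance, ?_, rfl, ?_⟩
  · exact IsScalarTower.of_algebraMap_eq fun _ => rfl
  · exact IsScalarTower.of_algebraMap_eq fun p => by
      show algebraMap k[X] L p = algebraMap K' L (algebraMap k[X] K' p)
      rw [← IsScalarTower.algebraMap_apply]
  · rw [eq_top_iff]
    rintro x -
    have h1 := IntermediateField.adjoin_map K' {IntermediateField.AdjoinSimple.gen K' θ} L'.val
    rw [Set.image_singleton] at h1
    have h3 : (x : L) ∈ IntermediateField.adjoin K' {L'.val (IntermediateField.AdjoinSimple.gen K' θ)} :=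
      x.2
    rw [← h1, IntermediateField.mem_map] at h3
    obtain ⟨y, hy, hyx⟩ := h3
    have h4 : y = x := Subtype.ext hyx
    rwa [← h4]

end sub

section quad

variable {K' K L' L : Type} [Field K'] [Field K] [Field L'] [Field L] [Algebra K' K] [Algebra K' L']
  [Algebra K L] [Algebra L' L] [Algebra K' L] [IsScalarTower K' K L] [IsScalarTower K' L' L]

/-- The quadratic extension generated by the same square root. -/
theorem quad_up {D : K'} {s : K} (hq : IsQuad D s) {θ' : L'}
    (htop' : IntermediateField.adjoin K' {θ'} = ⊤)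
    (htop : IntermediateField.adjoin K {algebraMap L' L θ'} = ⊤) {f : K'[X]} (hm : f.Monic)
    (hpos : 0 < f.natDegree) (hirr' : Irreducible f) (hirr : Irreducible (f.map (algebraMap K' K)))
    (hθ' : aeval θ' f = 0) : IsQuad (algebraMap K' L' D) (algebraMap K L s) := by
  -- subfields containing `L'` and `s`
  have key : ∀ S : Subfield L, (∀ x : L', algebraMap L' L x ∈ S) → algebraMap K L s ∈ S → S = ⊤ := by
    intro S h1 h3
    have h4 : ∀ x : K, algebraMap K L x ∈ S := by
      intro x
      obtain ⟨a, b, rfl⟩ := hq.rep x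
      rw [map_add, map_mul, ← IsScalarTower.algebraMap_apply K' K L,
        ← IsScalarTower.algebraMap_apply K' K L, IsScalarTower.algebraMap_apply K' L' L,
        IsScalarTower.algebraMap_apply K' L' L]
      exact add_mem (h1 _) (mul_mem (h1 _) h3)
    let T : IntermediateField K L := S.toIntermediateField h4
    have h5 : T = ⊤ := by
      rw [eq_top_iff, ← htop, IntermediateField.adjoin_simple_le_iff]
      exact h1 θ'
    rw [eq_top_iff]
    rintro x -
    have h6 : x ∈ T := by rw [h5]; trivial
    exact h6
  refine ⟨?_, ?_, fun x hx => ?_, ?_⟩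
  · have h3 : (2 : L') = algebraMap K' L' 2 := by rw [map_ofNat]
    rw [h3]
    exact (_root_.map_ne_zero _).2 hq.two
  · rw [← map_pow, hq.sq, ← IsScalarTower.algebraMap_apply K' K L,
      ← IsScalarTower.algebraMap_apply K' L' L]
  · have h1 := key (algebraMap L' L).fieldRange (fun x => ⟨x, rfl⟩) ⟨x, hx⟩
    have hsurj : Function.Surjective (algebraMap L' L) := by
      intro y
      have h3 : y ∈ (algebraMap L' L).fieldRange := by rw [h1]; trivial
      exact h3
    let e : L' ≃ₗ[K'] L := LinearEquiv.ofBijective (IsScalarTower.toAlgHom K' L' L).toLinearMap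
      ⟨(algebraMap L' L).injective, hsurj⟩
    have h3 := e.finrank_eq
    have h4 : Module.finrank K' L' = f.natDegree := TW.finrank_of hirr' hm hθ' htop'
    have hθ : aeval (algebraMap L' L θ') (f.map (algebraMap K' K)) = 0 := by
      rw [aeval_map_algebraMap, aeval_algebraMap_apply, hθ', map_zero]
    have h5 : Module.finrank K L = f.natDegree := by
      rw [TW.finrank_of hirr (hm.map _) hθ htop, hm.natDegree_map]
    haveI := hq.fin
    rw [h4, ← Module.finrank_mul_finrank K' K L, hq.finrank, h5] at h3
    omega
  · have h1 := key (IntermediateField.adjoin L' {algebraMap K L s}).toSubfield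
      (fun x => IntermediateField.algebraMap_mem _ x) (IntermediateField.mem_adjoin_simple_self L' _)
    rw [eq_top_iff]
    rintro x -
    have h3 : x ∈ (IntermediateField.adjoin L' {algebraMap K L s}).toSubfield := by rw [h1]; trivial
    exact h3

end quad

end Pool.Agent.Q45.TT
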