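import Pool.Agent.Q45.TT.Triv

/-!
# The inductive step
-/

set_option autoImplicit false
set_option linter.all false

open Polynomial IsDedekindDomain WithZero
open scoped Classical

namespace Pool.Agent.Q45.TT

open Pool.Agent.Q45.TW (cst ff ff_monic ff_natDegree ff_map)
open Pool.Agent.Y160.SE (IsPw)

section step

variable {k : Type} [Field k] {g : k[X]}

/-- The reduction of an element of `L` to the smaller field. -/
theorem reduce (h2 : (2 : k) ≠ 0) (hg : g.Monic) (hodd : Odd g.natDegree)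
    {K' K L' L : Type} [Field K'] [Field K] [Field L'] [Field L]
    [Algebra k[X] K'] [Algebra k[X] K] [Algebra k[X] L'] [Algebra k[X] L]
    [Algebra K' K] [Algebra K' L'] [Algebra K L] [Algebra L' L] [Algebra K' L]
    [IsScalarTower K' K L] [IsScalarTower K' L' L] [IsScalarTower k[X] K' K]
    [IsScalarTower k[X] K' L'] [IsScalarTower k[X] L' L] [IsScalarTower k[X] K L]
    {D : K'} {s : K} (hq : IsQuad D s) {θ' : L'} (hθ' : aeval θ' (ff g K') = 0)
    (htop' : IntermediateField.adjoin K' {θ'} = ⊤)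
    (htop : IntermediateField.adjoin K {algebraMap L' L θ'} = ⊤)
    (hirr' : Irreducible (ff g K')) (hirr : Irreducible (ff g K)) (hsep' : (ff g K').Separable)
    {z : L} (hz : z ≠ 0) {u : K} (hu : Algebra.norm K z = u ^ 2) {y : L'}
    (hy : Algebra.norm L' z = y ^ 2) :
    ∃ (w : L') (ρ : L) (c : K'), w ≠ 0 ∧ ρ ≠ 0 ∧ Algebra.norm K' w = c ^ 2 ∧
      z = algebraMap L' L w * ρ ^ 2 := by
  have hm' : (ff g K').Monic := ff_monic hg hodd.pos
  have hqL : IsQuad (algebraMap K' L' D) (algebraMap K L s) := by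
    refine quad_up hq htop' htop hm' ?_ hirr' ?_ hθ'
    · rw [ff_natDegree hg hodd.pos]
      exact hodd.pos
    · rwa [ff_alg]
  haveI : FiniteDimensional K' L' := TW.fin_of hm' hθ' htop'
  obtain ⟨w, ρ, hw, hρ, hzw⟩ := hqL.hilbert hz hy
  have hno : Algebra.norm K (algebraMap L' L w) = algebraMap K' K (Algebra.norm K' w) :=
    TW.norm_base hm' hsep' hirr' (by rwa [ff_alg]) hθ' htop' htop w
  have hθ : aeval (algebraMap L' L θ') (ff g K) = 0 := by
    rw [← ff_alg (K' := K'), aeval_map_algebraMap, aeval_algebraMap_apply, hθ', map_zero]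
  haveI : FiniteDimensional K L := TW.fin_of (ff_monic hg hodd.pos) hθ htop
  have hρn : Algebra.norm K ρ ≠ 0 := (Algebra.norm_ne_zero_iff).2 hρ
  have h1 : (u / Algebra.norm K ρ) ^ 2 = algebraMap K' K (Algebra.norm K' w) := by
    rw [div_pow, ← hu, hzw, map_mul, map_pow, hno]
    exact mul_div_cancel_right₀ _ (pow_ne_zero 2 hρn)
  obtain ⟨c, hc | hc⟩ := hq.sq_base h1
  · exact ⟨w, ρ, c, hw, hρ, hc, hzw⟩
  · obtain ⟨e, he⟩ := hodd
    have hD' : algebraMap K' L' D ≠ 0 := (_root_.map_ne_zero _).2 hq.ne_zero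
    have hs : algebraMap K L s ≠ 0 := (_root_.map_ne_zero _).2 hq.s_ne
    refine ⟨w * algebraMap K' L' D, ρ / algebraMap K L s, c * D ^ (e + 1), mul_ne_zero hw hD',
      div_ne_zero hρ hs, ?_, ?_⟩
    · rw [map_mul, hc, Algebra.norm_algebraMap, TW.finrank_of hirr' hm' hθ' htop',
        ff_natDegree hg (by omega), he]
      ring
    · rw [hzw, map_mul, ← hqL.sq, div_pow]
      field_simp

/-- **The inductive step.** -/
theorem Triv.step (h2 : (2 : k) ≠ 0) (hg : g.Monic) (hodd : Odd g.natDegree)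
    (hd : derivative g ≠ 0) {K' K : Type} [Field K'] [Field K] [Algebra k[X] K'] [Algebra k[X] K]
    [Algebra K' K] [IsScalarTower k[X] K' K] {D : K'} {s : K} (hq : IsQuad D s) {m' : ℕ}
    {s' : ℕ → K'} (htw : IsTower k K' m' s') (hram : RamK g K) (ih : Triv g K') : Triv g K := by
  intro L _ _ _ _ θ hθ htop R _ _ _ _ _ _ _ z hz hev hu
  obtain ⟨u, hu⟩ := hu
  have hirr' : Irreducible (ff g K') := htw.irr h2 hg hodd
  haveI := hq.fin
  have hirr : Irreducible (ff g K) := by
    rw [← ff_alg (K' := K') (K := K)]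
    exact irr_quad hq.finrank (ff_monic hg hodd.pos) (by rwa [ff_natDegree hg hodd.pos]) hirr'
  have hsep' : (ff g K').Separable := sep_ff hirr' hd
  have hsep : (ff g K).Separable := sep_ff hirr hd
  have hm' : (ff g K').Monic := ff_monic hg hodd.pos
  have hm : (ff g K).Monic := ff_monic hg hodd.pos
  letI : Algebra K' L := ((algebraMap K L).comp (algebraMap K' K)).toAlgebra
  haveI : IsScalarTower K' K L := IsScalarTower.of_algebraMap_eq fun _ => rfl
  haveI : IsScalarTower k[X] K' L := IsScalarTower.of_algebraMap_eq fun p => by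
    show algebraMap k[X] L p = algebraMap K L (algebraMap K' K (algebraMap k[X] K' p))
    rw [← IsScalarTower.algebraMap_apply k[X] K' K, ← IsScalarTower.algebraMap_apply k[X] K L]
  obtain ⟨L', l1, l2, l3, l4, θ', l5, l6, l7, rfl, htop'⟩ := exists_sub (k := k) (K' := K') θ
  have hθ' : aeval θ' (ff g K') = 0 := by
    apply (algebraMap L' L).injective
    rw [← aeval_algebraMap_apply, ← aeval_map_algebraMap K, ff_alg, hθ, map_zero]
  have hfs' : FS k K' := htw.fs h2
  have hfs : FS k K := hfs'.trans hq.fin hq.separable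
  haveI : FiniteDimensional K' L' := TW.fin_of hm' hθ' htop'
  haveI : FiniteDimensional K L := TW.fin_of hm hθ htop
  have hfsL' : FS k L' := hfs'.trans (TW.fin_of hm' hθ' htop') (TW.sep_of hsep' hθ' htop')
  have hfsL : FS k L := hfs.trans (TW.fin_of hm hθ htop) (TW.sep_of hsep hθ htop)
  have hqL : IsQuad (algebraMap K' L' D) (algebraMap K L s) := by
    refine quad_up hq htop' htop hm' ?_ hirr' ?_ hθ'
    · rw [ff_natDegree hg hodd.pos]
      exact hodd.pos
    · rwa [ff_alg]
  haveI := hqL.fin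
  obtain ⟨R', r1, r2, r3, r4, r5⟩ := exists_ic (k := k) L'
  haveI := hfsL'.ded R'
  haveI := hfsL'.frac R'
  -- the norm to `L'`
  have hNy : ∃ y : L', Algebra.norm L' z = y ^ 2 := by
    refine ih L' θ' hθ' htop' R' _ ((Algebra.norm_ne_zero_iff).2 hz) (fun v => ?_) ?_
    · obtain ⟨φR, hφR1, hφR2⟩ := exists_alg (k := k) (K' := L') (K := L) R' R
      letI : Algebra R' R := φR.toAlgebra
      haveI : IsScalarTower k[X] R' R := IsScalarTower.of_algebraMap_eq fun p => (hφR2 p).symm
      haveI := hfsL.finite R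
      haveI := hfsL'.finite R'
      haveI : Module.Finite R' R := Module.Finite.of_restrictScalars_finite k[X] R' R
      haveI : Module.IsTorsionFree R' R := by
        rw [Module.isTorsionFree_iff_algebraMap_injective]
        exact tf_of (K' := L') (K := L) (IsFractionRing.injective R' L') hφR1
      letI : Algebra R' L := ((algebraMap L' L).comp (algebraMap R' L')).toAlgebra
      haveI : IsScalarTower R' L' L := IsScalarTower.of_algebraMap_eq fun _ => rfl
      haveI : IsScalarTower R' R L := IsScalarTower.of_algebraMap_eq fun a => (hφR1 a).symm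
      exact TW.norm_even (R := R) hz hev v
    · refine ⟨Algebra.norm K' u, ?_⟩
      rw [Algebra.norm_norm, ← map_pow, ← hu, Algebra.norm_norm]
  obtain ⟨y, hy⟩ := hNy
  obtain ⟨w, ρ, c, hw, hρ, hc, hzw⟩ := reduce h2 hg hodd hq hθ' htop' htop hirr' hirr hsep' hz hu hy
  have hev' : ∀ Q : HeightOneSpectrum R, IsPw 2 (Q.valuation L (algebraMap L' L w)) := by
    intro Q
    have h1 := hev Q
    rw [hzw, map_mul, map_pow] at h1
    exact IsPw.of_mul ((Valuation.ne_zero_iff _).2 hρ) h1
  obtain ⟨c₁, hc₁⟩ := ih L' θ' hθ' htop' R' w hw (fun q => even_all h2 hg hodd hq hθ' htop' htop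
    hirr' hirr htw hfsL' hfsL hram hw hc hev' q) ⟨c, hc⟩
  exact ⟨algebraMap L' L c₁ * ρ, by rw [hzw, hc₁, map_pow, mul_pow]⟩

end step

end Pool.Agent.Q45.TT
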