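import Pool.Agent.Q45.TT.Inert

/-!
# Towers of quadratic extensions of the field `k(t)`
-/

set_option autoImplicit false
set_option linter.all false

open Polynomial IsDedekindDomain WithZero
open scoped Classical

namespace Pool.Agent.Q45.TT

/-- The field `K` is generated over `k(t)` by successive square roots `s 0, …, s (m - 1)`. -/
structure IsTower (k : Type) [Field k] (K : Type) [Field K] [Algebra k[X] K] (m : ℕ) (s : ℕ → K) :
    Prop where
  inj : Function.Injective (algebraMap k[X] K)
  sq : ∀ i < m, s i ^ 2 ∈ Subfield.closure (Set.range (algebraMap k[X] K) ∪ s '' {j | j < i})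
  gen : Subfield.closure (Set.range (algebraMap k[X] K) ∪ s '' {j | j < m}) = ⊤

section tower

variable {k : Type} [Field k]

theorem frac_of_gen {K : Type} [Field K] [Algebra k[X] K]
    (hinj : Function.Injective (algebraMap k[X] K))
    (hgen : Subfield.closure (Set.range (algebraMap k[X] K)) = ⊤) : IsFractionRing k[X] K := by
  let ψ : FractionRing k[X] →+* K := IsFractionRing.lift hinj
  have hψ : ∀ a, ψ (algebraMap k[X] (FractionRing k[X]) a) = algebraMap k[X] K a := fun a =>
    IsFractionRing.lift_algebraMap hinj a
  have hsurj : Function.Surjective ψ := by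
    have h5 : (⊤ : Subfield K) ≤ ψ.fieldRange := by
      rw [← hgen, Subfield.closure_le]
      rintro x ⟨p, rfl⟩
      exact ⟨algebraMap k[X] _ p, hψ p⟩
    intro x
    exact h5 (Subfield.mem_top x)
  let e : FractionRing k[X] ≃ₐ[k[X]] K :=
    AlgEquiv.ofBijective ({ ψ with commutes' := fun a => hψ a } : FractionRing k[X] →ₐ[k[X]] K)
      ⟨ψ.injective, hsurj⟩
  exact IsLocalization.isLocalization_of_algEquiv (nonZeroDivisors k[X]) e

/-- Membership in the closure in a subfield. -/
theorem mem_closure_sub {K : Type} [Field K] (S : Subfield K) (T : Set S) (x : S)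
    (hx : (x : K) ∈ Subfield.closure (S.subtype '' T)) : x ∈ Subfield.closure T := by
  rw [← RingHom.map_field_closure, Subfield.mem_map] at hx
  obtain ⟨y, hy, hyx⟩ := hx
  have h1 : y = x := Subtype.ext hyx
  rwa [← h1]

/-- The induction principle for towers of quadratic extensions. -/
theorem IsTower.ind (h2 : (2 : k) ≠ 0) {M : ∀ (K : Type) [Field K] [Algebra k[X] K], Prop}
    (base : ∀ (K : Type) [Field K] [Algebra k[X] K], IsFractionRing k[X] K → M K)
    (step : ∀ (K' K : Type) [Field K'] [Field K] [Algebra k[X] K'] [Algebra k[X] K] [Algebra K' K]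
      [IsScalarTower k[X] K' K] (D : K') (s : K), IsQuad D s →
      Function.Injective (algebraMap k[X] K') → (∃ m s', IsTower k K' m s') → M K' → M K) :
    ∀ (m : ℕ) (K : Type) [Field K] [Algebra k[X] K] (s : ℕ → K), IsTower k K m s → M K := by
  intro m
  induction m with
  | zero =>
    intro K _ _ s h
    refine base K (frac_of_gen h.inj ?_)
    have h1 := h.gen
    have h3 : s '' {j | j < 0} = ∅ := by simp
    rw [h3, Set.union_empty] at h1
    exact h1
  | succ m ih =>
    intro K _ _ s h
    set S := Subfield.closure (Set.range (algebraMap k[X] K) ∪ s '' {j | j < m}) with hS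
    have hpS : ∀ p, algebraMap k[X] K p ∈ S := fun p => Subfield.subset_closure (Or.inl ⟨p, rfl⟩)
    have hsS : ∀ j < m, s j ∈ S := fun j hj => Subfield.subset_closure (Or.inr ⟨j, hj, rfl⟩)
    by_cases hm : s m ∈ S
    · refine ih K s ⟨h.inj, fun i hi => h.sq i (by omega), ?_⟩
      rw [eq_top_iff, ← h.gen, Subfield.closure_le]
      rintro x (⟨p, rfl⟩ | ⟨j, hj, rfl⟩)
      · exact hpS p
      · rcases Nat.lt_succ_iff_lt_or_eq.1 hj with h3 | rfl
        · exact hsS j h3
        · exact hm
    · letI : Algebra k[X] S := ((algebraMap k[X] K).codRestrict S hpS).toAlgebra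
      haveI : IsScalarTower k[X] S K := IsScalarTower.of_algebraMap_eq fun p => rfl
      let s' : ℕ → S := fun j => if hj : s j ∈ S then ⟨s j, hj⟩ else 0
      have hs' : ∀ j < m, (s' j : K) = s j := by
        intro j hj
        show ((if hj : s j ∈ S then (⟨s j, hj⟩ : S) else 0 : S) : K) = s j
        rw [dif_pos (hsS j hj)]
      have himg : ∀ i ≤ m, S.subtype '' (Set.range (algebraMap k[X] S) ∪ s' '' {j | j < i}) =
          Set.range (algebraMap k[X] K) ∪ s '' {j | j < i} := by
        intro i hi
        rw [Set.image_union]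
        congr 1
        · rw [← Set.range_comp]
          rfl
        · ext x
          constructor
          · rintro ⟨_, ⟨j, hj, rfl⟩, rfl⟩
            exact ⟨j, hj, (hs' j (lt_of_lt_of_le hj hi)).symm⟩
          · rintro ⟨j, hj, rfl⟩
            exact ⟨s' j, ⟨j, hj, rfl⟩, hs' j (lt_of_lt_of_le hj hi)⟩
      have htw : IsTower k S m s' := by
        refine ⟨fun p q hpq => h.inj (congrArg S.subtype hpq), fun i hi => ?_, ?_⟩
        · apply mem_closure_sub
          rw [himg i hi.le]
          show (s' i : K) ^ 2 ∈ _
          rw [hs' i hi]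
          exact h.sq i (by omega)
        · rw [eq_top_iff]
          rintro x -
          apply mem_closure_sub
          rw [himg m le_rfl]
          exact x.2
      have hD : s m ^ 2 ∈ S := h.sq m (by omega)
      have h2S : (2 : S) ≠ 0 := by
        have h3 : (2 : S) = algebraMap k[X] S (C 2) := by
          rw [show (C 2 : k[X]) = 2 by rw [map_ofNat], map_ofNat]
        rw [h3]
        intro h4
        have h5 : (C 2 : k[X]) = 0 := htw.inj (by rw [h4, map_zero])
        exact h2 (C_eq_zero.1 h5)
      refine step S K ⟨s m ^ 2, hD⟩ (s m) ⟨h2S, rfl, fun x hx => hm ?_, ?_⟩ htw.inj ⟨m, s', htw⟩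
        (ih S s' htw)
      · rw [← hx]
        exact x.2
      · rw [eq_top_iff]
        rintro x -
        have h3 : (⊤ : Subfield K) ≤ (IntermediateField.adjoin S {s m}).toSubfield := by
          rw [← h.gen, Subfield.closure_le]
          rintro x (⟨p, rfl⟩ | ⟨j, hj, rfl⟩)
          · exact IntermediateField.algebraMap_mem _ (algebraMap k[X] S p)
          · rcases Nat.lt_succ_iff_lt_or_eq.1 hj with h3 | rfl
            · exact IntermediateField.algebraMap_mem _ (⟨s j, hsS j h3⟩ : S)
            · exact IntermediateField.mem_adjoin_simple_self S _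
        exact h3 (Subfield.mem_top x)

end tower

end Pool.Agent.Q45.TT
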