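import Pool.Agent.Q45.TT.Quad
import Pool.Agent.Q45.TW.Evn
import Pool.Agent.TH115.TC.Unram2

/-!
# Valuations in quadratic extensions and norms at inert primes
-/

set_option autoImplicit false
set_option linter.all false

open Polynomial IsDedekindDomain WithZero
open scoped Classical

namespace Pool.Agent.Q45.TT

open Pool.Agent.Y160.SE (IsPw)

section ring

variable {A K B L : Type} [CommRing A] [IsDedekindDomain A] [Field K] [Algebra A K]
  [IsFractionRing A K] [CommRing B] [IsDedekindDomain B] [Field L] [Algebra B L] [IsFractionRing B L]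
  [Algebra K L] [Algebra A B] [Algebra A L] [IsScalarTower A K L] [IsScalarTower A B L]
  [Module.IsTorsionFree A B]

/-- The valuation of an element of the base. -/
theorem val_under [Algebra.IsIntegral A B] (w : HeightOneSpectrum B) (x : K) :
    w.valuation L (algebraMap K L x) =
      (w.under A).valuation K x ^ (w.under A).asIdeal.ramificationIdx' w.asIdeal := by
  haveI hlo : w.asIdeal.LiesOver (w.under A).asIdeal := ⟨rfl⟩
  exact (HeightOneSpectrum.valuation_liesOver (A := A) L (w.under A) w x).symm

theorem ram_ne_zero [Algebra.IsIntegral A B] (w : HeightOneSpectrum B) :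
    (w.under A).asIdeal.ramificationIdx' w.asIdeal ≠ 0 := by
  haveI hlo : w.asIdeal.LiesOver (w.under A).asIdeal := ⟨rfl⟩
  exact Ideal.IsDedekindDomain.ramificationIdx'_ne_zero_of_liesOver w.asIdeal (w.under A).ne_bot

/-- A square class with even valuation contains a unit at the place. -/
theorem unit_rep (v : HeightOneSpectrum A) {D : K} (hD : D ≠ 0) (hev : IsPw 2 (v.valuation K D)) :
    ∃ (d : A) (c : K), c ≠ 0 ∧ D * c ^ 2 = algebraMap A K d ∧ v.intValuation d = 1 := by
  obtain ⟨a, b, hb, rfl⟩ := IsFractionRing.div_surjective (A := A) D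
  have hb0 : b ≠ 0 := nonZeroDivisors.ne_zero hb
  have ha0 : a ≠ 0 := by
    rintro rfl
    rw [map_zero, zero_div] at hD
    exact hD rfl
  have hbK : algebraMap A K b ≠ 0 := fun h => hb0 (IsFractionRing.injective A K (by rw [h, map_zero]))
  have hab0 : a * b ≠ 0 := mul_ne_zero ha0 hb0
  have he : algebraMap A K (a * b) = algebraMap A K a / algebraMap A K b * algebraMap A K b ^ 2 := by
    rw [map_mul]
    field_simp
  -- the valuation of `a b`
  obtain ⟨j, hj⟩ : ∃ j : ℕ, v.intValuation (a * b) = exp (-((2 * j : ℕ) : ℤ)) := by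
    have h1 : IsPw 2 (v.valuation K (algebraMap A K (a * b))) := by
      rw [he, map_mul, map_pow]
      exact hev.mul (IsPw.self _)
    rw [v.valuation_of_algebraMap] at h1
    obtain ⟨δ, hδ⟩ := h1
    have h3 : v.intValuation (a * b) ≤ 1 := v.intValuation_le_one _
    have hδ0 : δ ≠ 0 := by
      rintro rfl
      rw [zero_pow (by norm_num)] at hδ
      exact v.intValuation_ne_zero _ hab0 hδ
    obtain ⟨m, hm⟩ : ∃ m : ℤ, δ = exp m := ⟨_, (exp_log hδ0).symm⟩
    rw [hδ, hm, ← exp_nsmul, ← exp_zero, exp_le_exp] at h3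
    refine ⟨(-m).toNat, ?_⟩
    rw [hδ, hm, ← exp_nsmul]
    congr 1
    simp only [nsmul_eq_mul] at h3 ⊢
    push_cast at h3 ⊢
    rw [Int.toNat_of_nonneg (by omega)]
    ring
  obtain ⟨π, hπ⟩ := v.intValuation_exists_uniformizer
  have hπ0 : π ≠ 0 := by
    rintro rfl
    rw [map_zero] at hπ
    exact exp_ne_zero hπ.symm
  set τ := π ^ j with hτ
  have hτ0 : τ ≠ 0 := pow_ne_zero _ hπ0
  have hτv : v.intValuation τ = exp (-(j : ℤ)) := by
    rw [hτ, map_pow, hπ, ← exp_nsmul]
    congr 1
    simp
  have hτm : τ ∈ v.asIdeal ^ j := by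
    rw [← v.intValuation_le_pow_iff_mem, hτv]
  obtain ⟨I, hI⟩ : v.asIdeal ^ j ∣ Ideal.span {τ} := by
    rw [Ideal.dvd_span_singleton]
    exact hτm
  -- an element of `I` outside `v`
  obtain ⟨ρ, hρI, hρv⟩ : ∃ ρ ∈ I, ρ ∉ v.asIdeal := by
    by_contra hcon
    push Not at hcon
    have h1 : v.asIdeal ∣ I := Ideal.dvd_iff_le.2 hcon
    have h3 : v.asIdeal ^ (j + 1) ∣ Ideal.span {τ} := by
      rw [hI, pow_succ]
      exact mul_dvd_mul_left _ h1
    rw [Ideal.dvd_span_singleton, ← v.intValuation_le_pow_iff_mem, hτv, exp_le_exp] at h3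
    push_cast at h3
    omega
  have hρv1 : v.intValuation ρ = 1 := (v.intValuation_eq_one_iff).2 hρv
  have hmem : a * b * ρ ^ 2 ∈ Ideal.span {τ ^ 2} := by
    have h1 : a * b ∈ (v.asIdeal ^ j) ^ 2 := by
      rw [← pow_mul, ← v.intValuation_le_pow_iff_mem, hj]
      rw [mul_comm]
    have h3 : a * b * ρ ^ 2 ∈ (v.asIdeal ^ j) ^ 2 * I ^ 2 :=
      Ideal.mul_mem_mul h1 (Ideal.pow_mem_pow hρI 2)
    rw [← mul_pow, ← hI, Ideal.span_singleton_pow] at h3
    exact h3
  obtain ⟨d, hd⟩ := Ideal.mem_span_singleton'.1 hmem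
  have hτK : algebraMap A K τ ≠ 0 := fun h => hτ0 (IsFractionRing.injective A K (by rw [h, map_zero]))
  have hρ0 : ρ ≠ 0 := by
    rintro rfl
    exact hρv (v.asIdeal.zero_mem)
  have hρK : algebraMap A K ρ ≠ 0 := fun h => hρ0 (IsFractionRing.injective A K (by rw [h, map_zero]))
  refine ⟨d, algebraMap A K b * algebraMap A K ρ / algebraMap A K τ,
    div_ne_zero (mul_ne_zero hbK hρK) hτK, ?_, ?_⟩
  · have h1 := congrArg (algebraMap A K) hd
    simp only [map_mul, map_pow] at h1
    field_simp
    linear_combination -h1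
  · have h1 := congrArg v.intValuation hd
    rw [map_mul, map_mul, map_pow v.intValuation τ, map_pow v.intValuation ρ, hρv1, one_pow, mul_one,
      hτv, hj] at h1
    have h3 : (exp (-(j : ℤ)) : WithZero (Multiplicative ℤ)) ^ 2 = exp (-((2 * j : ℕ) : ℤ)) := by
      rw [← exp_nsmul]
      congr 1
      push_cast
      rw [nsmul_eq_mul]
      push_cast
      ring
    rw [h3] at h1
    exact mul_right_cancel₀ exp_ne_zero (h1.trans (one_mul _).symm)

/-- A quadratic extension by a square root of an element of even valuation is unramified. -/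
theorem ram_one [Module.Finite A B] {D : K} {s : L} (h : IsQuad D s) (h2 : IsUnit (2 : A))
    (w : HeightOneSpectrum B) (hev : IsPw 2 ((w.under A).valuation K D)) :
    (w.under A).asIdeal.ramificationIdx' w.asIdeal = 1 := by
  haveI : Algebra.IsIntegral A B := Algebra.IsIntegral.of_finite A B
  haveI := h.fin
  haveI := h.separable
  set v := w.under A with hv
  haveI hlo : w.asIdeal.LiesOver v.asIdeal := ⟨rfl⟩
  haveI : v.asIdeal.IsMaximal := v.isMaximal
  obtain ⟨d, c, hc, hcd, hdv⟩ := unit_rep v h.ne_zero hev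
  have hsq : (algebraMap K L c * s) ^ 2 = algebraMap B L (algebraMap A B d) := by
    rw [mul_pow, h.sq, ← map_pow, ← map_mul, mul_comm, hcd, ← IsScalarTower.algebraMap_apply A K L,
      ← IsScalarTower.algebraMap_apply A B L]
  obtain ⟨t, ht⟩ : ∃ t : B, algebraMap B L t = algebraMap K L c * s := by
    apply (IsIntegrallyClosed.isIntegral_iff (K := L)).1
    refine IsIntegral.of_pow (n := 2) (by norm_num) ?_
    rw [hsq]
    exact isIntegral_algebraMap
  have ht2 : t ^ 2 = algebraMap A B d := by
    apply IsFractionRing.injective B L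
    rw [map_pow, ht, hsq]
  have htw : t ∉ w.asIdeal := by
    intro h1
    have h3 : algebraMap A B d ∈ w.asIdeal := by
      rw [← ht2]
      exact Ideal.pow_mem_of_mem _ h1 2 (by norm_num)
    have h4 : d ∈ v.asIdeal := h3
    exact (v.intValuation_eq_one_iff).1 hdv h4
  -- the minimal polynomial
  have hirr : Irreducible (X ^ 2 - C (algebraMap A K d) : K[X]) := by
    refine X_pow_sub_C_irreducible_of_prime Nat.prime_two fun b hb => ?_
    refine h.not_sq (b / c) ?_
    rw [div_pow, hb, ← hcd]
    field_simp
  have hroot : aeval (algebraMap B L t) (X ^ 2 - C (algebraMap A K d) : K[X]) = 0 := by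
    rw [map_sub, map_pow, aeval_X, aeval_C, ht, hsq, ← IsScalarTower.algebraMap_apply A K L,
      ← IsScalarTower.algebraMap_apply A B L, sub_self]
  have hminK : minpoly K (algebraMap B L t) = X ^ 2 - C (algebraMap A K d) :=
    (minpoly.eq_of_irreducible_of_monic hirr hroot (IsQuad.mon _)).symm
  have hint : IsIntegral A t := Algebra.IsIntegral.isIntegral t
  have hmin : minpoly A t = X ^ 2 - C d := by
    have h1 := minpoly.isIntegrallyClosed_eq_field_fractions K L hint
    rw [hminK] at h1
    apply map_injective (algebraMap A K) (IsFractionRing.injective A K)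
    rw [← h1, Polynomial.map_sub, Polynomial.map_pow, map_X, map_C]
  have htop : Algebra.adjoin K {algebraMap B L t} = ⊤ := by
    have hi : IsIntegral K (algebraMap B L t) := ⟨_, IsQuad.mon _, hroot⟩
    have h3 := IntermediateField.adjoin_simple_toSubalgebra_of_isAlgebraic hi.isAlgebraic
    have h4 : IntermediateField.adjoin K {algebraMap B L t} = ⊤ := by
      rw [eq_top_iff, ← h.top, IntermediateField.adjoin_simple_le_iff]
      have h5 : s = (algebraMap K L c)⁻¹ * algebraMap B L t := by
        rw [ht, inv_mul_cancel_left₀ ((_root_.map_ne_zero _).2 hc)]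
      rw [h5, ← map_inv₀]
      exact mul_mem (IntermediateField.algebraMap_mem _ _) (IntermediateField.mem_adjoin_simple_self K _)
    rw [h4] at h3
    exact h3.symm
  have hmem := aeval_derivative_mem_differentIdeal A K L t htop
  have hder : derivative (X ^ 2 - C d : A[X]) = C 2 * X := by
    rw [derivative_sub, derivative_C, sub_zero, derivative_X_pow]
    norm_num
  rw [hmin, hder, map_mul, aeval_C, aeval_X, map_ofNat] at hmem
  by_contra hne
  have hle : v.asIdeal.map (algebraMap A B) ≤ w.asIdeal := by
    rw [Ideal.map_le_iff_le_comap]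
    exact le_of_eq hlo.over
  have h3 := (Ideal.ramificationIdx'_ne_one_iff hle).1 hne
  have h4 : w.asIdeal ^ 2 ∣ v.asIdeal.map (algebraMap A B) := Ideal.dvd_iff_le.2 h3
  have h5 := pow_sub_one_dvd_differentIdeal_aux K L (A := A) (B := B) w.asIdeal (e := 2) (by norm_num)
    v.ne_bot h4
  have h6 : (2 : B) * t ∈ w.asIdeal := by
    have h7 := Ideal.dvd_iff_le.1 h5 hmem
    norm_num at h7
    exact h7
  rcases w.isPrime.mem_or_mem h6 with h7 | h7
  · refine w.isPrime.ne_top (Ideal.eq_top_of_isUnit_mem _ h7 ?_)
    have h8 := h2.map (algebraMap A B)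
    rwa [map_ofNat] at h8
  · exact htw h7

end ring

section inert

variable {A B : Type} [CommRing A] [IsDedekindDomain A] [CommRing B] [IsDedekindDomain B]
  [Algebra A B] [Module.IsTorsionFree A B] [Module.Finite A B]

theorem mult_relNorm (v : HeightOneSpectrum A) (w : HeightOneSpectrum B)
    (hvw : v.asIdeal.map (algebraMap A B) = w.asIdeal) {I : Ideal B} (hI : I ≠ ⊥) :
    emultiplicity v.asIdeal (Ideal.relNorm A I) =
      ((Module.finrank A B : ℕ) : ℕ∞) * emultiplicity w.asIdeal I := by
  haveI : Algebra.IsIntegral A B := Algebra.IsIntegral.of_finite A B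
  have hvp : Prime v.asIdeal := v.prime
  have hwp : Prime w.asIdeal := w.prime
  induction I using UniqueFactorizationMonoid.induction_on_prime with
  | h₁ => exact absurd rfl hI
  | h₂ I hI1 =>
    rw [Ideal.isUnit_iff] at hI1
    rw [hI1, Ideal.relNorm_top, ← Ideal.one_eq_top, ← Ideal.one_eq_top, emultiplicity_of_one_right
      hvp.not_unit, emultiplicity_of_one_right hwp.not_unit, mul_zero]
  | h₃ J P hJ hP ih =>
    rw [map_mul, emultiplicity_mul hvp, emultiplicity_mul hwp, mul_add, ih hJ]
    congr 1
    have hPp : P.IsPrime := Ideal.isPrime_of_prime hP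
    have hP0 : P ≠ ⊥ := hP.ne_zero
    by_cases hPw : P = w.asIdeal
    · rw [hPw, ← hvw, Ideal.relNorm_algebraMap, hvw, emultiplicity_pow_self_of_prime hvp]
      have h1 : emultiplicity w.asIdeal w.asIdeal = 1 := by
        have h3 := emultiplicity_pow_self_of_prime hwp 1
        rw [pow_one] at h3
        exact_mod_cast h3
      rw [h1, mul_one]
    · have h1 : emultiplicity w.asIdeal P = 0 := by
        rw [emultiplicity_eq_zero]
        intro hd
        have h3 := Ideal.dvd_iff_le.1 hd
        have hPm : P.IsMaximal := hPp.isMaximal hP0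
        exact hPw (hPm.eq_of_le w.isPrime.ne_top h3)
      rw [h1, mul_zero, emultiplicity_eq_zero]
      intro hd
      haveI : P.LiesOver (P.under A) := ⟨rfl⟩
      haveI : (P.under A).IsPrime := inferInstance
      obtain ⟨n, hn⟩ := Ideal.exists_relNorm_eq_pow_of_isPrime P (P.under A)
      rw [hn] at hd
      have h3 := Ideal.dvd_iff_le.1 (hvp.dvd_of_dvd_pow hd)
      have hu0 : P.under A ≠ ⊥ := fun h0 => hP0 (Ideal.eq_bot_of_comap_eq_bot h0)
      have hum : (P.under A).IsMaximal := Ideal.IsPrime.isMaximal inferInstance hu0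
      have h4 : P.under A = v.asIdeal := hum.eq_of_le v.isPrime.ne_top h3
      have h5 : w.asIdeal ≤ P := by
        rw [← hvw, Ideal.map_le_iff_le_comap, ← h4]
      have hwm : w.asIdeal.IsMaximal := w.isMaximal
      exact hPw (hwm.eq_of_le hPp.ne_top h5).symm

variable {K L : Type} [Field K] [Algebra A K] [IsFractionRing A K] [Field L] [Algebra B L]
  [IsFractionRing B L] [Algebra K L] [Algebra A L] [IsScalarTower A K L] [IsScalarTower A B L]

theorem mult_fin {R : Type} [CommRing R] [IsDedekindDomain R] (v : HeightOneSpectrum R) {I : Ideal R}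
    (hI : I ≠ ⊥) : FiniteMultiplicity v.asIdeal I := FiniteMultiplicity.of_prime_left v.prime hI

/-- The valuation of the norm at an inert prime. -/
theorem val_norm (v : HeightOneSpectrum A) (w : HeightOneSpectrum B)
    (hvw : v.asIdeal.map (algebraMap A B) = w.asIdeal) [FiniteDimensional K L] (z : L) :
    v.valuation K (Algebra.norm K z) = w.valuation L z ^ Module.finrank K L := by
  have key : ∀ r : B, v.intValuation (Algebra.intNorm A B r) =
      w.intValuation r ^ Module.finrank K L := by
    intro r
    rcases eq_or_ne r 0 with rfl | hr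
    · rw [Algebra.intNorm_zero, map_zero, map_zero, zero_pow (Module.finrank_pos (R := K)).ne']
    have hn0 : Algebra.intNorm A B r ≠ 0 := by
      intro h0
      have h3 : algebraMap A K (Algebra.intNorm A B r) = Algebra.norm K (algebraMap B L r) :=
        Algebra.algebraMap_intNorm r
      rw [h0, map_zero] at h3
      have h4 := (Algebra.norm_eq_zero_iff).1 h3.symm
      exact hr (IsFractionRing.injective B L (by rw [h4, map_zero]))
    have hI : Ideal.span {r} ≠ ⊥ := fun h => hr (Ideal.span_singleton_eq_bot.1 h)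
    have hJ : Ideal.span {Algebra.intNorm A B r} ≠ ⊥ := fun h => hn0 (Ideal.span_singleton_eq_bot.1 h)
    have h1 := mult_relNorm v w hvw hI
    rw [Ideal.relNorm_singleton, (mult_fin v hJ).emultiplicity_eq_multiplicity,
      (mult_fin w hI).emultiplicity_eq_multiplicity] at h1
    have h3 : multiplicity v.asIdeal (Ideal.span {Algebra.intNorm A B r}) =
        Module.finrank A B * multiplicity w.asIdeal (Ideal.span {r}) := by
      exact_mod_cast h1
    rw [v.intValuation_eq_exp_neg_multiplicity hn0, w.intValuation_eq_exp_neg_multiplicity hr, h3,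
      ← exp_nsmul, IsFractionRing.finrank_eq A K B L]
    congr 1
    push_cast
    rw [nsmul_eq_mul]
    ring
  have key2 : ∀ r : B, v.valuation K (Algebra.norm K (algebraMap B L r)) =
      w.valuation L (algebraMap B L r) ^ Module.finrank K L := by
    intro r
    rw [← Algebra.algebraMap_intNorm (A := A), v.valuation_of_algebraMap, w.valuation_of_algebraMap,
      key]
  obtain ⟨a, b, hb, rfl⟩ := IsFractionRing.div_surjective (A := B) z
  have hb0 : algebraMap B L b ≠ 0 := fun h =>
    nonZeroDivisors.ne_zero hb (IsFractionRing.injective B L (by rw [h, map_zero]))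
  have h1 : algebraMap B L a / algebraMap B L b * algebraMap B L b = algebraMap B L a :=
    div_mul_cancel₀ _ hb0
  have h3 : v.valuation K (Algebra.norm K (algebraMap B L a / algebraMap B L b)) *
      v.valuation K (Algebra.norm K (algebraMap B L b)) =
      v.valuation K (Algebra.norm K (algebraMap B L a)) := by
    rw [← map_mul, ← map_mul, h1]
  have h4 : w.valuation L (algebraMap B L a / algebraMap B L b) * w.valuation L (algebraMap B L b) =
      w.valuation L (algebraMap B L a) := by
    rw [← map_mul, h1]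
  rw [key2, key2, ← h4, mul_pow] at h3
  have h5 : w.valuation L (algebraMap B L b) ^ Module.finrank K L ≠ 0 :=
    pow_ne_zero _ ((Valuation.ne_zero_iff _).2 hb0)
  exact mul_right_cancel₀ h5 h3

/-- Elements whose norm is a square have even valuation at inert primes of odd degree. -/
theorem even_inert (v : HeightOneSpectrum A) (w : HeightOneSpectrum B)
    (hvw : v.asIdeal.map (algebraMap A B) = w.asIdeal) [FiniteDimensional K L]
    (hodd : Odd (Module.finrank K L)) {z : L} (hz : z ≠ 0) {m : K} (hm : Algebra.norm K z = m ^ 2) :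
    IsPw 2 (w.valuation L z) := by
  have h1 := val_norm (K := K) (L := L) v w hvw z
  rw [hm, map_pow] at h1
  have hwz : w.valuation L z ≠ 0 := (Valuation.ne_zero_iff _).2 hz
  obtain ⟨e, he⟩ := hodd
  refine ⟨v.valuation K m / w.valuation L z ^ e, ?_⟩
  rw [div_pow, h1, he, pow_succ, pow_mul, mul_comm, ← pow_mul, ← pow_mul, mul_comm e 2,
    mul_div_assoc, div_self (pow_ne_zero _ hwz), mul_one]

end inert

end Pool.Agent.Q45.TT
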